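import Pool.Agent.Work.MP_74021c_co.Defs

/-!
# The explicit potential for `t = 8/5`: coefficients and the three certified inequalities

Inner region `0 ≤ w ≤ 5/4`, `s = 4 w / 5`, `ω = p + q`, `κ = w - p + q`:
`f = A0 + B0 (ω - 5/4 + κ)/2 + (1 - s) H(s, ω, κ)`, `lam = (1 - s)(1/2 + s l(s))`.
-/

open Real Set

namespace DT.Cand

/-- the common denominator of all coefficients -/
def Q : ℤ := 67108864

/-- coefficients of `1, κ, κ^2, κ^3, ω, ωκ, ωκ^2, ω^2, ω^2κ, ω^3` -/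
def C : Fin 5 → Fin 10 → ℤ :=
  ![![132008130, -105346749, 197201, 0, -36474954, 0, -125201, -727668, 0, 154465],
    ![137269770, 15032529, 7833143, -2466243, -55050839, 18523158, -4985976, 13810503, -5893452,
      -2930284],
    ![-63816210, 65635937, 41267531, -2868180, -11437049, 93001631, -26376407, 43543038,
      -29661736, -9254204],
    ![34139212, -340893448, 205944526, -65517534, -253867526, 398471519, -130609566, 214701287,
      -126577052, -45502784],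
    ![188836526, -146369479, 44723174, 7197705, -147366806, 86781370, -28812001, 27042621,
      -27758518, -5755321]]

/-- coefficients of `l` -/
def L : Fin 4 → ℤ := ![-25467869, -76953169, 118644794, -47858182]

/-- `A0` and half of `B0` -/
noncomputable def A0 : ℝ := 62679 / 67108864
noncomputable def Bh : ℝ := 105346749 / 67108864

noncomputable def Hc (c : Fin 10 → ℤ) (ω κ : ℝ) : ℝ :=
  (c 0 + c 1 * κ + c 2 * κ ^ 2 + c 3 * κ ^ 3 + c 4 * ω + c 5 * (ω * κ) + c 6 * (ω * κ ^ 2) +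
    c 7 * ω ^ 2 + c 8 * (ω ^ 2 * κ) + c 9 * ω ^ 3) / 67108864

/-- derivative of `Hc` with respect to `ω` -/
noncomputable def Hco (c : Fin 10 → ℤ) (ω κ : ℝ) : ℝ :=
  (c 4 + c 5 * κ + c 6 * κ ^ 2 + 2 * c 7 * ω + 2 * c 8 * (ω * κ) + 3 * c 9 * ω ^ 2) / 67108864

/-- derivative of `Hc` with respect to `κ` -/
noncomputable def Hck (c : Fin 10 → ℤ) (ω κ : ℝ) : ℝ :=
  (c 1 + 2 * c 2 * κ + 3 * c 3 * κ ^ 2 + c 5 * ω + 2 * c 6 * (ω * κ) + c 8 * ω ^ 2) / 67108864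

noncomputable def H (s ω κ : ℝ) : ℝ :=
  Hc (C 0) ω κ + s * (Hc (C 1) ω κ + s * (Hc (C 2) ω κ + s * (Hc (C 3) ω κ + s * Hc (C 4) ω κ)))

noncomputable def Ho (s ω κ : ℝ) : ℝ :=
  Hco (C 0) ω κ + s * (Hco (C 1) ω κ + s * (Hco (C 2) ω κ + s * (Hco (C 3) ω κ +
    s * Hco (C 4) ω κ)))

noncomputable def Hk (s ω κ : ℝ) : ℝ :=
  Hck (C 0) ω κ + s * (Hck (C 1) ω κ + s * (Hck (C 2) ω κ + s * (Hck (C 3) ω κ +
    s * Hck (C 4) ω κ)))

/-- derivative of `H` with respect to `s` -/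
noncomputable def Hs (s ω κ : ℝ) : ℝ :=
  Hc (C 1) ω κ + s * (2 * Hc (C 2) ω κ + s * (3 * Hc (C 3) ω κ + s * (4 * Hc (C 4) ω κ)))

noncomputable def l (s : ℝ) : ℝ := (L 0 + s * (L 1 + s * (L 2 + s * L 3))) / 67108864

noncomputable def l' (s : ℝ) : ℝ := (L 1 + s * (2 * L 2 + s * (3 * L 3))) / 67108864

/-- the weight as a function of `s = 4 w / 5` -/
noncomputable def lamS (s : ℝ) : ℝ := (1 - s) * (1 / 2 + s * l s)

/-- its derivative with respect to `s` -/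
noncomputable def lamS' (s : ℝ) : ℝ := -(1 / 2 + s * l s) + (1 - s) * (l s + s * l' s)

noncomputable def g (s ω κ : ℝ) : ℝ := A0 + Bh * (ω - 5 / 4 + κ) + (1 - s) * H s ω κ
noncomputable def go (s ω κ : ℝ) : ℝ := Bh + (1 - s) * Ho s ω κ
noncomputable def gk (s ω κ : ℝ) : ℝ := Bh + (1 - s) * Hk s ω κ
/-- derivative of `g (4 w / 5)` with respect to `w` -/
noncomputable def gw (s ω κ : ℝ) : ℝ := 4 / 5 * (-H s ω κ + (1 - s) * Hs s ω κ)

/-- certified inequality (C), `ε = ± 2` -/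
def CertC : Prop := ∀ s x y ε : ℝ, s ∈ Icc (0 : ℝ) 1 → x ∈ Icc (0 : ℝ) 1 → y ∈ Icc (0 : ℝ) 1 →
  (ε = 2 ∨ ε = -2) → ∀ w ω κ, w = 5 / 4 * s →
  ω = π / 2 * (x + y) + w * (x - y) → κ = w * (1 - (x + y)) - π / 2 * (x - y) →
  0 ≤ 8 / 5 * (cos (w - κ) - cos ω) + cos w * (g s ω κ * cos ω - go s ω κ * sin ω) -
    (gw s ω κ + ε * (4 / 5 * lamS' s) * sin ω) * (cos ω * sin w - sin κ)

/-- certified inequality (A) -/
def CertA : Prop := ∀ s x y : ℝ, s ∈ Icc (0 : ℝ) 1 → x ∈ Icc (0 : ℝ) 1 → y ∈ Icc (0 : ℝ) 1 →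
  ∀ w ω κ, w = 5 / 4 * s →
  ω = π / 2 * (x + y) + w * (x - y) → κ = w * (1 - (x + y)) - π / 2 * (x - y) →
  0 ≤ Ho s ω κ - Hk s ω κ - 1 - 2 * (s * l s)

/-- certified inequality (B) -/
def CertB : Prop := ∀ s x y : ℝ, s ∈ Icc (0 : ℝ) 1 → x ∈ Icc (0 : ℝ) 1 → y ∈ Icc (0 : ℝ) 1 →
  ∀ w ω κ, w = 5 / 4 * s →
  ω = π / 2 * (x + y) + w * (x - y) → κ = w * (1 - (x + y)) - π / 2 * (x - y) →
  0 ≤ 2 * Bh - 2 + (1 - s) * (Ho s ω κ + Hk s ω κ + 1 + 2 * (s * l s))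

/-- certified inequality (λ), `0 ≤ lam ≤ 1` -/
def CertL : Prop := ∀ s ∈ Icc (0 : ℝ) 1, 0 ≤ lamS s ∧ lamS s ≤ 1

end DT.Cand
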