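import Mathlib

/-!
# Delaunay triangulations in the Euclidean plane and spanners: the definitions of the final statement
-/

open Set

namespace DT

/-- the Euclidean plane -/
abbrev Plane := EuclideanSpace ℝ (Fin 2)

/-- the (Euclidean) length of a walk -/
noncomputable def walkLength {G : SimpleGraph Plane} : ∀ {u v : Plane}, G.Walk u v → ℝ
  | _, _, .nil => 0
  | _, _, @SimpleGraph.Walk.cons _ _ u v _ _ W => dist u v + walkLength W

/-- `G` is a `t`-spanner for `S` -/
def IsSpanner (t : ℝ) (S : Finset Plane) (G : SimpleGraph Plane) : Prop :=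
  ∀ p ∈ S, ∀ q ∈ S, ∃ W : G.Walk p q, walkLength W ≤ t * dist p q

/-- no three points of `S` are collinear and no four lie on a common circle -/
def GeneralPosition (S : Finset Plane) : Prop :=
  (∀ a ∈ S, ∀ b ∈ S, ∀ c ∈ S, a ≠ b → a ≠ c → b ≠ c → ¬ Collinear ℝ ({a, b, c} : Set Plane)) ∧
  (∀ a ∈ S, ∀ b ∈ S, ∀ c ∈ S, ∀ d ∈ S, a ≠ b → a ≠ c → a ≠ d → b ≠ c → b ≠ d → c ≠ d →
    ¬ ∃ (o : Plane) (r : ℝ), dist a o = r ∧ dist b o = r ∧ dist c o = r ∧ dist d o = r)

/-- the straight-line graph on `S` in which `u v` is an edge when some circle passing through `u`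
and `v` has no point of `S` in its interior -/
def emptyCircleGraph (S : Finset Plane) : SimpleGraph Plane where
  Adj u v := u ≠ v ∧ u ∈ S ∧ v ∈ S ∧
    ∃ (o : Plane) (r : ℝ), dist u o = r ∧ dist v o = r ∧ ∀ s ∈ S, r ≤ dist s o
  symm := ⟨by
    rintro u v ⟨h, hu, hv, o, r, h1, h2, h3⟩
    exact ⟨h.symm, hv, hu, o, r, h2, h1, h3⟩⟩
  loopless := ⟨fun _ h => h.1 rfl⟩

/-- `T` is the set of triangles of a Delaunay triangulation of the (non collinear) set `S`: the
triangles are non degenerate triangles with vertices in `S`, they cover the convex hull of `S`,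
their interiors are pairwise disjoint, and no point of `S` lies inside the circumcircle of a
triangle of `T` -/
structure IsDelaunayTriangulation (S : Finset Plane) (T : Finset (Finset Plane)) : Prop where
  triangle : ∀ t ∈ T, t ⊆ S ∧ t.card = 3 ∧ AffineIndependent ℝ ((↑) : t → Plane)
  cover : (⋃ t ∈ T, convexHull ℝ (t : Set Plane)) = convexHull ℝ (S : Set Plane)
  disjoint : ∀ t ∈ T, ∀ t' ∈ T, t ≠ t' →
    Disjoint (interior (convexHull ℝ (t : Set Plane))) (interior (convexHull ℝ (t' : Set Plane)))
  empty : ∀ t ∈ T, ∀ (o : Plane) (r : ℝ), (∀ v ∈ t, dist v o = r) → ∀ s ∈ S, r ≤ dist s o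

/-- the edges of the triangles of `T` -/
def triangleGraph (T : Finset (Finset Plane)) : SimpleGraph Plane where
  Adj u v := u ≠ v ∧ ∃ t ∈ T, u ∈ t ∧ v ∈ t
  symm := ⟨by
    rintro u v ⟨h, t, ht, hu, hv⟩
    exact ⟨h.symm, t, ht, hv, hu⟩⟩
  loopless := ⟨fun _ h => h.1 rfl⟩

/-- the only triangulation of a collinear set: the path through its points in their order -/
def pathGraph (S : Finset Plane) : SimpleGraph Plane where
  Adj u v := u ≠ v ∧ u ∈ S ∧ v ∈ S ∧ ∀ s ∈ S, ¬ Sbtw ℝ u s v
  symm := ⟨by
    rintro u v ⟨h, hu, hv, hs⟩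
    exact ⟨h.symm, hv, hu, fun s hs' h' => hs s hs' h'.symm⟩⟩
  loopless := ⟨fun _ h => h.1 rfl⟩

/-- `G` is a Delaunay triangulation of `S` -/
inductive IsDelaunay (S : Finset Plane) : SimpleGraph Plane → Prop
  /-- general position: the empty circle graph -/
  | general : GeneralPosition S → IsDelaunay S (emptyCircleGraph S)
  /-- any straight-line triangulation of a non collinear set in which no point of `S` lies inside
  the circumcircle of a triangle -/
  | triangulation (T : Finset (Finset Plane)) : IsDelaunayTriangulation S T →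
      IsDelaunay S (triangleGraph T)
  /-- collinear sets -/
  | collinear : Collinear ℝ (S : Set Plane) → IsDelaunay S (pathGraph S)

end DT
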