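import Pool.Agent.Work.MP_74021c_co.Defs

/-!
# G8a: in a complex of triangles every edge with a point of `S` on one side has a triangle there
-/

open Real Set Filter Topology

namespace DT

namespace G8

theorem cr_add (x y z p : ℂ) : cr x y p + cr y z p + cr z x p = cr x y z := by
  unfold cr
  simp only [Complex.sub_re, Complex.sub_im]
  ring

theorem cr_bary (x y z p : ℂ) :
    (cr y z p) • x + (cr z x p) • y + (cr x y p) • z = (cr x y z) • p := by
  apply Complex.ext <;>
    simp only [cr, Complex.add_re, Complex.add_im, Complex.real_smul, Complex.mul_re,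
      Complex.mul_im, Complex.ofReal_re, Complex.ofReal_im, Complex.sub_re, Complex.sub_im] <;>
    ring

/-- cross product of vectors -/
def cs (u v : ℂ) : ℝ := u.re * v.im - u.im * v.re

theorem cr_line (x y p v : ℂ) (e : ℝ) : cr x y (p + e • v) = cr x y p + e * cs (y - x) v := by
  unfold cr cs
  simp only [Complex.add_re, Complex.add_im, Complex.real_smul, Complex.mul_re,
      Complex.mul_im, Complex.ofReal_re, Complex.ofReal_im, Complex.sub_re, Complex.sub_im]
  ring

theorem cr_combo (x y p q : ℂ) {s t : ℝ} (h : s + t = 1) :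
    cr x y (s • p + t • q) = s * cr x y p + t * cr x y q := by
  have h1 : s = 1 - t := by linarith
  subst h1
  unfold cr
  simp only [Complex.add_re, Complex.add_im, Complex.real_smul, Complex.mul_re,
      Complex.mul_im, Complex.ofReal_re, Complex.ofReal_im, Complex.sub_re, Complex.sub_im]
  ring

theorem cr_cont (x y : ℂ) : Continuous fun p => cr x y p := by
  unfold cr
  fun_prop

theorem cr_self1 (x y : ℂ) : cr x y x = 0 := by unfold cr; simp
theorem cr_self2 (x y : ℂ) : cr x y y = 0 := by unfold cr; ring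
theorem cr_rot (x y z : ℂ) : cr y z x = cr x y z := by
  unfold cr
  simp only [Complex.sub_re, Complex.sub_im]
  ring

/-- the closed triangle by barycentric coordinates -/
def H (x y z : ℂ) : Set ℂ :=
  {p | 0 ≤ cr x y p / cr x y z ∧ 0 ≤ cr y z p / cr x y z ∧ 0 ≤ cr z x p / cr x y z}

theorem half_convex (x y : ℂ) (D : ℝ) : Convex ℝ {p : ℂ | 0 ≤ cr x y p / D} := by
  intro p hp q hq s t hs ht hst
  show 0 ≤ cr x y (s • p + t • q) / D
  rw [cr_combo x y p q hst, add_div, mul_div_assoc, mul_div_assoc]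
  exact add_nonneg (mul_nonneg hs hp) (mul_nonneg ht hq)

theorem hull_eq {x y z : ℂ} (hD : cr x y z ≠ 0) : convexHull ℝ ({x, y, z} : Set ℂ) = H x y z := by
  apply Subset.antisymm
  · have hc : Convex ℝ (H x y z) :=
      (half_convex x y _).inter ((half_convex y z _).inter (half_convex z x _))
    refine convexHull_min ?_ hc
    intro p hp
    simp only [mem_insert_iff, mem_singleton_iff] at hp
    rcases hp with rfl | rfl | rfl
    · refine ⟨?_, ?_, ?_⟩
      · rw [cr_self1]; simp
      · rw [cr_rot, div_self hD]; exact zero_le_one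
      · rw [cr_self2]; simp
    · refine ⟨?_, ?_, ?_⟩
      · rw [cr_self2]; simp
      · rw [cr_self1]; simp
      · rw [show cr z x p = cr x p z from (cr_rot z x p).symm, div_self hD]
        exact zero_le_one
    · refine ⟨?_, ?_, ?_⟩
      · rw [div_self hD]; exact zero_le_one
      · rw [cr_self2]; simp
      · rw [cr_self1]; simp
  · rintro p ⟨h1, h2, h3⟩
    have hb := cr_bary x y z p
    have ha := cr_add x y z p
    have hp : p = (cr y z p / cr x y z) • x + (cr z x p / cr x y z) • y +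
        (cr x y p / cr x y z) • z := by
      have : (cr x y z)⁻¹ • ((cr y z p) • x + (cr z x p) • y + (cr x y p) • z) = p := by
        rw [hb, smul_smul, inv_mul_cancel₀ hD, one_smul]
      rw [smul_add, smul_add, smul_smul, smul_smul, smul_smul] at this
      rw [div_eq_inv_mul, div_eq_inv_mul, div_eq_inv_mul]
      exact this.symm
    have hs : (cr y z p / cr x y z) + (cr z x p / cr x y z) + (cr x y p / cr x y z) = 1 := by
      rw [← add_div, ← add_div, div_eq_one_iff_eq hD]
      linarith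
    have hcv := convex_convexHull ℝ ({x, y, z} : Set ℂ)
    have hx : x ∈ convexHull ℝ ({x, y, z} : Set ℂ) := subset_convexHull _ _ (by simp)
    have hy : y ∈ convexHull ℝ ({x, y, z} : Set ℂ) := subset_convexHull _ _ (by simp)
    have hz : z ∈ convexHull ℝ ({x, y, z} : Set ℂ) := subset_convexHull _ _ (by simp)
    have h4 := hcv.sum_mem (t := Finset.univ) (w := ![cr y z p / cr x y z, cr z x p / cr x y z,
      cr x y p / cr x y z]) (z := ![x, y, z]) (fun i _ => by fin_cases i <;> simpa)
      (by rw [Fin.sum_univ_three]; simpa using hs) (fun i _ => by fin_cases i <;> simpa)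
    rw [Fin.sum_univ_three] at h4
    rw [hp]
    simpa using h4

theorem int_of_pos {x y z p : ℂ} (hD : cr x y z ≠ 0) (h1 : 0 < cr x y p / cr x y z)
    (h2 : 0 < cr y z p / cr x y z) (h3 : 0 < cr z x p / cr x y z) :
    p ∈ interior (convexHull ℝ ({x, y, z} : Set ℂ)) := by
  rw [hull_eq hD]
  have hV : IsOpen {p : ℂ | 0 < cr x y p / cr x y z ∧ 0 < cr y z p / cr x y z ∧
      0 < cr z x p / cr x y z} := by
    refine (isOpen_lt continuous_const ((cr_cont x y).div_const _)).inter
      ((isOpen_lt continuous_const ((cr_cont y z).div_const _)).inter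
        (isOpen_lt continuous_const ((cr_cont z x).div_const _)))
  refine mem_interior.2 ⟨_, ?_, hV, ⟨h1, h2, h3⟩⟩
  rintro q ⟨e1, e2, e3⟩
  exact ⟨e1.le, e2.le, e3.le⟩

theorem pos_near {g0 g1 : ℝ} (h : 0 < g0 ∨ (g0 = 0 ∧ 0 < g1)) :
    ∀ᶠ e : ℝ in 𝓝[>] 0, 0 < g0 + e * g1 := by
  rcases h with h | ⟨h0, h⟩
  · have h1 : Tendsto (fun e : ℝ => g0 + e * g1) (𝓝 0) (𝓝 (g0 + 0 * g1)) := by
      apply Continuous.tendsto
      fun_prop
    rw [zero_mul, add_zero] at h1
    exact (h1.eventually (lt_mem_nhds h)).filter_mono nhdsWithin_le_nhds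
  · filter_upwards [self_mem_nhdsWithin] with e he
    rw [h0, zero_add]
    exact mul_pos he h

/-- near `m` in the direction `v` we are in the interior of the triangle -/
theorem near_int {x y z m v : ℂ} (hD : cr x y z ≠ 0)
    (h1 : 0 < cr x y m / cr x y z ∨ (cr x y m / cr x y z = 0 ∧ 0 < cs (y - x) v / cr x y z))
    (h2 : 0 < cr y z m / cr x y z ∨ (cr y z m / cr x y z = 0 ∧ 0 < cs (z - y) v / cr x y z))
    (h3 : 0 < cr z x m / cr x y z ∨ (cr z x m / cr x y z = 0 ∧ 0 < cs (x - z) v / cr x y z)) :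
    ∀ᶠ e : ℝ in 𝓝[>] 0, m + e • v ∈ interior (convexHull ℝ ({x, y, z} : Set ℂ)) := by
  filter_upwards [pos_near h1, pos_near h2, pos_near h3] with e e1 e2 e3
  refine int_of_pos hD ?_ ?_ ?_
  · rw [cr_line, add_div, mul_div_assoc]; exact e1
  · rw [cr_line, add_div, mul_div_assoc]; exact e2
  · rw [cr_line, add_div, mul_div_assoc]; exact e3

theorem ai_three {t : Finset ℂ} (h : AffineIndependent ℝ ((↑) : t → ℂ)) {x y z : ℂ}
    (hxy : x ≠ y) (hxz : x ≠ z) (hyz : y ≠ z) (ht : t = {x, y, z}) :
    AffineIndependent ℝ ![x, y, z] := by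
  subst ht
  have hm : ∀ i : Fin 3, ![x, y, z] i ∈ ({x, y, z} : Finset ℂ) := by
    intro i
    fin_cases i <;> simp
  let f : Fin 3 ↪ ({x, y, z} : Finset ℂ) := ⟨fun i => ⟨![x, y, z] i, hm i⟩, by
    intro i j hij
    have h1 : ![x, y, z] i = ![x, y, z] j := congrArg Subtype.val hij
    fin_cases i <;> fin_cases j <;> simp_all⟩
  exact h.comp_embedding f

theorem nd_of_ai {x y z : ℂ} (hxy : x ≠ y) (h : AffineIndependent ℝ ![x, y, z]) :
    cr x y z ≠ 0 := by
  intro hD
  rw [affineIndependent_iff] at h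
  set p : ℂ := x + Complex.I * (y - x) with hp
  have h1 := cr_add x y z p
  have h2 := cr_bary x y z p
  rw [hD] at h1 h2
  have h3 := h Finset.univ ![cr y z p, cr z x p, cr x y p]
    (by rw [Fin.sum_univ_three]; simp; linarith)
    (by rw [Fin.sum_univ_three]; simpa using h2) 2 (Finset.mem_univ _)
  have h4 : cr x y p = (y - x).re ^ 2 + (y - x).im ^ 2 := by
    rw [hp]
    unfold cr
    simp
    ring
  have h5 : cr x y p = 0 := by simpa using h3
  have h6 : (y - x).re = 0 := by nlinarith [sq_nonneg (y - x).re, sq_nonneg (y - x).im]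
  have h7 : (y - x).im = 0 := by nlinarith [sq_nonneg (y - x).re, sq_nonneg (y - x).im]
  have h8 : y - x = 0 := Complex.ext h6 h7
  exact hxy (sub_eq_zero.1 h8).symm

/-- the circumcircle of a nondegenerate triangle -/
theorem circ {x y z : ℂ} (h : AffineIndependent ℝ ![x, y, z]) :
    ∃ (o : ℂ) (r : ℝ), dist o x = r ∧ dist o y = r ∧ dist o z = r := by
  let σ : Affine.Simplex ℝ ℂ 2 := ⟨![x, y, z], h⟩
  refine ⟨σ.circumcenter, σ.circumradius, ?_, ?_, ?_⟩
  · have := σ.dist_circumcenter_eq_circumradius 0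
    rw [dist_comm] at this
    exact this
  · have := σ.dist_circumcenter_eq_circumradius 1
    rw [dist_comm] at this
    exact this
  · have := σ.dist_circumcenter_eq_circumradius 2
    rw [dist_comm] at this
    exact this

/-- no point of `S` is in an open edge of a triangle with empty circumcircle -/
theorem no_open {S : Finset ℂ} {x y z : ℂ} (h : AffineIndependent ℝ ![x, y, z]) (hxy : x ≠ y)
    (he : ∀ (o : ℂ) (r : ℝ), (∀ v ∈ ({x, y, z} : Finset ℂ), dist o v = r) → ∀ s ∈ S, r ≤ dist o s)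
    {al be : ℝ} (ha : 0 < al) (hb : 0 < be) (hab : al + be = 1) : al • x + be • y ∉ S := by
  intro hS
  obtain ⟨o, r, h1, h2, h3⟩ := circ h
  have h4 := he o r (by
    intro v hv
    simp only [Finset.mem_insert, Finset.mem_singleton] at hv
    rcases hv with rfl | rfl | rfl
    exacts [h1, h2, h3]) _ hS
  have h5 := combo_mem_ball_of_ne (x := x) (y := y) (z := o) (r := r)
    (by rw [Metric.mem_closedBall, dist_comm]; exact h1.le)
    (by rw [Metric.mem_closedBall, dist_comm]; exact h2.le) hxy ha hb hab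
  rw [Metric.mem_ball, dist_comm] at h5
  linarith

theorem cs_smul_left (r : ℝ) (u v : ℂ) : cs (r • u) v = r * cs u v := by
  unfold cs
  simp only [Complex.real_smul, Complex.mul_re,
      Complex.mul_im, Complex.ofReal_re, Complex.ofReal_im]
  ring

/-- two half planes through a point are opposite or have a common direction -/
theorem two_half {U V : ℂ} (hU : U ≠ 0) (hV : V ≠ 0)
    (h : ∀ v : ℂ, ¬ (0 < cs U v ∧ 0 < cs V v)) :
    cs U V = 0 ∧ U.re * V.re + U.im * V.im < 0 := by
  have hU0 : 0 < ‖U‖ := norm_pos_iff.2 hU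
  have hV0 : 0 < ‖V‖ := norm_pos_iff.2 hV
  have hU2 : ‖U‖ ^ 2 = U.re ^ 2 + U.im ^ 2 := by
    rw [← Complex.normSq_eq_norm_sq, Complex.normSq_apply]; ring
  have hV2 : ‖V‖ ^ 2 = V.re ^ 2 + V.im ^ 2 := by
    rw [← Complex.normSq_eq_norm_sq, Complex.normSq_apply]; ring
  set d := U.re * V.re + U.im * V.im with hd
  have hcs : cs U V ^ 2 + d ^ 2 = (‖U‖ * ‖V‖) ^ 2 := by
    rw [mul_pow, hU2, hV2, hd]
    unfold cs
    ring
  have h1 := h (‖V‖ • (Complex.I * U) + ‖U‖ • (Complex.I * V))
  have e1 : cs U (‖V‖ • (Complex.I * U) + ‖U‖ • (Complex.I * V)) =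
      ‖U‖ * (‖U‖ * ‖V‖ + d) := by
    unfold cs
    simp only [Complex.add_re, Complex.add_im, Complex.real_smul, Complex.mul_re, Complex.mul_im,
      Complex.ofReal_re, Complex.ofReal_im, Complex.I_re, Complex.I_im, hd]
    linear_combination (-‖V‖) * hU2
  have e2 : cs V (‖V‖ • (Complex.I * U) + ‖U‖ • (Complex.I * V)) =
      ‖V‖ * (‖U‖ * ‖V‖ + d) := by
    unfold cs
    simp only [Complex.add_re, Complex.add_im, Complex.real_smul, Complex.mul_re, Complex.mul_im,
      Complex.ofReal_re, Complex.ofReal_im, Complex.I_re, Complex.I_im, hd]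
    linear_combination (-‖U‖) * hV2
  rw [e1, e2] at h1
  have h2 : ‖U‖ * ‖V‖ + d ≤ 0 := by
    by_contra hcon
    push Not at hcon
    exact h1 ⟨mul_pos hU0 hcon, mul_pos hV0 hcon⟩
  have h3 : 0 < ‖U‖ * ‖V‖ := mul_pos hU0 hV0
  refine ⟨?_, by linarith⟩
  have h4 : (‖U‖ * ‖V‖) ^ 2 ≤ d ^ 2 := by nlinarith
  have h5 : cs U V ^ 2 ≤ 0 := by linarith
  have h6 : cs U V ^ 2 = 0 := le_antisymm h5 (sq_nonneg _)
  exact pow_eq_zero_iff (two_ne_zero) |>.1 h6

/-- a point on a line -/
theorem on_line {a b x : ℂ} (hab : a ≠ b) (h : cr a b x = 0) : ∃ r : ℝ, x = a + r • (b - a) := by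
  have h0 : (b - a).re ^ 2 + (b - a).im ^ 2 ≠ 0 := by
    intro h1
    have h6 : (b - a).re = 0 := by nlinarith [sq_nonneg (b - a).re, sq_nonneg (b - a).im]
    have h7 : (b - a).im = 0 := by nlinarith [sq_nonneg (b - a).re, sq_nonneg (b - a).im]
    exact hab (sub_eq_zero.1 (Complex.ext h6 h7 : b - a = 0)).symm
  unfold cr at h
  refine ⟨((b - a).re * (x - a).re + (b - a).im * (x - a).im) /
    ((b - a).re ^ 2 + (b - a).im ^ 2), ?_⟩
  rw [← sub_eq_iff_eq_add']
  apply Complex.ext
  · rw [Complex.real_smul, Complex.mul_re, Complex.ofReal_re, Complex.ofReal_im]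
    field_simp
    linear_combination (-(b - a).im) * h
  · rw [Complex.real_smul, Complex.mul_im, Complex.ofReal_re, Complex.ofReal_im]
    field_simp
    linear_combination (b - a).re * h

theorem core (S : Finset ℂ) (T : Finset (Finset ℂ))
    (h1 : ∀ t ∈ T, t ⊆ S ∧ t.card = 3 ∧ AffineIndependent ℝ ((↑) : t → ℂ))
    (h3 : ∀ t ∈ T, ∀ t' ∈ T, t ≠ t' →
      Disjoint (interior (convexHull ℝ (t : Set ℂ))) (interior (convexHull ℝ (t' : Set ℂ))))
    (h4 : ∀ t ∈ T, ∀ (o : ℂ) (r : ℝ), (∀ v ∈ t, dist o v = r) → ∀ s ∈ S, r ≤ dist o s)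
    {a b c x y z : ℂ} (hT : ({a, b, c} : Finset ℂ) ∈ T) (hT' : ({x, y, z} : Finset ℂ) ∈ T)
    (hne : ({a, b, c} : Finset ℂ) ≠ {x, y, z}) (hab : a ≠ b) (hxy : x ≠ y)
    (hai : AffineIndependent ℝ ![a, b, c]) (hai' : AffineIndependent ℝ ![x, y, z])
    {m : ℂ} (hm : m = (1 / 2 : ℝ) • a + (1 / 2 : ℝ) • b) (hm0 : cr x y m = 0)
    (hm1 : 0 ≤ cr y z m / cr x y z) (hm2 : 0 ≤ cr z x m / cr x y z) :
    ({a, b, z} : Finset ℂ) ∈ T ∧ cr a b z * cr a b c < 0 := by
  have hD := nd_of_ai hab hai
  have hD' := nd_of_ai hxy hai'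
  have hmS : m ∉ S := by
    rw [hm]
    exact no_open hai hab (h4 _ hT) (by norm_num) (by norm_num) (by norm_num)
  have hxS : x ∈ S := (h1 _ hT').1 (by simp)
  have hyS : y ∈ S := (h1 _ hT').1 (by simp)
  have haS : a ∈ S := (h1 _ hT).1 (by simp)
  have hbS : b ∈ S := (h1 _ hT).1 (by simp)
  set al := cr y z m / cr x y z with hal
  set be := cr z x m / cr x y z with hbe
  have hsum : al + be = 1 := by
    have := cr_add x y z m
    rw [hm0, zero_add] at this
    rw [hal, hbe, ← add_div, this, div_self hD']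
  have hmxy : m = al • x + be • y := by
    have hb := cr_bary x y z m
    rw [hm0, zero_smul, add_zero] at hb
    have : (cr x y z)⁻¹ • ((cr y z m) • x + (cr z x m) • y) = m := by
      rw [hb, smul_smul, inv_mul_cancel₀ hD', one_smul]
    rw [smul_add, smul_smul, smul_smul] at this
    rw [hal, hbe, div_eq_inv_mul, div_eq_inv_mul]
    exact this.symm
  have hal0 : 0 < al := by
    rcases hm1.lt_or_eq with h | h
    · exact h
    · exfalso
      rw [← h, zero_add] at hsum
      rw [← h, hsum, zero_smul, one_smul, zero_add] at hmxy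
      exact hmS (hmxy ▸ hyS)
  have hbe0 : 0 < be := by
    rcases hm2.lt_or_eq with h | h
    · exact h
    · exfalso
      rw [← h, add_zero] at hsum
      rw [← h, hsum, zero_smul, one_smul, add_zero] at hmxy
      exact hmS (hmxy ▸ hxS)
  -- coordinates of `m` in the first triangle
  have hma : cr a b m = 0 := by
    rw [hm, cr_combo a b a b (by norm_num), cr_self1, cr_self2]; ring
  have hmb : cr b c m / cr a b c = 1 / 2 := by
    rw [hm, cr_combo b c a b (by norm_num), cr_self1, cr_rot]
    field_simp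
    ring
  have hmc : cr c a m / cr a b c = 1 / 2 := by
    rw [hm, cr_combo c a a b (by norm_num), cr_self2,
      show cr c a b = cr a b c from (cr_rot c a b).symm]
    field_simp
    ring
  have hno : ∀ v : ℂ, ¬ (0 < cs ((cr a b c)⁻¹ • (b - a)) v ∧ 0 < cs ((cr x y z)⁻¹ • (y - x)) v) := by
    rintro v ⟨e1, e2⟩
    rw [cs_smul_left, ← div_eq_inv_mul] at e1 e2
    have f1 := near_int (x := a) (y := b) (z := c) (m := m) (v := v) hD
      (Or.inr ⟨by rw [hma, zero_div], e1⟩) (Or.inl (by rw [hmb]; norm_num))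
      (Or.inl (by rw [hmc]; norm_num))
    have f2 := near_int (x := x) (y := y) (z := z) (m := m) (v := v) hD'
      (Or.inr ⟨by rw [hm0, zero_div], e2⟩) (Or.inl hal0) (Or.inl hbe0)
    obtain ⟨e, g1, g2⟩ := (f1.and f2).exists
    have hdis := h3 _ hT _ hT' hne
    simp only [Finset.coe_insert, Finset.coe_singleton] at hdis
    exact Set.disjoint_left.1 hdis g1 g2
  have hU : (cr a b c)⁻¹ • (b - a) ≠ 0 :=
    smul_ne_zero (inv_ne_zero hD) (sub_ne_zero.2 hab.symm)
  have hV : (cr x y z)⁻¹ • (y - x) ≠ 0 :=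
    smul_ne_zero (inv_ne_zero hD') (sub_ne_zero.2 hxy.symm)
  obtain ⟨k1, k2⟩ := two_half hU hV hno
  have k1' : cs (b - a) (y - x) = 0 := by
    have h5 : cs ((cr a b c)⁻¹ • (b - a)) ((cr x y z)⁻¹ • (y - x)) =
        (cr a b c)⁻¹ * (cr x y z)⁻¹ * cs (b - a) (y - x) := by
      unfold cs
      simp only [Complex.real_smul, Complex.mul_re,
        Complex.mul_im, Complex.ofReal_re, Complex.ofReal_im]
      ring
    rw [h5] at k1
    have h6 : (cr a b c)⁻¹ * (cr x y z)⁻¹ ≠ 0 :=
      mul_ne_zero (inv_ne_zero hD) (inv_ne_zero hD')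
    exact (mul_eq_zero.1 k1).resolve_left h6
  have k2' : (cr a b c)⁻¹ * (cr x y z)⁻¹ *
      ((b - a).re * (y - x).re + (b - a).im * (y - x).im) < 0 := by
    have h5 : ((cr a b c)⁻¹ • (b - a)).re * ((cr x y z)⁻¹ • (y - x)).re +
        ((cr a b c)⁻¹ • (b - a)).im * ((cr x y z)⁻¹ • (y - x)).im = (cr a b c)⁻¹ * (cr x y z)⁻¹ *
      ((b - a).re * (y - x).re + (b - a).im * (y - x).im) := by
      simp only [Complex.real_smul, Complex.mul_re,
        Complex.mul_im, Complex.ofReal_re, Complex.ofReal_im]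
      ring
    rwa [h5] at k2
  -- `x`, `y` on the line `a b`
  have hxm : m = x + be • (y - x) := by
    rw [hmxy, smul_sub, show al = 1 - be by linarith, sub_smul, one_smul]
    abel
  have hx0 : cr a b x = 0 := by
    have h5 := hma
    rw [hxm, cr_line, k1'] at h5
    linarith
  have hy0 : cr a b y = 0 := by
    have h5 : cr a b (x + (1:ℝ) • (y - x)) = 0 := by
      rw [cr_line, k1', hx0]; ring
    rwa [one_smul, add_sub_cancel] at h5
  obtain ⟨ξ, hξ⟩ := on_line hab hx0
  obtain ⟨η, hη⟩ := on_line hab hy0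
  have hba : b - a ≠ 0 := sub_ne_zero.2 hab.symm
  have hsum2 : al * ξ + be * η = 1 / 2 := by
    have h5 : (al * ξ + be * η - 1 / 2) • (b - a) = 0 := by
      have h6 : al • x + be • y = (1 / 2 : ℝ) • a + (1 / 2 : ℝ) • b := by rw [← hmxy, hm]
      rw [hξ, hη] at h6
      have h7 : (al * ξ + be * η - 1 / 2) • (b - a) =
          (al • (a + ξ • (b - a)) + be • (a + η • (b - a))) -
          ((1 / 2 : ℝ) • a + (1 / 2 : ℝ) • b) := by
        rw [show al = 1 - be by linarith]
        module
      rw [h7, h6, sub_self]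
    rcases smul_eq_zero.1 h5 with h6 | h6
    · linarith
    · exact absurd h6 hba
  have hopen : ∀ r : ℝ, a + r • (b - a) ∈ S → r ≤ 0 ∨ 1 ≤ r := by
    intro r hr
    by_contra hcon
    push Not at hcon
    refine no_open hai hab (h4 _ hT) (al := 1 - r) (be := r) (by linarith [hcon.2]) hcon.1
      (by ring) ?_
    have : (1 - r) • a + r • b = a + r • (b - a) := by module
    rwa [this]
  have hopen' : ∀ (p : ℂ) (r : ℝ), p ∈ S → p = x + r • (y - x) → r ≤ 0 ∨ 1 ≤ r := by
    intro p r hp hr
    by_contra hcon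
    push Not at hcon
    refine no_open hai' hxy (h4 _ hT') (al := 1 - r) (be := r) (by linarith [hcon.2]) hcon.1
      (by ring) ?_
    have : (1 - r) • x + r • y = x + r • (y - x) := by module
    rwa [this, ← hr]
  have hξ1 := hopen ξ (hξ ▸ hxS)
  have hη1 := hopen η (hη ▸ hyS)
  have hnsq : 0 < (b - a).re ^ 2 + (b - a).im ^ 2 := by
    have h5 : 0 < ‖b - a‖ ^ 2 := by
      have := norm_pos_iff.2 hba
      positivity
    rw [← Complex.normSq_eq_norm_sq, Complex.normSq_apply] at h5
    nlinarith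
  have hyx : y - x = (η - ξ) • (b - a) := by
    rw [hξ, hη]; module
  rcases hξ1 with hξ1 | hξ1
  · rcases hη1 with hη1 | hη1
    · exfalso
      nlinarith
    · -- `ξ ≤ 0`, `η ≥ 1`
      have hd : 0 < η - ξ := by linarith
      have ha1 : ξ = 0 := by
        have h5 := hopen' a (-ξ / (η - ξ)) haS (by
          rw [hyx, smul_smul, div_mul_cancel₀ _ hd.ne', hξ]; module)
        rcases h5 with h5 | h5
        · rw [div_le_iff₀ hd] at h5
          linarith
        · rw [le_div_iff₀ hd] at h5
          linarith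
      have hb1 : η = 1 := by
        have h5 := hopen' b ((1 - ξ) / (η - ξ)) hbS (by
          rw [hyx, smul_smul, div_mul_cancel₀ _ hd.ne', hξ]; module)
        rcases h5 with h5 | h5
        · rw [div_le_iff₀ hd] at h5
          linarith
        · rw [le_div_iff₀ hd] at h5
          linarith
      have hxa : x = a := by rw [hξ, ha1]; simp
      have hyb : y = b := by rw [hη, hb1]; simp
      subst hxa hyb
      refine ⟨hT', ?_⟩
      have h6 : (cr x y c)⁻¹ * (cr x y z)⁻¹ < 0 := by
        by_contra hcon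
        push Not at hcon
        have h7 : 0 ≤ (cr x y c)⁻¹ * (cr x y z)⁻¹ * ((y - x).re * (y - x).re +
          (y - x).im * (y - x).im) := mul_nonneg hcon (by nlinarith)
        linarith
      have h7 : cr x y z * cr x y c = ((cr x y c)⁻¹ * (cr x y z)⁻¹) *
          (cr x y c ^ 2 * cr x y z ^ 2) := by
        field_simp
      rw [h7]
      have h8 : 0 < cr x y c ^ 2 * cr x y z ^ 2 := by positivity
      exact mul_neg_of_neg_of_pos h6 h8
  · rcases hη1 with hη1 | hη1
    · -- `ξ ≥ 1`, `η ≤ 0`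
      have hd : 0 < ξ - η := by linarith
      have ha1 : η = 0 := by
        have h5 := hopen' a (ξ / (ξ - η)) haS (by
          rw [hyx, smul_smul, show ξ / (ξ - η) * (η - ξ) = -ξ by field_simp; ring, hξ]; module)
        rcases h5 with h5 | h5
        · rw [div_le_iff₀ hd] at h5
          linarith
        · rw [le_div_iff₀ hd] at h5
          linarith
      have hb1 : ξ = 1 := by
        have h5 := hopen' b ((ξ - 1) / (ξ - η)) hbS (by
          rw [hyx, smul_smul, show (ξ - 1) / (ξ - η) * (η - ξ) = 1 - ξ by field_simp; ring, hξ]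
          module)
        rcases h5 with h5 | h5
        · rw [div_le_iff₀ hd] at h5
          linarith
        · rw [le_div_iff₀ hd] at h5
          linarith
      have hxb : x = b := by rw [hξ, hb1]; simp
      have hya : y = a := by rw [hη, ha1]; simp
      subst hxb hya
      have hz : cr x y z = -cr y x z := by
        unfold cr
        simp only [Complex.sub_re, Complex.sub_im]
        ring
      refine ⟨?_, ?_⟩
      · have : ({y, x, z} : Finset ℂ) = {x, y, z} := Finset.insert_comm _ _ _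
        rwa [this]
      have h6 : 0 < (cr y x c)⁻¹ * (cr x y z)⁻¹ := by
        by_contra hcon
        push Not at hcon
        have h8 : (x - y).re * (y - x).re + (x - y).im * (y - x).im =
            -((x - y).re ^ 2 + (x - y).im ^ 2) := by
          simp only [Complex.sub_re, Complex.sub_im]
          ring
        rw [h8] at k2'
        nlinarith
      have h7 : cr x y z * cr y x c = ((cr y x c)⁻¹ * (cr x y z)⁻¹) *
          (cr y x c ^ 2 * cr x y z ^ 2) := by
        field_simp
      have h8 : 0 < cr y x c ^ 2 * cr x y z ^ 2 := by positivity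
      have h9 : 0 < cr x y z * cr y x c := by
        rw [h7]
        exact mul_pos h6 h8
      rw [hz] at h9
      linarith
    · exfalso
      nlinarith

end G8

open G8 in
theorem flip_of_complex (S : Finset ℂ) (T : Finset (Finset ℂ))
    (h1 : ∀ t ∈ T, t ⊆ S ∧ t.card = 3 ∧ AffineIndependent ℝ ((↑) : t → ℂ))
    (h2 : (⋃ t ∈ T, convexHull ℝ (t : Set ℂ)) = convexHull ℝ (S : Set ℂ))
    (h3 : ∀ t ∈ T, ∀ t' ∈ T, t ≠ t' →
      Disjoint (interior (convexHull ℝ (t : Set ℂ))) (interior (convexHull ℝ (t' : Set ℂ))))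
    (h4 : ∀ t ∈ T, ∀ (o : ℂ) (r : ℝ), (∀ v ∈ t, dist o v = r) → ∀ s ∈ S, r ≤ dist o s)
    {a b c s : ℂ} (hT : ({a, b, c} : Finset ℂ) ∈ T) (hs : s ∈ S) (h : cr a b s * cr a b c < 0) :
    ∃ c', ({a, b, c'} : Finset ℂ) ∈ T ∧ cr a b c' * cr a b c < 0 := by
  have hDc : cr a b c ≠ 0 := by
    intro h0
    rw [h0, mul_zero] at h
    exact lt_irrefl _ h
  have hab : a ≠ b := by
    rintro rfl
    apply hDc
    unfold cr
    simp
  have hac : a ≠ c := by
    rintro rfl
    exact hDc (cr_self1 _ _)
  have hbc : b ≠ c := by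
    rintro rfl
    exact hDc (cr_self2 _ _)
  have hai := ai_three (h1 _ hT).2.2 hab hac hbc rfl
  have haS : a ∈ S := (h1 _ hT).1 (by simp)
  have hbS : b ∈ S := (h1 _ hT).1 (by simp)
  set m : ℂ := (1 / 2 : ℝ) • a + (1 / 2 : ℝ) • b with hm
  have hma : cr a b m = 0 := by
    rw [hm, cr_combo a b a b (by norm_num), cr_self1, cr_self2]; ring
  have hmb : cr b c m / cr a b c = 1 / 2 := by
    rw [hm, cr_combo b c a b (by norm_num), cr_self1, cr_rot]
    field_simp
    ring
  have hmc : cr c a m / cr a b c = 1 / 2 := by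
    rw [hm, cr_combo c a a b (by norm_num), cr_self2,
      show cr c a b = cr a b c from (cr_rot c a b).symm]
    field_simp
    ring
  have hS : ∀ z ∈ S, z ∈ convexHull ℝ (S : Set ℂ) := fun z hz => subset_convexHull _ _ hz
  have hmH : m ∈ convexHull ℝ (S : Set ℂ) :=
    (convex_convexHull ℝ _) (hS a haS) (hS b hbS) (by norm_num) (by norm_num) (by norm_num)
  -- a triangle that contains the points `m + e (s - m)` for a sequence of `e → 0`
  have hex : ∃ t ∈ T, ∃ᶠ e : ℝ in 𝓝[>] 0, m + e • (s - m) ∈ convexHull ℝ (t : Set ℂ) := by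
    by_contra hcon
    push Not at hcon
    have h5 : ∀ t ∈ T, ∀ᶠ e : ℝ in 𝓝[>] 0, m + e • (s - m) ∉ convexHull ℝ (t : Set ℂ) :=
      fun t ht => hcon t ht
    have h6 : ∀ᶠ e : ℝ in 𝓝[>] 0, ∀ t ∈ T, m + e • (s - m) ∉ convexHull ℝ (t : Set ℂ) :=
      (Filter.eventually_all_finset T).2 h5
    have h7 : ∀ᶠ e : ℝ in 𝓝[>] 0, e ∈ Ioo (0:ℝ) 1 := Ioo_mem_nhdsGT one_pos
    obtain ⟨e, g1, g2⟩ := (h6.and h7).exists
    have h8 : m + e • (s - m) ∈ convexHull ℝ (S : Set ℂ) := by
      have h9 := (convex_convexHull ℝ (S : Set ℂ)) hmH (hS s hs)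
        (show 0 ≤ 1 - e by linarith [g2.2]) g2.1.le (by ring)
      have : (1 - e) • m + e • s = m + e • (s - m) := by module
      rwa [this] at h9
    rw [← h2] at h8
    simp only [mem_iUnion] at h8
    obtain ⟨t, ht, h9⟩ := h8
    exact g1 t ht h9
  obtain ⟨t, ht, hfr⟩ := hex
  obtain ⟨ht1, ht2, ht3⟩ := h1 t ht
  have hmt : m ∈ convexHull ℝ (t : Set ℂ) := by
    have hcl : IsClosed (convexHull ℝ (t : Set ℂ)) := (t.finite_toSet.isCompact_convexHull ℝ).isClosed
    have htend : Tendsto (fun e : ℝ => m + e • (s - m)) (𝓝[>] 0) (𝓝 m) := by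
      have h5 : Tendsto (fun e : ℝ => m + e • (s - m)) (𝓝 0) (𝓝 (m + (0:ℝ) • (s - m))) := by
        apply Continuous.tendsto
        fun_prop
      rw [zero_smul, add_zero] at h5
      exact h5.mono_left nhdsWithin_le_nhds
    exact hcl.mem_of_frequently_of_tendsto hfr htend
  have hne : ({a, b, c} : Finset ℂ) ≠ t := by
    rintro rfl
    have h7 : ∀ᶠ e : ℝ in 𝓝[>] 0, e ∈ Ioo (0:ℝ) 1 := Ioo_mem_nhdsGT one_pos
    obtain ⟨e, g1, g2⟩ := (hfr.and_eventually h7).exists
    simp only [Finset.coe_insert, Finset.coe_singleton] at g1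
    rw [hull_eq hDc] at g1
    have h8 := g1.1
    have h9 : cr a b (m + e • (s - m)) = e * cr a b s := by
      have : m + e • (s - m) = (1 - e) • m + e • s := by module
      rw [this, cr_combo a b m s (by ring), hma]; ring
    rw [h9, div_nonneg_iff] at h8
    have he := g2.1
    rcases h8 with ⟨u1, u2⟩ | ⟨u1, u2⟩
    · have h10 : 0 ≤ (e * cr a b s) * cr a b c := mul_nonneg u1 u2
      nlinarith
    · have h10 : 0 ≤ (e * cr a b s) * cr a b c := mul_nonneg_of_nonpos_of_nonpos u1 u2
      nlinarith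
  obtain ⟨x, y, z, hxy, hxz, hyz, htx⟩ := Finset.card_eq_three.1 ht2
  subst htx
  have hai1 := ai_three ht3 hxy hxz hyz rfl
  have hai2 := ai_three ht3 hyz hxy.symm hxz.symm (by
    ext w; simp only [Finset.mem_insert, Finset.mem_singleton]; tauto)
  have hai3 := ai_three ht3 hxz.symm hyz.symm hxy (by
    ext w; simp only [Finset.mem_insert, Finset.mem_singleton]; tauto)
  have hD' := nd_of_ai hxy hai1
  have e2 : ({y, z, x} : Finset ℂ) = {x, y, z} := by
    ext w; simp only [Finset.mem_insert, Finset.mem_singleton]; tauto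
  have e3 : ({z, x, y} : Finset ℂ) = {x, y, z} := by
    ext w; simp only [Finset.mem_insert, Finset.mem_singleton]; tauto
  have r2 : cr y z x = cr x y z := cr_rot x y z
  have r3 : cr z x y = cr x y z := (cr_rot z x y).symm
  have hmt' := hmt
  simp only [Finset.coe_insert, Finset.coe_singleton] at hmt'
  rw [hull_eq hD'] at hmt'
  obtain ⟨m1, m2, m3⟩ := hmt'
  rcases m1.lt_or_eq with n1 | n1
  · rcases m2.lt_or_eq with n2 | n2
    · rcases m3.lt_or_eq with n3 | n3
      · exfalso
        have hv : 0 < cs (b - a) (c - m) / cr a b c := by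
          have h5 : cs (b - a) (c - m) = cr a b c := by
            have h6 := cr_line a b m (c - m) 1
            rw [one_smul, add_sub_cancel, hma] at h6
            linarith
          rw [h5, div_self hDc]
          exact one_pos
        have f1 := near_int (x := a) (y := b) (z := c) (m := m) (v := c - m) hDc
          (Or.inr ⟨by rw [hma, zero_div], hv⟩) (Or.inl (by rw [hmb]; norm_num))
          (Or.inl (by rw [hmc]; norm_num))
        have f2 := near_int (x := x) (y := y) (z := z) (m := m) (v := c - m) hD'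
          (Or.inl n1) (Or.inl n2) (Or.inl n3)
        obtain ⟨e, g1, g2⟩ := (f1.and f2).exists
        have hdis := h3 _ hT _ ht hne
        simp only [Finset.coe_insert, Finset.coe_singleton] at hdis
        exact Set.disjoint_left.1 hdis g1 g2
      · -- `cr z x m = 0`
        have h0 : cr z x m = 0 := by
          rcases div_eq_zero_iff.1 n3.symm with h5 | h5
          · exact h5
          · exact absurd h5 hD'
        exact ⟨y, core S T h1 h3 h4 hT (by rwa [e3]) (by rwa [e3]) hab hxz.symm hai hai3 hm h0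
          (by rw [r3]; exact m1) (by rw [r3]; exact m2)⟩
    · have h0 : cr y z m = 0 := by
        rcases div_eq_zero_iff.1 n2.symm with h5 | h5
        · exact h5
        · exact absurd h5 hD'
      exact ⟨x, core S T h1 h3 h4 hT (by rwa [e2]) (by rwa [e2]) hab hyz hai hai2 hm h0
          (by rw [r2]; exact m3) (by rw [r2]; exact m1)⟩
  · have h0 : cr x y m = 0 := by
      rcases div_eq_zero_iff.1 n1.symm with h5 | h5
      · exact h5
      · exact absurd h5 hD'
    exact ⟨z, core S T h1 h3 h4 hT ht hne hab hxy hai hai1 hm h0 m2 m3⟩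

end DT
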