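import Pool.Agent.Work.MP_74021c_co.TMDefs

/-!
# Taylor models: what they mean
-/

namespace DT.TM

/-- exponents of degree `≤ 3` -/
def E : Finset (ℕ × ℕ × ℕ) :=
  (Finset.range 4 ×ˢ Finset.range 4 ×ˢ Finset.range 4).filter (fun m => m.1 + m.2.1 + m.2.2 ≤ 3)

/-- position of the coefficient in the packed number -/
def ps (m : ℕ × ℕ × ℕ) : ℕ := 13 * m.1 + 14 * m.2.1 + 17 * m.2.2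

/-- degree -/
def dg (m : ℕ × ℕ × ℕ) : ℕ := m.1 + m.2.1 + m.2.2

/-- monomial -/
def mon (u : ℝ × ℝ × ℝ) (m : ℕ × ℕ × ℕ) : ℝ := u.1 ^ m.1 * u.2.1 ^ m.2.1 * u.2.2 ^ m.2.2

def Cube : Set (ℝ × ℝ × ℝ) := {u | |u.1| ≤ 1 ∧ |u.2.1| ≤ 1 ∧ |u.2.2| ≤ 1}

/-- the polynomial with coefficients `z` -/
def ev (z : ℕ × ℕ × ℕ → ℤ) (u : ℝ × ℝ × ℝ) : ℝ := ∑ m ∈ E, (z m : ℝ) * mon u m

/-- the packed number of the coefficients `z` (offset `2^57`) -/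
def pk (z : ℕ × ℕ × ℕ → ℤ) : ℤ := ∑ m ∈ E, (z m + 2 ^ 57) * 2 ^ (96 * ps m)

/-- `t` is a Taylor model of `f` -/
def Enc (t : T) (f : ℝ × ℝ × ℝ → ℝ) : Prop :=
  ∃ z : ℕ × ℕ × ℕ → ℤ, (∀ m ∈ E, -2 ^ 57 ≤ z m ∧ z m < 2 ^ 57) ∧ (t.N : ℤ) = pk z ∧
    (∑ m ∈ E.filter (fun m => dg m = 1), |z m|) ≤ (t.n1 : ℤ) ∧
    (∑ m ∈ E.filter (fun m => dg m = 2), |z m|) ≤ (t.n2 : ℤ) ∧
    (∑ m ∈ E.filter (fun m => dg m = 3), |z m|) ≤ (t.n3 : ℤ) ∧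
    (∑ m ∈ E, |z m|) ≤ (t.nt : ℤ) ∧
    ∀ u ∈ Cube, |f u * 2 ^ 38 - ev z u| ≤ (t.e : ℝ)

/-- the coefficients as a function -/
def K9.c (c : K9) : Fin 10 → ℕ := ![c.c0, c.c1, c.c2, c.c3, c.c4, c.c5, c.c6, c.c7, c.c8, c.c9]
def K5.c (c : K5) : Fin 6 → ℕ := ![c.c0, c.c1, c.c2, c.c3, c.c4, c.c5]

noncomputable def K9.val (c : K9) (i : Fin 10) : ℝ := ((c.c i : ℝ) - 2 ^ 60) / 2 ^ 38
noncomputable def K5.val (c : K5) (i : Fin 6) : ℝ := ((c.c i : ℝ) - 2 ^ 60) / 2 ^ 38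

def K9.ok (c : K9) : Prop :=
  c.Sc = c.c1 + c.c2 + c.c3 + c.c4 + c.c5 + c.c6 + c.c7 + c.c8 + c.c9 ∧
  ∀ i : Fin 10, |(c.c i : ℤ) - 2 ^ 60| ≤ (c.A : ℤ)
def K5.ok (c : K5) : Prop :=
  c.Sc = c.c1 + c.c2 + c.c3 + c.c4 + c.c5 ∧ ∀ i : Fin 6, |(c.c i : ℤ) - 2 ^ 60| ≤ (c.A : ℤ)

/-- the real coordinates of a point of a cell: `s` and `x`, `y` -/
noncomputable def cs (a0 ah : ℕ) (u : ℝ) : ℝ := 4 * ((a0 : ℝ) + ah * u) / 2 ^ 38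
noncomputable def cx (x0 hx : ℕ) (u : ℝ) : ℝ := ((x0 : ℝ) + hx * u) / 2 ^ 38

/-- `F` holds on the cell -/
def CellOK (F : ℝ → ℝ → ℝ → Prop) (a0 ah x0 hx y0 hy : ℕ) : Prop :=
  ∀ u ∈ Cube, F (cs a0 ah u.1) (cx x0 hx u.2.1) (cx y0 hy u.2.2)

/-- a cell inside the unit cube -/
def Cell (a0 ah x0 hx y0 hy : ℕ) : Prop :=
  ah ≤ a0 ∧ a0 + ah ≤ 2 ^ 36 ∧ hx ≤ x0 ∧ x0 + hx ≤ 2 ^ 38 ∧ hy ≤ y0 ∧ y0 + hy ≤ 2 ^ 38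

end DT.TM
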