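import Pool.Agent.Work.MP_74021c_co.Defs

/-!
# Start and end of the walk: the value of the potential
-/

open Real Set

namespace DT

private theorem chord_aux {r α β : ℝ} (hr : 0 < r) {a a' : ℂ}
    (hre : a.re - a'.re = r * (cos α - cos β))
    (him : (a.im - a'.im) ^ 2 = (r * (sin α - sin β)) ^ 2) :
    dist a a' ≤ 2 * r * (|β - α| / 2) := by
  rw [Complex.dist_eq_re_im]
  apply Real.sqrt_le_iff.2
  refine ⟨by positivity, ?_⟩
  rw [hre, him]
  have h1 : |sin ((β - α) / 2)| ≤ |β - α| / 2 := by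
    have := abs_sin_le_abs (x := (β - α) / 2)
    rw [abs_div, abs_of_pos (show (0:ℝ) < 2 by norm_num)] at this
    exact this
  have h2 : sin ((β - α) / 2) ^ 2 ≤ (|β - α| / 2) ^ 2 := by
    rw [← sq_abs]
    exact pow_le_pow_left₀ (abs_nonneg _) h1 2
  have h3 : (r * (cos α - cos β)) ^ 2 + (r * (sin α - sin β)) ^ 2
      = 4 * r ^ 2 * sin ((β - α) / 2) ^ 2 := by
    have e1 : cos (β - α) = 1 - 2 * sin ((β - α) / 2) ^ 2 := by
      have := cos_two_mul ((β - α) / 2)
      have hs := sin_sq_add_cos_sq ((β - α) / 2)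
      rw [show 2 * ((β - α) / 2) = β - α by ring] at this
      rw [this]; linarith
    have e2 := cos_sub β α
    have s1 := sin_sq_add_cos_sq α
    have s2 := sin_sq_add_cos_sq β
    have e3 : (r * (cos α - cos β)) ^ 2 + (r * (sin α - sin β)) ^ 2
        = r ^ 2 * ((sin α ^ 2 + cos α ^ 2) + (sin β ^ 2 + cos β ^ 2)
          - 2 * (cos β * cos α + sin β * sin α)) := by ring
    rw [e3, s1, s2, ← e2, e1]; ring
  rw [h3]
  have h4 : 4 * r ^ 2 * sin ((β - α) / 2) ^ 2 ≤ 4 * r ^ 2 * (|β - α| / 2) ^ 2 :=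
    mul_le_mul_of_nonneg_left h2 (by positivity)
  calc 4 * r ^ 2 * sin ((β - α) / 2) ^ 2 ≤ 4 * r ^ 2 * (|β - α| / 2) ^ 2 := h4
    _ = (2 * r * (|β - α| / 2)) ^ 2 := by ring

private theorem chord_u {cx r w p p' : ℝ} (hr : 0 < r) (hle : p ≤ p') {a a' : ℂ}
    (h1 : a.re = cx + r * cos (2 * p - w)) (h2 : a.im = r * sin w + r * sin (2 * p - w))
    (h3 : a'.re = cx + r * cos (2 * p' - w)) (h4 : a'.im = r * sin w + r * sin (2 * p' - w)) :
    dist a a' ≤ 2 * r * (p' - p) := by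
  have := chord_aux (α := 2 * p - w) (β := 2 * p' - w) hr (a := a) (a' := a')
    (by rw [h1, h3]; ring) (by rw [h2, h4]; ring)
  have e : |2 * p' - w - (2 * p - w)| / 2 = p' - p := by
    rw [show 2 * p' - w - (2 * p - w) = 2 * (p' - p) by ring, abs_of_nonneg (by linarith)]
    ring
  rw [e] at this
  exact this

private theorem chord_l {cx r w q q' : ℝ} (hr : 0 < r) (hle : q ≤ q') {b b' : ℂ}
    (h1 : b.re = cx + r * cos (2 * q + w)) (h2 : b.im = r * sin w - r * sin (2 * q + w))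
    (h3 : b'.re = cx + r * cos (2 * q' + w)) (h4 : b'.im = r * sin w - r * sin (2 * q' + w)) :
    dist b b' ≤ 2 * r * (q' - q) := by
  have := chord_aux (α := 2 * q + w) (β := 2 * q' + w) hr (a := b) (a' := b')
    (by rw [h1, h3]; ring) (by rw [h2, h4]; ring)
  have e : |2 * q' + w - (2 * q + w)| / 2 = q' - q := by
    rw [show 2 * q' + w - (2 * q + w) = 2 * (q' - q) by ring, abs_of_nonneg (by linarith)]
    ring
  rw [e] at this
  exact this

theorem V_start {t : ℝ} (P : Pot t) {cx r w p q : ℝ} {a b z : ℂ} (h : OnC cx r w p q a b)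
    (hz : z.im = 0) (hzr : z.re = cx - r * cos w) :
    P.V cx r w p q (dist z a) (dist z b) ≤ - t * z.re := by
  obtain ⟨hr, hw, hp0, hp1, hq0, hq1, are, aim, bre, bim⟩ := h
  have c1 : cos (2 * (π / 2 + w) - w) = - cos w := by
    rw [show 2 * (π / 2 + w) - w = w + π by ring, cos_add_pi]
  have s1 : sin (2 * (π / 2 + w) - w) = - sin w := by
    rw [show 2 * (π / 2 + w) - w = w + π by ring, sin_add_pi]
  have c2 : cos (2 * (π / 2 - w) + w) = - cos w := by
    rw [show 2 * (π / 2 - w) + w = π - w by ring, cos_pi_sub]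
  have s2 : sin (2 * (π / 2 - w) + w) = sin w := by
    rw [show 2 * (π / 2 - w) + w = π - w by ring, sin_pi_sub]
  have da : dist z a ≤ 2 * r * (π / 2 + w - p) := by
    rw [dist_comm]
    exact chord_u hr hp1 are aim (by rw [c1, hzr]; ring) (by rw [s1, hz]; ring)
  have db : dist z b ≤ 2 * r * (π / 2 - w - q) := by
    rw [dist_comm]
    exact chord_l hr hq1 bre bim (by rw [c2, hzr]; ring) (by rw [s2, hz]; ring)
  have l0 := P.lam0 w hw
  have l1 := P.lam1 w hw
  have hpw : 0 ≤ π / 2 + w := hp0.trans hp1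
  have hA := P.A w p (π / 2 + w) q hw hp0 hp1 le_rfl hq0 hq1
  have hB := P.B w (π / 2 + w) q (π / 2 - w) hw hpw le_rfl hq0 hq1 le_rfl
  have hS := P.start w hw
  have m1 : P.lam w * dist z a ≤ P.lam w * (2 * r * (π / 2 + w - p)) :=
    mul_le_mul_of_nonneg_left da l0
  have m2 : (1 - P.lam w) * dist z b ≤ (1 - P.lam w) * (2 * r * (π / 2 - w - q)) :=
    mul_le_mul_of_nonneg_left db (by linarith)
  have m3 := mul_le_mul_of_nonneg_left hA hr.le
  have m4 := mul_le_mul_of_nonneg_left hB hr.le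
  have m5 := mul_le_mul_of_nonneg_left hS hr.le
  unfold Pot.V
  rw [hzr]
  nlinarith [m1, m2, m3, m4, m5]

theorem V_end {t : ℝ} (P : Pot t) {cx r w p q : ℝ} {a b z : ℂ} (h : OnC cx r w p q a b)
    (hz : z.im = 0) (hzr : z.re = cx + r * cos w) {Da Db D : ℝ} (h1 : D ≤ Da + dist a z)
    (h2 : D ≤ Db + dist b z) : D - t * z.re ≤ P.V cx r w p q Da Db := by
  obtain ⟨hr, hw, hp0, hp1, hq0, hq1, are, aim, bre, bim⟩ := h
  have c1 : cos (2 * 0 - w) = cos w := by
    rw [show 2 * 0 - w = - w by ring, cos_neg]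
  have s1 : sin (2 * 0 - w) = - sin w := by
    rw [show 2 * 0 - w = - w by ring, sin_neg]
  have c2 : cos (2 * 0 + w) = cos w := by
    rw [show 2 * 0 + w = w by ring]
  have s2 : sin (2 * 0 + w) = sin w := by
    rw [show 2 * 0 + w = w by ring]
  have da : dist a z ≤ 2 * r * (p - 0) := by
    rw [dist_comm]
    exact chord_u hr hp0 (by rw [c1, hzr]) (by rw [s1, hz]; ring) are aim
  have db : dist b z ≤ 2 * r * (q - 0) := by
    rw [dist_comm]
    exact chord_l hr hq0 (by rw [c2, hzr]) (by rw [s2, hz]; ring) bre bim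
  have l0 := P.lam0 w hw
  have l1 := P.lam1 w hw
  have hpw : 0 ≤ π / 2 + w := hp0.trans hp1
  have hA := P.A w 0 p q hw le_rfl hp0 hp1 hq0 hq1
  have hB := P.B w 0 0 q hw le_rfl hpw le_rfl hq0 hq1
  have hF := P.fin w hw
  have m1 : P.lam w * D ≤ P.lam w * (Da + 2 * r * (p - 0)) :=
    mul_le_mul_of_nonneg_left (h1.trans (by linarith)) l0
  have m2 : (1 - P.lam w) * D ≤ (1 - P.lam w) * (Db + 2 * r * (q - 0)) :=
    mul_le_mul_of_nonneg_left (h2.trans (by linarith)) (by linarith)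
  have m3 := mul_le_mul_of_nonneg_left hA hr.le
  have m4 := mul_le_mul_of_nonneg_left hB hr.le
  have m5 := mul_nonneg hr.le hF
  unfold Pot.V
  rw [hzr]
  nlinarith [m1, m2, m3, m4, m5]

end DT
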