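import Pool.Agent.Work.MP_74021c_co.Defs
import Pool.Agent.Work.MP_74021c_co.Bd.B01
import Pool.Agent.Work.MP_74021c_co.G3b

/-!
# The walk through the triangles crossed by the segment on the real axis
-/

open Real Set

namespace DT

namespace WalkAxis

theorem sq_of_dist {o a : ℂ} {r : ℝ} (h : dist o a = r) :
    (a.re - o.re) ^ 2 + (a.im - o.im) ^ 2 = r ^ 2 := by
  rw [← h, Complex.dist_eq_re_im, Real.sq_sqrt (by positivity)]
  ring

theorem sq_of_le_dist {o a : ℂ} {r : ℝ} (hr : 0 ≤ r) (h : r ≤ dist o a) :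
    r ^ 2 ≤ (a.re - o.re) ^ 2 + (a.im - o.im) ^ 2 := by
  have h1 := sq_of_dist (rfl : dist o a = dist o a)
  rw [h1]
  gcongr

/-- the circumcircle -/
theorem circum {a b c : ℂ} (h : cr a b c ≠ 0) :
    ∃ (o : ℂ) (r : ℝ), dist o a = r ∧ dist o b = r ∧ dist o c = r := by
  unfold cr at h
  simp only [Complex.sub_re, Complex.sub_im] at h
  set x1 := b.re - a.re with hx1
  set y1 := b.im - a.im with hy1
  set x2 := c.re - a.re with hx2
  set y2 := c.im - a.im with hy2
  set D := x1 * y2 - y1 * x2 with hD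
  set ux := (y2 * (x1 ^ 2 + y1 ^ 2) - y1 * (x2 ^ 2 + y2 ^ 2)) / (2 * D) with hux
  set uy := (x1 * (x2 ^ 2 + y2 ^ 2) - x2 * (x1 ^ 2 + y1 ^ 2)) / (2 * D) with huy
  have e1 : 2 * (x1 * ux + y1 * uy) = x1 ^ 2 + y1 ^ 2 := by
    rw [hux, huy]
    field_simp
    rw [hD]
    ring
  have e2 : 2 * (x2 * ux + y2 * uy) = x2 ^ 2 + y2 ^ 2 := by
    rw [hux, huy]
    field_simp
    rw [hD]
    ring
  refine ⟨⟨a.re + ux, a.im + uy⟩, dist (⟨a.re + ux, a.im + uy⟩ : ℂ) a, rfl, ?_, ?_⟩
  · rw [Complex.dist_eq_re_im, Complex.dist_eq_re_im]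
    congr 1
    simp only
    have : b.re = a.re + x1 := by rw [hx1]; ring
    have h3 : b.im = a.im + y1 := by rw [hy1]; ring
    rw [this, h3]
    linear_combination -e1
  · rw [Complex.dist_eq_re_im, Complex.dist_eq_re_im]
    congr 1
    simp only
    have : c.re = a.re + x2 := by rw [hx2]; ring
    have h3 : c.im = a.im + y2 := by rw [hy2]; ring
    rw [this, h3]
    linear_combination -e2

/-- the crossing point of the segment `a b` with the axis -/
noncomputable def X (a b : ℂ) : ℝ := (b.re * a.im - a.re * b.im) / (a.im - b.im)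

theorem cr_axis {a b z : ℂ} (ha : 0 < a.im) (hb : b.im < 0) (hz : z.im = 0) :
    cr b a z = (a.im - b.im) * (X a b - z.re) := by
  have h : a.im - b.im ≠ 0 := by linarith
  unfold cr X
  simp only [Complex.sub_re, Complex.sub_im, hz]
  field_simp
  ring

theorem cr_axis_neg {a b z : ℂ} (ha : 0 < a.im) (hb : b.im < 0) (hz : z.im = 0) :
    cr b a z < 0 ↔ X a b < z.re := by
  rw [cr_axis ha hb hz]
  have h : 0 < a.im - b.im := by linarith
  constructor
  · intro h1
    by_contra h2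
    have : 0 ≤ (a.im - b.im) * (X a b - z.re) := mul_nonneg h.le (by linarith)
    linarith
  · intro h1
    have : 0 < (a.im - b.im) * (z.re - X a b) := mul_pos h (by linarith)
    nlinarith

theorem cr_axis_pos {a b z : ℂ} (ha : 0 < a.im) (hb : b.im < 0) (hz : z.im = 0) :
    0 < cr b a z ↔ z.re < X a b := by
  rw [cr_axis ha hb hz]
  have h : 0 < a.im - b.im := by linarith
  constructor
  · intro h1
    by_contra h2
    have : 0 ≤ (a.im - b.im) * (z.re - X a b) := mul_nonneg h.le (by linarith)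
    nlinarith
  · intro h1
    exact mul_pos h (by linarith)

/-- the crossing point moves to the right (new point above) -/
theorem X_lt_up {a b c : ℂ} (ha : 0 < a.im) (hb : b.im < 0) (hc : 0 < c.im)
    (h : cr b a c < 0) : X a b < X c b := by
  have h1 : 0 < a.im - b.im := by linarith
  have h2 : 0 < c.im - b.im := by linarith
  unfold X
  rw [div_lt_div_iff₀ h1 h2]
  unfold cr at h
  simp only [Complex.sub_re, Complex.sub_im] at h
  have h3 := mul_pos_of_neg_of_neg hb h
  nlinarith [h3]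

/-- the crossing point moves to the right (new point below) -/
theorem X_lt_low {a b c : ℂ} (ha : 0 < a.im) (hb : b.im < 0) (hc : c.im < 0)
    (h : cr b a c < 0) : X a b < X a c := by
  have h1 : 0 < a.im - b.im := by linarith
  have h2 : 0 < a.im - c.im := by linarith
  unfold X
  rw [div_lt_div_iff₀ h1 h2]
  unfold cr at h
  simp only [Complex.sub_re, Complex.sub_im] at h
  have h3 := mul_neg_of_pos_of_neg ha h
  nlinarith [h3]

/-- the crossing point is strictly inside each circle through `a` and `b` -/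
theorem cross_in {a b : ℂ} {cx cy r : ℝ} (ha : 0 < a.im) (hb : b.im < 0)
    (h1 : (a.re - cx) ^ 2 + (a.im - cy) ^ 2 = r ^ 2)
    (h2 : (b.re - cx) ^ 2 + (b.im - cy) ^ 2 = r ^ 2) :
    (X a b - cx) ^ 2 + cy ^ 2 < r ^ 2 := by
  set α := a.im with hα
  set β := - b.im with hβ
  have hβ' : b.im = -β := by rw [hβ]; ring
  have hβp : 0 < β := by rw [hβ]; linarith
  rw [hβ'] at h2
  have hs : 0 < α + β := by linarith
  have hX : X a b = (b.re * α + a.re * β) / (α + β) := by
    unfold X
    rw [hβ, ← hα]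
    congr 1
    ring
  have hX2 : (α + β) * X a b = b.re * α + a.re * β := by
    rw [hX]
    field_simp
  -- Jensen
  have hJ : (α + β) * (X a b - cx) ^ 2 ≤ β * (a.re - cx) ^ 2 + α * (b.re - cx) ^ 2 := by
    have e : (α + β) * (β * (a.re - cx) ^ 2 + α * (b.re - cx) ^ 2 - (α + β) * (X a b - cx) ^ 2) =
        α * β * (a.re - b.re) ^ 2 := by
      have e1 : (α + β) * ((α + β) * (X a b - cx) ^ 2) =
          ((α + β) * X a b - (α + β) * cx) ^ 2 := by ring
      rw [mul_sub, e1, hX2]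
      ring
    have e2 : 0 ≤ α * β * (a.re - b.re) ^ 2 := by positivity
    rw [← e] at e2
    have := nonneg_of_mul_nonneg_right e2 hs
    linarith
  have hpos : 0 < α * β := mul_pos ha hβp
  have key : (α + β) * ((X a b - cx) ^ 2 + cy ^ 2) < (α + β) * r ^ 2 := by
    have e3 : (α + β) * r ^ 2 = β * ((a.re - cx) ^ 2 + (α - cy) ^ 2) +
        α * ((b.re - cx) ^ 2 + (-β - cy) ^ 2) := by
      rw [h1, h2]; ring
    rw [e3]
    nlinarith [mul_pos hpos hs]
  exact lt_of_mul_lt_mul_left key hs.le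

/-- `|cy| < r` for a circle through a point above and a point below the axis -/
theorem abs_cy_lt {a b : ℂ} {cx cy r : ℝ} (hr : 0 < r) (ha : 0 < a.im) (hb : b.im < 0)
    (h1 : (a.re - cx) ^ 2 + (a.im - cy) ^ 2 = r ^ 2)
    (h2 : (b.re - cx) ^ 2 + (b.im - cy) ^ 2 = r ^ 2) : |cy| < r := by
  have h := cross_in ha hb h1 h2
  rw [← abs_of_pos hr]
  apply sq_lt_sq.mp
  nlinarith [sq_nonneg (X a b - cx)]

/-- a point of the axis to the right of the crossing point and not inside the circle -/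
theorem right_of {a b z : ℂ} {cx w r : ℝ} (hr : 0 < r) (hw : |w| < π / 2)
    (ha : 0 < a.im) (hb : b.im < 0)
    (h1 : (a.re - cx) ^ 2 + (a.im - r * sin w) ^ 2 = r ^ 2)
    (h2 : (b.re - cx) ^ 2 + (b.im - r * sin w) ^ 2 = r ^ 2) (hz : z.im = 0)
    (hout : r ^ 2 ≤ (z.re - cx) ^ 2 + (z.im - r * sin w) ^ 2) (hX : X a b < z.re) :
    cx + r * cos w ≤ z.re := by
  have h := cross_in ha hb h1 h2
  have hc : 0 < cos w := cos_pos_of_mem_Ioo ⟨by linarith [(abs_lt.mp hw).1], (abs_lt.mp hw).2⟩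
  have hrc : 0 < r * cos w := mul_pos hr hc
  rw [hz] at hout
  have h3 : r ^ 2 = (r * cos w) ^ 2 + (r * sin w) ^ 2 := by
    nlinarith [sin_sq_add_cos_sq w]
  have h4 : (X a b - cx) ^ 2 < (r * cos w) ^ 2 := by nlinarith
  have h5 : (r * cos w) ^ 2 ≤ (z.re - cx) ^ 2 := by nlinarith
  have h6 := (abs_lt_of_sq_lt_sq' h4 hrc.le).1
  by_contra h7
  have h8 : z.re - cx < r * cos w := by linarith
  have h9 : -(r * cos w) < z.re - cx := by linarith
  have : (z.re - cx) ^ 2 < (r * cos w) ^ 2 := sq_lt_sq' h9 h8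
  linarith

/-- a point of the axis to the left of the crossing point and on the circle -/
theorem left_eq {a b z : ℂ} {cx w r : ℝ} (hr : 0 < r) (hw : |w| < π / 2)
    (ha : 0 < a.im) (hb : b.im < 0)
    (h1 : (a.re - cx) ^ 2 + (a.im - r * sin w) ^ 2 = r ^ 2)
    (h2 : (b.re - cx) ^ 2 + (b.im - r * sin w) ^ 2 = r ^ 2) (hz : z.im = 0)
    (hon : (z.re - cx) ^ 2 + (z.im - r * sin w) ^ 2 = r ^ 2) (hX : z.re < X a b) :
    z.re = cx - r * cos w := by
  have h := cross_in ha hb h1 h2
  have hc : 0 < cos w := cos_pos_of_mem_Ioo ⟨by linarith [(abs_lt.mp hw).1], (abs_lt.mp hw).2⟩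
  have hrc : 0 < r * cos w := mul_pos hr hc
  rw [hz] at hon
  have h3 : r ^ 2 = (r * cos w) ^ 2 + (r * sin w) ^ 2 := by
    nlinarith [sin_sq_add_cos_sq w]
  have h4 : (X a b - cx) ^ 2 < (r * cos w) ^ 2 := by nlinarith
  have h5 : (z.re - cx) ^ 2 = (r * cos w) ^ 2 := by nlinarith
  have h6 := (abs_lt_of_sq_lt_sq' h4 hrc.le).2
  rcases sq_eq_sq_iff_eq_or_eq_neg.mp h5 with h7 | h7
  · linarith
  · linarith

theorem right_eq {a b z : ℂ} {cx w r : ℝ} (hr : 0 < r) (hw : |w| < π / 2)
    (ha : 0 < a.im) (hb : b.im < 0)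
    (h1 : (a.re - cx) ^ 2 + (a.im - r * sin w) ^ 2 = r ^ 2)
    (h2 : (b.re - cx) ^ 2 + (b.im - r * sin w) ^ 2 = r ^ 2) (hz : z.im = 0)
    (hon : (z.re - cx) ^ 2 + (z.im - r * sin w) ^ 2 = r ^ 2) (hX : X a b < z.re) :
    z.re = cx + r * cos w := by
  have h := cross_in ha hb h1 h2
  have hc : 0 < cos w := cos_pos_of_mem_Ioo ⟨by linarith [(abs_lt.mp hw).1], (abs_lt.mp hw).2⟩
  have hrc : 0 < r * cos w := mul_pos hr hc
  rw [hz] at hon
  have h3 : r ^ 2 = (r * cos w) ^ 2 + (r * sin w) ^ 2 := by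
    nlinarith [sin_sq_add_cos_sq w]
  have h4 : (X a b - cx) ^ 2 < (r * cos w) ^ 2 := by nlinarith
  have h5 : (z.re - cx) ^ 2 = (r * cos w) ^ 2 := by nlinarith
  have h6 := (abs_lt_of_sq_lt_sq' h4 hrc.le).1
  rcases sq_eq_sq_iff_eq_or_eq_neg.mp h5 with h7 | h7
  · linarith
  · linarith

/-- the crossing point is left of the right intersection point -/
theorem X_lt_right {a b : ℂ} {cx w r : ℝ} (hr : 0 < r) (hw : |w| < π / 2)
    (ha : 0 < a.im) (hb : b.im < 0)
    (h1 : (a.re - cx) ^ 2 + (a.im - r * sin w) ^ 2 = r ^ 2)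
    (h2 : (b.re - cx) ^ 2 + (b.im - r * sin w) ^ 2 = r ^ 2) :
    X a b < cx + r * cos w := by
  have h := cross_in ha hb h1 h2
  have hc : 0 < cos w := cos_pos_of_mem_Ioo ⟨by linarith [(abs_lt.mp hw).1], (abs_lt.mp hw).2⟩
  have hrc : 0 < r * cos w := mul_pos hr hc
  have h3 : r ^ 2 = (r * cos w) ^ 2 + (r * sin w) ^ 2 := by
    nlinarith [sin_sq_add_cos_sq w]
  have h4 : (X a b - cx) ^ 2 < (r * cos w) ^ 2 := by nlinarith
  have h6 := (abs_lt_of_sq_lt_sq' h4 hrc.le).2
  linarith

theorem OnC.sq_a {cx r w p q : ℝ} {a b : ℂ} (h : OnC cx r w p q a b) :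
    (a.re - cx) ^ 2 + (a.im - r * sin w) ^ 2 = r ^ 2 := by
  rw [h.are, h.aim]
  have := sin_sq_add_cos_sq (2 * p - w)
  linear_combination r ^ 2 * this

theorem OnC.sq_b {cx r w p q : ℝ} {a b : ℂ} (h : OnC cx r w p q a b) :
    (b.re - cx) ^ 2 + (b.im - r * sin w) ^ 2 = r ^ 2 := by
  rw [h.bre, h.bim]
  have := sin_sq_add_cos_sq (2 * q + w)
  linear_combination r ^ 2 * this

theorem reach_trans {Adj : ℂ → ℂ → Prop} {p z q : ℂ} {D1 D2 : ℝ} (h1 : Reach Adj p z D1)
    (h2 : Reach Adj z q D2) : Reach Adj p q (D1 + D2) := by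
  induction h2 with
  | refl => simpa using h1
  | step _ hadj ih =>
    rw [← add_assoc]
    exact Reach.step ih hadj

theorem one_le {t : ℝ} (P : Pot t) : 1 ≤ t := by
  have hw : |(0 : ℝ)| < π / 2 := by rw [abs_zero]; positivity
  have hpi := Real.pi_pos
  have h1 := P.A 0 0 (π / 2) (π / 2) hw le_rfl (by positivity) (by simp) (by positivity) (by simp)
  have h2 := P.B 0 0 0 (π / 2) hw le_rfl (by linarith) le_rfl (by positivity) (by simp)
  have h3 := P.start 0 hw
  have h4 := P.fin 0 hw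
  simp only [add_zero, sub_zero, cos_zero, mul_one] at h1 h2 h3
  have h5 := Real.pi_gt_three
  nlinarith

/-- the number of pairs still ahead -/
noncomputable def ahead (S : Finset ℂ) (x : ℝ) : Finset (ℂ × ℂ) :=
  (S ×ˢ S).filter (fun ab => 0 < ab.1.im ∧ ab.2.im < 0 ∧ x < X ab.1 ab.2)

open Classical in
theorem ahead_card_lt {S : Finset ℂ} {x : ℝ} {a b : ℂ} (ha : a ∈ S) (hb : b ∈ S) (ha0 : 0 < a.im)
    (hb0 : b.im < 0) (hx : x < X a b) : (ahead S (X a b)).card < (ahead S x).card := by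
  apply Finset.card_lt_card
  rw [Finset.ssubset_iff_of_subset]
  · refine ⟨(a, b), ?_, ?_⟩
    · simp only [ahead, Finset.mem_filter, Finset.mem_product]
      exact ⟨⟨ha, hb⟩, ha0, hb0, hx⟩
    · simp only [ahead, Finset.mem_filter, Finset.mem_product]
      intro h
      exact lt_irrefl _ h.2.2.2
  · intro y hy
    simp only [ahead, Finset.mem_filter, Finset.mem_product] at hy ⊢
    exact ⟨hy.1, hy.2.1, hy.2.2.1, hx.trans hy.2.2.2⟩

theorem walk_state {t : ℝ} (P : Pot t) {S : Finset ℂ} {Tri : ℂ → ℂ → ℂ → Prop}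
    {Adj : ℂ → ℂ → Prop} (h : DSys S Tri Adj) (hsymm : ∀ a b, Adj a b → Adj b a) {p q : ℂ}
    (hq : q ∈ S) (hq0 : q.im = 0) (n : ℕ) :
    ∀ (a b e : ℂ) (cx r w u v Da Db : ℝ), (ahead S (X a b)).card = n → 0 < a.im → b.im < 0 →
      Tri a b e → 0 < cr b a e → OnC cx r w u v a b →
      (∀ s ∈ S, r ≤ dist (⟨cx, r * sin w⟩ : ℂ) s) → Reach Adj p a Da → Reach Adj p b Db →
      |Da - Db| ≤ dist a b → P.V cx r w u v Da Db ≤ - t * p.re → X a b < q.re → p.re < X a b →
      ∃ z ∈ S, z.im = 0 ∧ p.re < z.re ∧ z.re ≤ q.re ∧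
        ∃ D, Reach Adj p z D ∧ D ≤ t * (z.re - p.re) := by
  induction n using Nat.strong_induction_on with
  | _ n ih =>
  intro a b e cx r w u v Da Db hn ha hb htri he hon hemp hRa hRb hD hV hXq hpX
  have haS : a ∈ S := h.mem _ _ _ htri
  have hbS : b ∈ S := h.mem _ _ _ (h.swap _ _ _ htri)
  have hside_q : cr b a q < 0 := (cr_axis_neg ha hb hq0).mpr hXq
  have hflipsign : ∀ z, cr a b z = - cr b a z := by
    intro z
    unfold cr
    simp only [Complex.sub_re, Complex.sub_im]
    ring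
  obtain ⟨c, hc, hcs⟩ := h.flip a b e htri q hq (by
    rw [hflipsign, hflipsign]
    nlinarith)
  have hside : cr b a c < 0 := by
    rw [hflipsign, hflipsign] at hcs
    by_contra h1
    have : 0 ≤ cr b a c * cr b a e := mul_nonneg (by linarith) he.le
    nlinarith
  have hcS : c ∈ S := h.mem _ _ _ (h.rot _ _ _ (h.rot _ _ _ hc))
  obtain ⟨o, r', ho1, ho2, ho3⟩ := circum (h.nondeg _ _ _ hc)
  obtain ⟨w', u', v', hon', hoim, hV'⟩ := pencil_step P hon ha hb ho1 ho2 ho3 hside (hemp c hcS) hD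
  have hor : (⟨o.re, r' * sin w'⟩ : ℂ) = o := by
    apply Complex.ext
    · rfl
    · exact hoim.symm
  have hemp' : ∀ s ∈ S, r' ≤ dist (⟨o.re, r' * sin w'⟩ : ℂ) s := by
    rw [hor]
    exact h.empty _ _ _ hc o r' ho1 ho2 ho3
  have hc3 : dist (⟨o.re, r' * sin w'⟩ : ℂ) c = r' := by rw [hor]; exact ho3
  have hr' : 0 < r' := hon'.hr
  have hsa := OnC.sq_a hon'
  have hsb := OnC.sq_b hon'
  have hsc := sq_of_dist hc3
  simp only at hsc
  have hAac : Adj a c := h.adj _ _ _ (h.rot _ _ _ (h.swap _ _ _ hc))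
  have hAbc : Adj b c := h.adj _ _ _ (h.rot _ _ _ hc)
  set Dc := min (Da + dist a c) (Db + dist b c) with hDc
  have hRc : Reach Adj p c Dc := by
    rcases min_choice (Da + dist a c) (Db + dist b c) with h1 | h1
    · rw [hDc, h1]; exact Reach.step hRa hAac
    · rw [hDc, h1]; exact Reach.step hRb hAbc
  have hDc1 : Dc ≤ Da + dist a c := min_le_left _ _
  have hDc2 : Dc ≤ Db + dist b c := min_le_right _ _
  have hqout := sq_of_le_dist hr'.le (hemp' q hq)
  simp only at hqout
  have hqright : o.re + r' * cos w' ≤ q.re :=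
    right_of hr' hon'.hw ha hb hsa hsb hq0 hqout hXq
  rcases lt_trichotomy c.im 0 with hc0 | hc0 | hc0
  · -- c below
    set Da' := min Da (Dc + dist a c) with hDa'
    have hRa' : Reach Adj p a Da' := by
      rcases min_choice Da (Dc + dist a c) with h1 | h1
      · rw [hDa', h1]; exact hRa
      · rw [hDa', h1, dist_comm]
        exact Reach.step hRc (hsymm _ _ hAac)
    have hDa1 : Da' ≤ Da := min_le_left _ _
    have hDa2 : Da' ≤ Dc + dist a c := min_le_right _ _
    obtain ⟨v'', hon'', hV''⟩ := move_B P hon' hc3 hc0.le ha hb hside hDc2 hDa1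
    have hX := X_lt_low ha hb hc0 hside
    have hlt := ahead_card_lt haS hcS ha hc0 hX
    rw [hn] at hlt
    have hXr := X_lt_right hr' hon'.hw ha hc0 hsa hsc
    have hs : 0 < cr c a b := by
      have : cr c a b = - cr b a c := by
        unfold cr
        simp only [Complex.sub_re, Complex.sub_im]
        ring
      rw [this]; linarith
    refine ih _ hlt a c b o.re r' w' u' v'' Da' Dc rfl ha hc0
      (h.rot _ _ _ (h.swap _ _ _ hc)) hs hon'' hemp' hRa' hRc ?_ ?_ ?_ ?_
    · rw [abs_le]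
      constructor
      · rcases min_choice Da (Dc + dist a c) with h1 | h1
        · rw [hDa', h1]; linarith
        · rw [hDa', h1]; linarith [dist_nonneg (x := a) (y := c)]
      · linarith
    · linarith
    · linarith
    · linarith
  · -- c on the axis
    have hXc : X a b < c.re := (cr_axis_neg ha hb hc0).mp hside
    have hcr := right_eq hr' hon'.hw ha hb hsa hsb hc0 hsc hXc
    have hE := V_end P hon' hc0 hcr hDc1 hDc2
    refine ⟨c, hcS, hc0, by linarith, by linarith, Dc, hRc, ?_⟩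
    nlinarith
  · -- c above
    set Db' := min Db (Dc + dist b c) with hDb'
    have hRb' : Reach Adj p b Db' := by
      rcases min_choice Db (Dc + dist b c) with h1 | h1
      · rw [hDb', h1]; exact hRb
      · rw [hDb', h1, dist_comm]
        exact Reach.step hRc (hsymm _ _ hAbc)
    have hDb1 : Db' ≤ Db := min_le_left _ _
    have hDb2 : Db' ≤ Dc + dist b c := min_le_right _ _
    obtain ⟨u'', hon'', hV''⟩ := move_A P hon' hc3 hc0.le ha hb hside hDc1 hDb1
    have hX := X_lt_up ha hb hc0 hside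
    have hlt := ahead_card_lt hcS hbS hc0 hb hX
    rw [hn] at hlt
    have hXr := X_lt_right hr' hon'.hw hc0 hb hsc hsb
    have hs : 0 < cr b c a := by
      have : cr b c a = - cr b a c := by
        unfold cr
        simp only [Complex.sub_re, Complex.sub_im]
        ring
      rw [this]; linarith
    refine ih _ hlt c b a o.re r' w' u'' v' Dc Db' rfl hc0 hb
      (h.swap _ _ _ (h.rot _ _ _ hc)) hs hon'' hemp' hRc hRb' ?_ ?_ ?_ ?_
    · rw [abs_le, dist_comm]
      constructor
      · linarith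
      · rcases min_choice Db (Dc + dist b c) with h1 | h1
        · rw [hDb', h1]; linarith
        · rw [hDb', h1]; linarith [dist_nonneg (x := b) (y := c)]
    · linarith
    · linarith
    · linarith

/-- one macro step of the walk: from a point of the axis to the next one -/
theorem next_axis {t : ℝ} (P : Pot t) {S : Finset ℂ} {Tri : ℂ → ℂ → ℂ → Prop}
    {Adj : ℂ → ℂ → Prop} (h : DSys S Tri Adj) (hsymm : ∀ a b, Adj a b → Adj b a) {p q : ℂ}
    (hp : p ∈ S) (hq : q ∈ S) (hp0 : p.im = 0) (hq0 : q.im = 0) (hpq : p.re < q.re) :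
    ∃ z ∈ S, z.im = 0 ∧ p.re < z.re ∧ z.re ≤ q.re ∧
        ∃ D, Reach Adj p z D ∧ D ≤ t * (z.re - p.re) := by
  have ht := one_le P
  have hdist : ∀ z : ℂ, z.im = 0 → p.re < z.re → dist p z = z.re - p.re := by
    intro z hz hz1
    rw [Complex.dist_eq_re_im, hz, hp0]
    rw [sub_self, zero_pow two_ne_zero, add_zero, Real.sqrt_sq_eq_abs, abs_sub_comm,
      abs_of_pos (by linarith)]
  have hdirect : ∀ z : ℂ, Adj p z → z.im = 0 → p.re < z.re →
      ∃ D, Reach Adj p z D ∧ D ≤ t * (z.re - p.re) := by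
    intro z hz hz0 hz1
    refine ⟨0 + dist p z, Reach.step Reach.refl hz, ?_⟩
    rw [zero_add, hdist z hz0 hz1]
    nlinarith
  have hne : p ≠ q := by
    intro h1
    rw [h1] at hpq
    exact lt_irrefl _ hpq
  -- a point `z` of the axis on an empty circle through `p` is not behind `q`
  have hbetween : ∀ (z o : ℂ) (r : ℝ), z.im = 0 → p.re < z.re → dist o p = r → dist o z = r →
      r ≤ dist o q → z.re ≤ q.re := by
    intro z o r hz hz1 h1 h2 h3
    have hr : 0 ≤ r := by rw [← h1]; exact dist_nonneg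
    have e1 := sq_of_dist h1
    have e2 := sq_of_dist h2
    have e3 := sq_of_le_dist hr h3
    rw [hp0] at e1
    rw [hz] at e2
    rw [hq0] at e3
    have e4 : (z.re - p.re) * (z.re + p.re - 2 * o.re) = 0 := by nlinarith
    have e5 : z.re + p.re - 2 * o.re = 0 := by
      rcases mul_eq_zero.mp e4 with e5 | e5
      · linarith
      · exact e5
    have e6 : 0 ≤ (q.re - p.re) * (q.re - z.re) := by nlinarith
    have e7 := nonneg_of_mul_nonneg_right e6 (by linarith)
    linarith
  rcases h.start p hp q hq hne with hadj | ⟨b, a, htri, hpos, hb, ha⟩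
  · exact ⟨q, hq, hq0, hpq, le_rfl, hdirect q hadj hq0 hpq⟩
  -- now `b` is below, `a` is above
  have hb' : b.im ≤ 0 := by
    unfold cr at hb
    simp only [Complex.sub_re, Complex.sub_im, hp0, hq0] at hb
    by_contra h1
    have : 0 < b.im * (q.re - p.re) := mul_pos (by linarith) (by linarith)
    nlinarith
  have ha' : 0 ≤ a.im := by
    unfold cr at ha
    simp only [Complex.sub_re, Complex.sub_im, hp0, hq0] at ha
    by_contra h1
    have : 0 < -a.im * (q.re - p.re) := mul_pos (by linarith) (by linarith)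
    nlinarith
  have hbS : b ∈ S := h.mem _ _ _ (h.swap _ _ _ htri)
  have haS : a ∈ S := h.mem _ _ _ (h.rot _ _ _ (h.rot _ _ _ htri))
  have hpb : Adj p b := h.adj _ _ _ htri
  have hpa : Adj p a := h.adj _ _ _ (h.swap _ _ _ (h.rot _ _ _ (h.rot _ _ _ htri)))
  obtain ⟨o, r, ho1, ho2, ho3⟩ := circum (h.nondeg _ _ _ htri)
  have hemp := h.empty _ _ _ htri o r ho1 ho2 ho3
  have hcr : cr p b a = (b.re - p.re) * a.im - b.im * (a.re - p.re) := by
    unfold cr
    simp only [Complex.sub_re, Complex.sub_im, hp0, sub_zero]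
  rw [hcr] at hpos
  rcases hb'.eq_or_lt with hb0 | hb0
  · -- b on the axis
    have h1 : p.re < b.re := by
      by_contra h1
      rw [hb0] at hpos
      have : 0 ≤ (p.re - b.re) * a.im := mul_nonneg (by linarith) ha'
      nlinarith
    exact ⟨b, hbS, hb0, h1, hbetween b o r hb0 h1 ho1 ho2 (hemp q hq), hdirect b hpb hb0 h1⟩
  rcases ha'.eq_or_lt with ha0 | ha0
  · have h1 : p.re < a.re := by
      by_contra h1
      rw [← ha0] at hpos
      have : 0 ≤ -b.im * (p.re - a.re) := mul_nonneg (by linarith) (by linarith)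
      nlinarith
    exact ⟨a, haS, ha0.symm, h1, hbetween a o r ha0.symm h1 ho1 ho3 (hemp q hq),
      hdirect a hpa ha0.symm h1⟩
  -- the general case
  have hr0 : 0 ≤ r := by rw [← ho1]; exact dist_nonneg
  have hrpos : 0 < r := by
    rcases hr0.eq_or_lt with h1 | h1
    · exfalso
      rw [← h1] at ho2 ho3
      have h2 := dist_eq_zero.mp ho2
      have h3 := dist_eq_zero.mp ho3
      rw [← h2] at hb0
      rw [← h3] at ha0
      linarith
    · exact h1
  have sa := sq_of_dist ho3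
  have sb := sq_of_dist ho2
  have sp := sq_of_dist ho1
  have hcy : |o.im| < r := abs_cy_lt hrpos ha0 hb0 sa sb
  obtain ⟨hw, hsin⟩ := circ_param hrpos hcy
  set w := arcsin (o.im / r) with hwdef
  have hor : (⟨o.re, r * sin w⟩ : ℂ) = o := by
    apply Complex.ext
    · rfl
    · exact hsin
  obtain ⟨u, hu0, hu1, hu2, hu3⟩ := upper_param (cx := o.re) hrpos hw (a := a)
    (by rw [hor]; exact ho3) ha'
  obtain ⟨v, hv0, hv1, hv2, hv3⟩ := lower_param (cx := o.re) hrpos hw (b := b)
    (by rw [hor]; exact ho2) hb'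
  have hon : OnC o.re r w u v a b := ⟨hrpos, hw, hu0, hu1, hv0, hv1, hu2, hu3, hv2, hv3⟩
  have hpX : p.re < X a b := by
    rw [← cr_axis_pos ha0 hb0 hp0]
    unfold cr
    simp only [Complex.sub_re, Complex.sub_im, hp0]
    nlinarith
  rw [← hsin] at sa sb sp
  have hpl := left_eq hrpos hw ha0 hb0 sa sb hp0 sp hpX
  have hVs := V_start P hon hp0 hpl
  have hsqq := sq_of_le_dist hr0 (hemp q hq)
  have hXq : X a b < q.re := by
    -- `q` is outside and to the right of `p`, the left intersection point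
    have hcos : 0 < cos w := cos_pos_of_mem_Ioo ⟨by linarith [(abs_lt.mp hw).1], (abs_lt.mp hw).2⟩
    have hrc : 0 < r * cos w := mul_pos hrpos hcos
    have hXr := X_lt_right hrpos hw ha0 hb0 sa sb
    rw [← hsin, hq0] at hsqq
    have h3 : r ^ 2 = (r * cos w) ^ 2 + (r * sin w) ^ 2 := by
      nlinarith [sin_sq_add_cos_sq w]
    have h5 : (r * cos w) ^ 2 ≤ (q.re - o.re) ^ 2 := by nlinarith
    by_contra h7
    have h8 : q.re - o.re < r * cos w := by linarith
    have h9 : -(r * cos w) < q.re - o.re := by linarith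
    have : (q.re - o.re) ^ 2 < (r * cos w) ^ 2 := sq_lt_sq' h9 h8
    linarith
  have hRa : Reach Adj p a (dist p a) := by
    have := Reach.step (Reach.refl (Adj := Adj) (p := p)) hpa
    rwa [zero_add] at this
  have hRb : Reach Adj p b (dist p b) := by
    have := Reach.step (Reach.refl (Adj := Adj) (p := p)) hpb
    rwa [zero_add] at this
  have hs : 0 < cr b a p := (cr_axis_pos ha0 hb0 hp0).mpr hpX
  refine walk_state P h hsymm hq hq0 _ a b p o.re r w u v (dist p a) (dist p b) rfl ha0 hb0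
    (h.swap _ _ _ (h.rot _ _ _ htri)) hs hon ?_ hRa hRb ?_ hVs hXq hpX
  · rw [hor]; exact hemp
  · rw [dist_comm p a, dist_comm p b]
    exact abs_dist_sub_le _ _ _

end WalkAxis

open WalkAxis in
theorem walk_axis {t : ℝ} (P : Pot t) {S : Finset ℂ} {Tri : ℂ → ℂ → ℂ → Prop} {Adj : ℂ → ℂ → Prop}
    (h : DSys S Tri Adj) (hsymm : ∀ a b, Adj a b → Adj b a) {p q : ℂ} (hp : p ∈ S) (hq : q ∈ S)
    (hp0 : p.im = 0) (hq0 : q.im = 0) (hpq : p.re < q.re) :
    ∃ D, Reach Adj p q D ∧ D ≤ t * (q.re - p.re) := by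
  classical
  -- strong induction on the number of points of `S` on the axis to the right of `p`
  suffices H : ∀ n : ℕ, ∀ p : ℂ, (S.filter (fun z => p.re < z.re)).card = n → p ∈ S → p.im = 0 →
      p.re < q.re → ∃ D, Reach Adj p q D ∧ D ≤ t * (q.re - p.re) from H _ p rfl hp hp0 hpq
  clear hp hp0 hpq p
  intro n
  induction n using Nat.strong_induction_on with
  | _ n ih =>
  intro p hn hp hp0 hpq
  obtain ⟨z, hzS, hz0, hpz, hzq, D1, hR1, hD1⟩ := next_axis P h hsymm hp hq hp0 hq0 hpq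
  rcases hzq.eq_or_lt with h1 | h1
  · have : z = q := Complex.ext h1 (by rw [hz0, hq0])
    subst this
    exact ⟨D1, hR1, hD1⟩
  · have hlt : (S.filter (fun y => z.re < y.re)).card < n := by
      rw [← hn]
      apply Finset.card_lt_card
      rw [Finset.ssubset_iff_of_subset]
      · refine ⟨z, ?_, ?_⟩
        · simp only [Finset.mem_filter]; exact ⟨hzS, hpz⟩
        · simp only [Finset.mem_filter]
          intro h2
          exact lt_irrefl _ h2.2
      · intro y hy
        simp only [Finset.mem_filter] at hy ⊢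
        exact ⟨hy.1, hpz.trans hy.2⟩
    obtain ⟨D2, hR2, hD2⟩ := ih _ hlt z rfl hzS hz0 h1
    refine ⟨D1 + D2, reach_trans hR1 hR2, ?_⟩
    nlinarith

end DT
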