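import Pool.Agent.Work.MP_74021c_co.Defs
import Pool.Agent.Work.MP_74021c_co.G7a

/-!
# The walk for a general pair of points: transport to the real axis
-/

open Real Set

namespace DT

namespace WalkGen

theorem cr_eq (a b c : ℂ) : cr a b c = ((starRingEnd ℂ) (b - a) * (c - a)).im := by
  unfold cr
  simp only [Complex.mul_im, Complex.conj_re, Complex.conj_im]
  ring

/-- rigid motion -/
noncomputable def f (u p z : ℂ) : ℂ := z * u + p

/-- its inverse -/
noncomputable def e (u p z : ℂ) : ℂ := (z - p) * (starRingEnd ℂ) u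

variable {u p : ℂ}

theorem u_conj (hu : ‖u‖ = 1) : u * (starRingEnd ℂ) u = 1 := by
  rw [Complex.mul_conj, Complex.normSq_eq_norm_sq, hu]
  norm_num

theorem f_e (hu : ‖u‖ = 1) (z : ℂ) : f u p (e u p z) = z := by
  unfold f e
  have := u_conj hu
  linear_combination (z - p) * this

theorem e_f (hu : ‖u‖ = 1) (z : ℂ) : e u p (f u p z) = z := by
  unfold f e
  have := u_conj hu
  linear_combination z * this

theorem dist_f (hu : ‖u‖ = 1) (y z : ℂ) : dist (f u p y) (f u p z) = dist y z := by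
  unfold f
  rw [Complex.dist_eq, Complex.dist_eq]
  have : y * u + p - (z * u + p) = (y - z) * u := by ring
  rw [this, norm_mul, hu, mul_one]

theorem cr_f (hu : ‖u‖ = 1) (a b c : ℂ) : cr (f u p a) (f u p b) (f u p c) = cr a b c := by
  rw [cr_eq, cr_eq]
  congr 1
  unfold f
  have h := u_conj hu
  have h1 : b * u + p - (a * u + p) = (b - a) * u := by ring
  have h2 : c * u + p - (a * u + p) = (c - a) * u := by ring
  rw [h1, h2, map_mul]
  linear_combination (starRingEnd ℂ) (b - a) * (c - a) * h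

theorem dsys {S : Finset ℂ} {Tri : ℂ → ℂ → ℂ → Prop} {Adj : ℂ → ℂ → Prop} (h : DSys S Tri Adj)
    (hu : ‖u‖ = 1) :
    DSys (S.image (e u p)) (fun a b c => Tri (f u p a) (f u p b) (f u p c))
      (fun a b => Adj (f u p a) (f u p b)) := by
  have hmem : ∀ z, z ∈ S.image (e u p) ↔ f u p z ∈ S := by
    intro z
    rw [Finset.mem_image]
    constructor
    · rintro ⟨y, hy, rfl⟩
      rw [f_e hu]
      exact hy
    · intro hz
      exact ⟨_, hz, e_f hu z⟩
  constructor
  · intro a b c habc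
    rw [hmem]
    exact h.mem _ _ _ habc
  · intro a b c habc
    exact h.swap _ _ _ habc
  · intro a b c habc
    exact h.rot _ _ _ habc
  · intro a b c habc
    exact h.adj _ _ _ habc
  · intro a b c habc
    rw [← cr_f (p := p) hu]
    exact h.nondeg _ _ _ habc
  · intro a b c habc o r h1 h2 h3 s hs
    rw [hmem] at hs
    rw [← dist_f (p := p) hu] at h1 h2 h3 ⊢
    exact h.empty _ _ _ habc _ _ h1 h2 h3 _ hs
  · intro a b c habc s hs hlt
    rw [hmem] at hs
    rw [← cr_f (p := p) hu a b s, ← cr_f (p := p) hu a b c] at hlt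
    obtain ⟨c', hc', hlt'⟩ := h.flip _ _ _ habc _ hs hlt
    refine ⟨e u p c', ?_, ?_⟩
    · rw [f_e hu]
      exact hc'
    · rw [← cr_f (p := p) hu a b (e u p c'), ← cr_f (p := p) hu a b c, f_e hu]
      exact hlt'
  · intro x hx y hy hxy
    rw [hmem] at hx hy
    have hne : f u p x ≠ f u p y := by
      intro h1
      apply hxy
      rw [← e_f (p := p) hu x, h1, e_f hu]
    rcases h.start _ hx _ hy hne with h1 | ⟨a, b, h1, h2, h3, h4⟩
    · exact Or.inl h1
    · right
      refine ⟨e u p a, e u p b, ?_, ?_, ?_, ?_⟩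
      · rw [f_e hu, f_e hu]; exact h1
      · rw [← cr_f (p := p) hu, f_e hu, f_e hu]; exact h2
      · rw [← cr_f (p := p) hu, f_e hu]; exact h3
      · rw [← cr_f (p := p) hu, f_e hu]; exact h4

theorem reach_f {Adj : ℂ → ℂ → Prop} (hu : ‖u‖ = 1) {x y : ℂ} {D : ℝ}
    (h : Reach (fun a b => Adj (f u p a) (f u p b)) x y D) :
    Reach Adj (f u p x) (f u p y) D := by
  induction h with
  | refl => exact Reach.refl
  | step _ hadj ih =>
    rw [← dist_f (p := p) hu]
    exact Reach.step ih hadj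

end WalkGen

open WalkGen in
theorem walk {t : ℝ} (P : Pot t) {S : Finset ℂ} {Tri : ℂ → ℂ → ℂ → Prop} {Adj : ℂ → ℂ → Prop}
    (h : DSys S Tri Adj) (hsymm : ∀ a b, Adj a b → Adj b a) {p q : ℂ} (hp : p ∈ S) (hq : q ∈ S) :
    ∃ D, Reach Adj p q D ∧ D ≤ t * dist p q := by
  by_cases hpq : p = q
  · subst hpq
    exact ⟨0, Reach.refl, by rw [dist_self, mul_zero]⟩
  have hn : 0 < ‖q - p‖ := norm_pos_iff.mpr (sub_ne_zero.mpr (Ne.symm hpq))
  set u : ℂ := (q - p) / (‖q - p‖ : ℂ) with hudef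
  have hu : ‖u‖ = 1 := by
    rw [hudef, norm_div, Complex.norm_real, norm_norm, div_self hn.ne']
  have hnc : ((‖q - p‖ : ℝ) : ℂ) ≠ 0 := by exact_mod_cast hn.ne'
  have he_p : e u p p = 0 := by
    unfold e
    rw [sub_self, zero_mul]
  have hqp : q - p = (‖q - p‖ : ℂ) * u := by
    rw [hudef]
    field_simp
  have he_q : e u p q = (‖q - p‖ : ℂ) := by
    unfold e
    have h1 := u_conj hu
    calc (q - p) * (starRingEnd ℂ) u = ((‖q - p‖ : ℂ) * u) * (starRingEnd ℂ) u := by rw [← hqp]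
      _ = (‖q - p‖ : ℂ) * (u * (starRingEnd ℂ) u) := by ring
      _ = (‖q - p‖ : ℂ) := by rw [h1, mul_one]
  obtain ⟨D, hR, hD⟩ := walk_axis P (dsys (p := p) h hu)
    (fun a b hab => hsymm _ _ hab) (p := e u p p) (q := e u p q)
    (Finset.mem_image_of_mem _ hp) (Finset.mem_image_of_mem _ hq)
    (by rw [he_p]; rfl) (by rw [he_q]; exact Complex.ofReal_im _)
    (by rw [he_p, he_q, Complex.ofReal_re]; exact hn)
  refine ⟨D, ?_, ?_⟩
  · have := reach_f hu hR
    rwa [f_e hu, f_e hu] at this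
  · rw [he_p, he_q, Complex.ofReal_re, Complex.zero_re, sub_zero] at hD
    rw [dist_comm, Complex.dist_eq]
    exact hD

end DT
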