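import Pool.Agent.Work.MP_74021c_co.Defs

/-!
# G9a: the next empty circle of the pencil through two points
-/

set_option linter.unusedVariables false

open Real Set

namespace DT

namespace G9a

/-- the centre with parameter `s` of the pencil of circles through `a`, `b` -/
noncomputable def cen (a b : ℂ) (s : ℝ) : ℂ :=
  ⟨(a.re + b.re) / 2 + s * (b.im - a.im), (a.im + b.im) / 2 - s * (b.re - a.re)⟩

/-- squared distance -/
def sq (z w : ℂ) : ℝ := (z.re - w.re) ^ 2 + (z.im - w.im) ^ 2

/-- the power of `z` with respect to the circle with diameter `a b` -/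
noncomputable def P (a b z : ℂ) : ℝ :=
  ((a.re + b.re) / 2 - z.re) ^ 2 + ((a.im + b.im) / 2 - z.im) ^ 2 -
    ((b.re - a.re) ^ 2 + (b.im - a.im) ^ 2) / 4

theorem sq_nonneg' (z w : ℂ) : 0 ≤ sq z w := by
  unfold sq
  positivity

theorem dist_sq (z w : ℂ) : dist z w = √(sq z w) := Complex.dist_eq_re_im z w

theorem dist_le_iff (z w w' : ℂ) : dist z w ≤ dist z w' ↔ sq z w ≤ sq z w' := by
  rw [dist_sq, dist_sq]
  exact Real.sqrt_le_sqrt_iff (sq_nonneg' z w')

theorem key (a b z : ℂ) (s : ℝ) :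
    sq (cen a b s) z - sq (cen a b s) a = P a b z + 2 * s * cr a b z := by
  simp only [sq, cen, P, cr, Complex.sub_re, Complex.sub_im]
  ring

theorem cen_b (a b : ℂ) (s : ℝ) : sq (cen a b s) b = sq (cen a b s) a := by
  simp only [sq, cen]
  ring

theorem exists_cen {a b o : ℂ} (hab : a ≠ b) (h : sq o a = sq o b) : ∃ s, o = cen a b s := by
  have hn : 0 < (b.re - a.re) ^ 2 + (b.im - a.im) ^ 2 := by
    rcases lt_or_eq_of_le (show 0 ≤ (b.re - a.re) ^ 2 + (b.im - a.im) ^ 2 by positivity) with h0 | h0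
    · exact h0
    · exfalso
      apply hab
      have h1 : (b.re - a.re) ^ 2 = 0 := by
        nlinarith [sq_nonneg (b.re - a.re), sq_nonneg (b.im - a.im)]
      have h2 : (b.im - a.im) ^ 2 = 0 := by
        nlinarith [sq_nonneg (b.re - a.re), sq_nonneg (b.im - a.im)]
      have h3 : b.re - a.re = 0 := by simpa using h1
      have h4 : b.im - a.im = 0 := by simpa using h2
      apply Complex.ext <;> linarith
  have ho : (o.re - (a.re + b.re) / 2) * (b.re - a.re) +
      (o.im - (a.im + b.im) / 2) * (b.im - a.im) = 0 := by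
    simp only [sq] at h
    linarith
  refine ⟨((o.re - (a.re + b.re) / 2) * (b.im - a.im) -
    (o.im - (a.im + b.im) / 2) * (b.re - a.re)) / ((b.re - a.re) ^ 2 + (b.im - a.im) ^ 2), ?_⟩
  apply Complex.ext
  · show o.re = (a.re + b.re) / 2 + _ / _ * (b.im - a.im)
    rw [div_mul_eq_mul_div]
    have : ((o.re - (a.re + b.re) / 2) * (b.im - a.im) -
        (o.im - (a.im + b.im) / 2) * (b.re - a.re)) * (b.im - a.im) =
        (o.re - (a.re + b.re) / 2) * ((b.re - a.re) ^ 2 + (b.im - a.im) ^ 2) := by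
      linear_combination (-(b.re - a.re)) * ho
    rw [this, mul_div_assoc, div_self hn.ne']
    ring
  · show o.im = (a.im + b.im) / 2 - _ / _ * (b.re - a.re)
    rw [div_mul_eq_mul_div]
    have : ((o.re - (a.re + b.re) / 2) * (b.im - a.im) -
        (o.im - (a.im + b.im) / 2) * (b.re - a.re)) * (b.re - a.re) =
        -(o.im - (a.im + b.im) / 2) * ((b.re - a.re) ^ 2 + (b.im - a.im) ^ 2) := by
      linear_combination (b.im - a.im) * ho
    rw [this, mul_div_assoc, div_self hn.ne']
    ring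

end G9a

open G9a

theorem exists_next (S : Finset ℂ) {a b s : ℂ} {o : ℂ} {r : ℝ} (hab : a ≠ b) (ha : dist o a = r)
    (hb : dist o b = r) (hemp : ∀ s ∈ S, r ≤ dist o s) (hs : s ∈ S) (hside : cr a b s < 0)
    (hcol : ∀ z ∈ S, z ≠ a → z ≠ b → cr a b z ≠ 0) :
    ∃ c ∈ S, cr a b c < 0 ∧ ∃ (o' : ℂ) (r' : ℝ), dist o' a = r' ∧ dist o' b = r' ∧
      dist o' c = r' ∧ ∀ s ∈ S, r' ≤ dist o' s := by
  classical
  have hab' : sq o a = sq o b := by
    have h1 : dist o a = dist o b := by rw [ha, hb]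
    exact le_antisymm ((dist_le_iff o a b).1 h1.le) ((dist_le_iff o b a).1 h1.ge)
  obtain ⟨s0, hs0⟩ := exists_cen hab hab'
  have hold : ∀ z ∈ S, 0 ≤ P a b z + 2 * s0 * cr a b z := by
    intro z hz
    rw [← key, ← hs0]
    have h1 := hemp z hz
    rw [← ha, dist_le_iff] at h1
    linarith
  -- the parameter of the circle through `z`
  set g : ℂ → ℝ := fun z => P a b z / (-2 * cr a b z) with hg
  have hgz : ∀ z, cr a b z < 0 → ∀ x, x ≤ g z ↔ 0 ≤ P a b z + 2 * x * cr a b z := by
    intro z hz x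
    have h1 : 0 < -2 * cr a b z := by linarith
    rw [hg]
    show x ≤ P a b z / (-2 * cr a b z) ↔ _
    rw [le_div_iff₀ h1]
    constructor <;> intro h <;> linarith
  obtain ⟨c, hc, hmin⟩ := (S.filter fun z => cr a b z < 0).exists_min_image g
    ⟨s, Finset.mem_filter.2 ⟨hs, hside⟩⟩
  rw [Finset.mem_filter] at hc
  have h0c : s0 ≤ g c := (hgz c hc.2 s0).2 (hold c hc.1)
  have hpc : P a b c + 2 * g c * cr a b c = 0 := by
    have h1 : -2 * cr a b c ≠ 0 := by linarith [hc.2]
    have h2 : g c * (-2 * cr a b c) = P a b c := div_mul_cancel₀ _ h1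
    linarith
  refine ⟨c, hc.1, hc.2, cen a b (g c), dist (cen a b (g c)) a, rfl, ?_, ?_, ?_⟩
  · rw [dist_sq, dist_sq, cen_b]
  · rw [dist_sq, dist_sq]
    have h1 := key a b c (g c)
    rw [hpc] at h1
    rw [show sq (cen a b (g c)) c = sq (cen a b (g c)) a by linarith]
  · intro z hz
    rw [dist_le_iff]
    have h1 := key a b z (g c)
    have h2 : 0 ≤ P a b z + 2 * g c * cr a b z := by
      rcases lt_or_ge (cr a b z) 0 with h3 | h3
      · exact (hgz z h3 (g c)).1 (hmin z (Finset.mem_filter.2 ⟨hz, h3⟩))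
      · have h4 := hold z hz
        nlinarith
    linarith

end DT
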