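import Pool.Agent.Work.MP_74021c_co.Defs
import Pool.Agent.Work.MP_74021c_co.G9a

/-!
# G9b: the Delaunay system of a point set in general position
-/

open Real Set

namespace DT

namespace G9b

open G9a

/-- an empty circle through `a` and `b` -/
def EC (S : Finset ℂ) (a b : ℂ) : Prop :=
  ∃ (o : ℂ) (r : ℝ), dist o a = r ∧ dist o b = r ∧ ∀ s ∈ S, r ≤ dist o s

/-- an empty circle through `a`, `b` and `c` -/
def EC3 (S : Finset ℂ) (a b c : ℂ) : Prop :=
  ∃ (o : ℂ) (r : ℝ), dist o a = r ∧ dist o b = r ∧ dist o c = r ∧ ∀ s ∈ S, r ≤ dist o s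

theorem cr_swap (a b c : ℂ) : cr b a c = -cr a b c := by
  simp only [cr, Complex.sub_re, Complex.sub_im]
  ring

theorem cr_rot (a b c : ℂ) : cr b c a = cr a b c := by
  simp only [cr, Complex.sub_re, Complex.sub_im]
  ring

theorem cr_swap' (a b c : ℂ) : cr a c b = -cr a b c := by
  simp only [cr, Complex.sub_re, Complex.sub_im]
  ring

theorem ne_of_cr {a b c : ℂ} (h : cr a b c ≠ 0) : a ≠ b ∧ a ≠ c ∧ b ≠ c := by
  refine ⟨?_, ?_, ?_⟩
  · rintro rfl
    apply h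
    simp [cr]
  · rintro rfl
    apply h
    simp [cr]
  · rintro rfl
    apply h
    simp only [cr, Complex.sub_re, Complex.sub_im]
    ring

theorem sq_eq_of_dist {o a b : ℂ} {r : ℝ} (ha : dist o a = r) (hb : dist o b = r) :
    sq o a = sq o b := by
  have h1 : dist o a = dist o b := by rw [ha, hb]
  exact le_antisymm ((dist_le_iff o a b).1 h1.le) ((dist_le_iff o b a).1 h1.ge)

/-- the circumcentre is unique -/
theorem centre_unique {a b c o o' : ℂ} (h : cr a b c ≠ 0) (h1 : sq o a = sq o b)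
    (h2 : sq o a = sq o c) (h3 : sq o' a = sq o' b) (h4 : sq o' a = sq o' c) : o = o' := by
  have hab := (ne_of_cr h).1
  obtain ⟨s, rfl⟩ := exists_cen hab h1
  obtain ⟨s', rfl⟩ := exists_cen hab h3
  have k1 := key a b c s
  have k2 := key a b c s'
  have h5 : (s - s') * cr a b c = 0 := by linarith
  rcases mul_eq_zero.1 h5 with h6 | h6
  · rw [show s = s' by linarith]
  · exact absurd h6 h

/-- the scalar product of `z - p` and `q - p` -/
def sp (p q z : ℂ) : ℝ := (z.re - p.re) * (q.re - p.re) + (z.im - p.im) * (q.im - p.im)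

/-- every point has a neighbour in the half plane of a given direction -/
theorem exists_nb (S : Finset ℂ) {p q : ℂ} (hq : q ∈ S) (hpq : p ≠ q) :
    ∃ a ∈ S, 0 < sp p q a ∧ EC S p a := by
  have hn : 0 < sq q p := by
    rcases lt_or_eq_of_le (sq_nonneg' q p) with h0 | h0
    · exact h0
    · exfalso
      apply hpq
      have h1 : (q.re - p.re) ^ 2 = 0 := by
        unfold G9a.sq at h0
        nlinarith [sq_nonneg (q.re - p.re), sq_nonneg (q.im - p.im)]
      have h2 : (q.im - p.im) ^ 2 = 0 := by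
        unfold G9a.sq at h0
        nlinarith [sq_nonneg (q.re - p.re), sq_nonneg (q.im - p.im)]
      have h3 : q.re - p.re = 0 := by simpa using h1
      have h4 : q.im - p.im = 0 := by simpa using h2
      apply Complex.ext <;> linarith
  have hqq : sp p q q = sq q p := by
    unfold sp G9a.sq
    ring
  obtain ⟨a, ha, hmin⟩ := (S.filter fun z => 0 < sp p q z).exists_min_image
    (fun z => sq z p / (2 * sp p q z)) ⟨q, Finset.mem_filter.2 ⟨hq, by rw [hqq]; exact hn⟩⟩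
  rw [Finset.mem_filter] at ha
  refine ⟨a, ha.1, ha.2, ?_⟩
  set l : ℝ := sq a p / (2 * sp p q a) with hl
  have hl0 : 0 ≤ l := div_nonneg (sq_nonneg' a p) (by linarith [ha.2])
  have hla : l * (2 * sp p q a) = sq a p := div_mul_cancel₀ _ (by linarith [ha.2])
  have hid : ∀ z : ℂ, sq ⟨p.re + l * (q.re - p.re), p.im + l * (q.im - p.im)⟩ z -
      sq ⟨p.re + l * (q.re - p.re), p.im + l * (q.im - p.im)⟩ p =
      sq z p - l * (2 * sp p q z) := by
    intro z
    simp only [G9a.sq, sp]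
    ring
  refine ⟨⟨p.re + l * (q.re - p.re), p.im + l * (q.im - p.im)⟩, _, rfl, ?_, ?_⟩
  · have h := hid a
    rw [hla, sub_self] at h
    rw [dist_sq, dist_sq, sub_eq_zero.1 h]
  · intro s hs
    rw [dist_le_iff]
    have h := hid s
    have h2 : l * (2 * sp p q s) ≤ sq s p := by
      rcases lt_or_ge 0 (sp p q s) with h3 | h3
      · have h4 := hmin s (Finset.mem_filter.2 ⟨hs, h3⟩)
        exact (le_div_iff₀ (by linarith)).1 h4
      · have h5 : l * (2 * sp p q s) ≤ 0 := mul_nonpos_of_nonneg_of_nonpos hl0 (by linarith)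
        linarith [sq_nonneg' s p]
    linarith

/-- `exists_next` with a sign -/
theorem next_sgn (S : Finset ℂ)
    (h1 : ∀ a ∈ S, ∀ b ∈ S, ∀ c ∈ S, a ≠ b → a ≠ c → b ≠ c → cr a b c ≠ 0) {σ : ℝ}
    (hσ : σ = 1 ∨ σ = -1) {p a q : ℂ} (hp : p ∈ S) (ha : a ∈ S) (hq : q ∈ S) (hpa : p ≠ a)
    (he : EC S p a) (hside : 0 < σ * cr p a q) :
    ∃ c ∈ S, 0 < σ * cr p a c ∧ EC3 S p a c := by
  obtain ⟨o, r, e1, e2, e3⟩ := he
  rcases hσ with rfl | rfl
  · obtain ⟨c, hc, hc2, o', r', f1, f2, f3, f4⟩ := exists_next S (a := a) (b := p) (s := q)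
      hpa.symm e2 e1 e3 hq (by rw [cr_swap]; linarith)
      (fun z hz hza hzp => h1 a ha p hp z hz hpa.symm hza.symm hzp.symm)
    rw [cr_swap] at hc2
    exact ⟨c, hc, by linarith, o', r', f2, f1, f3, f4⟩
  · obtain ⟨c, hc, hc2, o', r', f1, f2, f3, f4⟩ := exists_next S (a := p) (b := a) (s := q)
      hpa e1 e2 e3 hq (by linarith)
      (fun z hz hzp hza => h1 p hp a ha z hz hpa hzp.symm hza.symm)
    exact ⟨c, hc, by linarith, o', r', f1, f2, f3, f4⟩

/-- the triangle at `p` in the direction of `q`, one side -/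
theorem start_sgn (S : Finset ℂ)
    (h1 : ∀ a ∈ S, ∀ b ∈ S, ∀ c ∈ S, a ≠ b → a ≠ c → b ≠ c → cr a b c ≠ 0) {σ : ℝ}
    (hσ : σ = 1 ∨ σ = -1) {p q a0 : ℂ} (hp : p ∈ S) (hq : q ∈ S) (hpq : p ≠ q) (ha0 : a0 ∈ S)
    (hs0 : σ * cr p q a0 < 0) (he0 : EC S p a0) :
    ∃ a ∈ S, ∃ b ∈ S, σ * cr p q a < 0 ∧ 0 ≤ σ * cr p q b ∧ 0 < σ * cr p a b ∧ EC3 S p a b := by
  classical
  obtain ⟨a, ha, hmax⟩ := (S.filter fun z => σ * cr p q z < 0 ∧ EC S p z).exists_max_image
    (fun z => sp p q z / (-(σ * cr p q z))) ⟨a0, Finset.mem_filter.2 ⟨ha0, hs0, he0⟩⟩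
  rw [Finset.mem_filter] at ha
  obtain ⟨haS, hsa, hea⟩ := ha
  have hpa : p ≠ a := by
    rintro rfl
    have : cr p q p = 0 := by simp [cr]
    rw [this, mul_zero] at hsa
    exact lt_irrefl _ hsa
  obtain ⟨b, hb, hb2, hb3⟩ := next_sgn S h1 hσ hp haS hq hpa hea (by
    rw [cr_swap']
    linarith)
  refine ⟨a, haS, b, hb, hsa, ?_, hb2, hb3⟩
  by_contra hneg
  rw [not_le] at hneg
  have heb : EC S p b := by
    obtain ⟨o, r, f1, f2, f3, f4⟩ := hb3
    exact ⟨o, r, f1, f3, f4⟩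
  have h2 := hmax b (Finset.mem_filter.2 ⟨hb, hneg, heb⟩)
  have hx : 0 < -(σ * cr p q a) := by linarith
  have hy : 0 < -(σ * cr p q b) := by linarith
  have h3 : sp p q b * (-(σ * cr p q a)) ≤ sp p q a * (-(σ * cr p q b)) := by
    have := (div_le_div_iff₀ hy hx).1 h2
    exact this
  have hid : sp p q a * cr p q b - sp p q b * cr p q a = sq q p * cr p a b := by
    simp only [G9a.sq, sp, cr, Complex.sub_re, Complex.sub_im]
    ring
  have hn : 0 < sq q p := by
    have h4 : sq q p ≠ 0 := by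
      intro h0
      apply hpq
      have h5 : (q.re - p.re) ^ 2 = 0 := by
        unfold G9a.sq at h0
        nlinarith [sq_nonneg (q.re - p.re), sq_nonneg (q.im - p.im)]
      have h6 : (q.im - p.im) ^ 2 = 0 := by
        unfold G9a.sq at h0
        nlinarith [sq_nonneg (q.re - p.re), sq_nonneg (q.im - p.im)]
      have h7 : q.re - p.re = 0 := by simpa using h5
      have h8 : q.im - p.im = 0 := by simpa using h6
      apply Complex.ext <;> linarith
    exact lt_of_le_of_ne (sq_nonneg' q p) (Ne.symm h4)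
  have h5 : 0 < sq q p * (σ * cr p a b) := mul_pos hn hb2
  have h6 : sq q p * (σ * cr p a b) = σ * (sp p q a * cr p q b - sp p q b * cr p q a) := by
    rw [hid]
    ring
  rw [h6] at h5
  linarith

end G9b

open G9a G9b

theorem DSys.of_general (S : Finset ℂ)
    (h1 : ∀ a ∈ S, ∀ b ∈ S, ∀ c ∈ S, a ≠ b → a ≠ c → b ≠ c → cr a b c ≠ 0) :
    DSys S (fun a b c => a ∈ S ∧ b ∈ S ∧ c ∈ S ∧ cr a b c ≠ 0 ∧
        ∃ (o : ℂ) (r : ℝ), dist o a = r ∧ dist o b = r ∧ dist o c = r ∧ ∀ s ∈ S, r ≤ dist o s)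
      (fun a b => a ≠ b ∧ a ∈ S ∧ b ∈ S ∧
        ∃ (o : ℂ) (r : ℝ), dist o a = r ∧ dist o b = r ∧ ∀ s ∈ S, r ≤ dist o s) := by
  refine ⟨?_, ?_, ?_, ?_, ?_, ?_, ?_, ?_⟩
  · rintro a b c ⟨ha, -⟩
    exact ha
  · rintro a b c ⟨ha, hb, hc, hn, o, r, e1, e2, e3, e4⟩
    refine ⟨hb, ha, hc, ?_, o, r, e2, e1, e3, e4⟩
    rw [cr_swap]
    exact neg_ne_zero.2 hn
  · rintro a b c ⟨ha, hb, hc, hn, o, r, e1, e2, e3, e4⟩
    refine ⟨hb, hc, ha, ?_, o, r, e2, e3, e1, e4⟩
    rw [cr_rot]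
    exact hn
  · rintro a b c ⟨ha, hb, hc, hn, o, r, e1, e2, e3, e4⟩
    exact ⟨(ne_of_cr hn).1, ha, hb, o, r, e1, e2, e4⟩
  · rintro a b c ⟨ha, hb, hc, hn, -⟩
    exact hn
  · rintro a b c ⟨ha, hb, hc, hn, o, r, e1, e2, e3, e4⟩ o' r' f1 f2 f3 s hs
    have h := centre_unique hn (sq_eq_of_dist e1 e2) (sq_eq_of_dist e1 e3) (sq_eq_of_dist f1 f2)
      (sq_eq_of_dist f1 f3)
    subst h
    rw [← f1, e1]
    exact e4 s hs
  · rintro a b c ⟨ha, hb, hc, hn, o, r, e1, e2, e3, e4⟩ s hs hsc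
    have hab := (ne_of_cr hn).1
    rcases lt_or_gt_of_ne hn with h | h
    · -- `cr a b c < 0`
      have hs2 : 0 < cr a b s := by
        by_contra h3
        rw [not_lt] at h3
        nlinarith
      obtain ⟨c', hc', k1, k2⟩ := next_sgn S h1 (Or.inl rfl) ha hb hs hab
        ⟨o, r, e1, e2, e4⟩ (by linarith)
      rw [one_mul] at k1
      exact ⟨c', ⟨ha, hb, hc', k1.ne', k2⟩, mul_neg_of_pos_of_neg k1 h⟩
    · have hs2 : cr a b s < 0 := by
        by_contra h3
        rw [not_lt] at h3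
        nlinarith
      obtain ⟨c', hc', k1, k2⟩ := next_sgn S h1 (Or.inr rfl) ha hb hs hab
        ⟨o, r, e1, e2, e4⟩ (by linarith)
      have k3 : cr a b c' < 0 := by linarith
      exact ⟨c', ⟨ha, hb, hc', k3.ne, k2⟩, mul_neg_of_neg_of_pos k3 h⟩
  · intro p hp q hq hpq
    obtain ⟨a0, ha0, hsp, he⟩ := exists_nb S hq hpq
    by_cases haq : a0 = q
    · left
      subst haq
      exact ⟨hpq, hp, hq, he⟩
    right
    have hpa : p ≠ a0 := by
      rintro rfl
      have : sp p q p = 0 := by simp [sp]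
      rw [this] at hsp
      exact lt_irrefl _ hsp
    have hc := h1 p hp q hq a0 ha0 hpq hpa (Ne.symm haq)
    rcases lt_or_gt_of_ne hc with h | h
    · obtain ⟨a, ha, b, hb, k1, k2, k3, k4⟩ := start_sgn S h1 (Or.inl rfl) hp hq hpq ha0
        (by linarith) he
      rw [one_mul] at k1 k2 k3
      refine ⟨a, b, ⟨hp, ha, hb, k3.ne', k4⟩, k3, ?_, k2⟩
      rw [cr_swap']
      linarith
    · obtain ⟨a, ha, b, hb, k1, k2, k3, k4⟩ := start_sgn S h1 (Or.inr rfl) hp hq hpq ha0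
        (by linarith) he
      obtain ⟨o, r, f1, f2, f3, f4⟩ := k4
      have k5 : 0 < cr p b a := by
        rw [cr_swap']
        linarith
      refine ⟨b, a, ⟨hp, hb, ha, k5.ne', o, r, f1, f3, f2, f4⟩, k5, ?_, ?_⟩
      · rw [cr_swap']
        linarith
      · linarith

end DT
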