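import Pool.Agent.Work.MP_74021c_co.TMSpec

/-!
# T1b: shift and mask

General tools (`T1bAux`): base `2^96` digits, `testBit` of a number given by digits, and the
translation of sums over `E` into sums over positions.
-/

namespace DT.TM

namespace T1bAux

/-- the number with the base `2^96` digits `f 0, ..., f (n-1)` -/
def num (f : ℕ → ℕ) (n : ℕ) : ℕ := ∑ j ∈ Finset.range n, f j * 2 ^ (96 * j)

theorem num_lt {f : ℕ → ℕ} (hf : ∀ j, f j < 2 ^ 96) (n : ℕ) : num f n < 2 ^ (96 * n) := by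
  induction n with
  | zero => simp [num]
  | succ n ih =>
    have h1 : num f (n + 1) = num f n + f n * 2 ^ (96 * n) := Finset.sum_range_succ _ _
    rw [h1]
    have h2 : f n + 1 ≤ 2 ^ 96 := hf n
    have h3 : (f n + 1) * 2 ^ (96 * n) ≤ 2 ^ 96 * 2 ^ (96 * n) := Nat.mul_le_mul_right _ h2
    have h4 : 2 ^ (96 * (n + 1)) = 2 ^ 96 * 2 ^ (96 * n) := by
      rw [← pow_add]; congr 1; ring
    rw [h4]
    calc num f n + f n * 2 ^ (96 * n) < 2 ^ (96 * n) + f n * 2 ^ (96 * n) := by omega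
      _ = (f n + 1) * 2 ^ (96 * n) := by ring
      _ ≤ _ := h3

theorem num_testBit {f : ℕ → ℕ} (hf : ∀ j, f j < 2 ^ 96) (n i : ℕ) :
    (num f n).testBit i = (decide (i / 96 < n) && (f (i / 96)).testBit (i % 96)) := by
  induction n with
  | zero => simp [num]
  | succ n ih =>
    have h1 : num f (n + 1) = 2 ^ (96 * n) * f n + num f n := by
      unfold num
      rw [Finset.sum_range_succ]
      ring
    rw [h1, Nat.testBit_two_pow_mul_add _ (num_lt hf n), ih]
    by_cases hi : i < 96 * n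
    · have h2 : i / 96 < n := by omega
      have h3 : i / 96 < n + 1 := by omega
      simp [hi, h2, h3]
    · by_cases hi' : i < 96 * n + 96
      · have h2 : i / 96 = n := by omega
        have h3 : i - 96 * n = i % 96 := by omega
        simp [hi, h2, h3]
      · have h2 : ¬ (i / 96 < n + 1) := by omega
        have h3 : (f n).testBit (i - 96 * n) = false := by
          apply Nat.testBit_lt_two_pow
          exact lt_of_lt_of_le (hf n) (Nat.pow_le_pow_right (by norm_num) (by omega))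
        simp [hi, h2, h3]

theorem ps_inj : ∀ m ∈ E, ∀ m' ∈ E, ps m = ps m' → m = m' := by decide +kernel

theorem ps_lt : ∀ m ∈ E, ps m < 52 := by decide +kernel

/-- the digit at the position `j` -/
def dig (D : ℕ × ℕ × ℕ → ℕ) (j : ℕ) : ℕ := ∑ m ∈ E.filter (fun m => ps m = j), D m

theorem dig_ps (D : ℕ × ℕ × ℕ → ℕ) {m : ℕ × ℕ × ℕ} (hm : m ∈ E) : dig D (ps m) = D m := by
  have h : E.filter (fun m' => ps m' = ps m) = {m} := by
    ext m'
    simp only [Finset.mem_filter, Finset.mem_singleton]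
    constructor
    · rintro ⟨h1, h2⟩
      exact ps_inj m' h1 m hm h2
    · rintro rfl
      exact ⟨hm, rfl⟩
  unfold dig
  rw [h, Finset.sum_singleton]

theorem dig_of_not (D : ℕ × ℕ × ℕ → ℕ) {j : ℕ} (hj : ¬ ∃ m ∈ E, ps m = j) : dig D j = 0 := by
  unfold dig
  apply Finset.sum_eq_zero
  intro m hm
  obtain ⟨h1, h2⟩ := Finset.mem_filter.1 hm
  exact absurd ⟨m, h1, h2⟩ hj

theorem dig_lt {D : ℕ × ℕ × ℕ → ℕ} {B : ℕ} (hB : 0 < B) (hD : ∀ m ∈ E, D m < B) (j : ℕ) :
    dig D j < B := by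
  by_cases h : ∃ m ∈ E, ps m = j
  · obtain ⟨m, hm, rfl⟩ := h
    rw [dig_ps D hm]
    exact hD m hm
  · rw [dig_of_not D h]
    exact hB

/-- a function of the digits -/
theorem dig_comp (F : ℕ → ℕ) (hF : F 0 = 0) (D : ℕ × ℕ × ℕ → ℕ) (j : ℕ) :
    dig (fun m => F (D m)) j = F (dig D j) := by
  by_cases h : ∃ m ∈ E, ps m = j
  · obtain ⟨m, hm, rfl⟩ := h
    rw [dig_ps _ hm, dig_ps D hm]
  · rw [dig_of_not _ h, dig_of_not D h, hF]

theorem sum_eq_num (D : ℕ × ℕ × ℕ → ℕ) :
    ∑ m ∈ E, D m * 2 ^ (96 * ps m) = num (dig D) 52 := by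
  have h1 : ∀ m ∈ E, ps m ∈ Finset.range 52 := fun m hm => Finset.mem_range.2 (ps_lt m hm)
  rw [← Finset.sum_fiberwise_of_maps_to h1]
  unfold num dig
  refine Finset.sum_congr rfl fun j _ => ?_
  rw [Finset.sum_mul]
  refine Finset.sum_congr rfl fun m hm => ?_
  rw [(Finset.mem_filter.1 hm).2]

theorem I_num : I = ∑ m ∈ E, 1 * 2 ^ (96 * ps m) := by decide +kernel

theorem MASK_num : MASK = ∑ m ∈ E, (2 ^ 58 - 1) * 2 ^ (96 * ps m) := by decide +kernel

end T1bAux

open T1bAux in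
theorem shift_mask (D : ℕ × ℕ × ℕ → ℕ) (hD : ∀ m ∈ E, D m < 2 ^ 96) (K : ℕ) :
    Nat.land (Nat.shiftRight ((∑ m ∈ E, D m * 2 ^ (96 * ps m)) + 2 ^ (96 * 52) * K) 38) MASK =
      ∑ m ∈ E, (D m / 2 ^ 38) * 2 ^ (96 * ps m) := by
  have hdig : ∀ j, dig D j < 2 ^ 96 := dig_lt (by positivity) hD
  have hdig2 : ∀ j, dig (fun m => D m / 2 ^ 38) j < 2 ^ 58 := by
    apply dig_lt (by positivity)
    intro m hm
    have := hD m hm
    rw [Nat.div_lt_iff_lt_mul (by positivity), ← pow_add]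
    exact this
  have hdig3 : ∀ j, dig (fun m => D m / 2 ^ 38) j < 2 ^ 96 := fun j =>
    lt_of_lt_of_le (hdig2 j) (Nat.pow_le_pow_right (by norm_num) (by norm_num))
  have hM : ∀ j, dig (fun _ => 2 ^ 58 - 1) j < 2 ^ 96 := by
    apply dig_lt (by positivity)
    intro m _
    norm_num
  rw [MASK_num, sum_eq_num D, sum_eq_num (fun _ => 2 ^ 58 - 1), sum_eq_num (fun m => D m / 2 ^ 38)]
  apply Nat.eq_of_testBit_eq
  intro i
  have h0 : Nat.land (Nat.shiftRight (num (dig D) 52 + 2 ^ (96 * 52) * K) 38)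
      (num (dig fun _ => 2 ^ 58 - 1) 52) =
      ((2 ^ (96 * 52) * K + num (dig D) 52) >>> 38) &&& (num (dig fun _ => 2 ^ 58 - 1) 52) := by
    rw [add_comm]
    rfl
  rw [h0, Nat.testBit_and, Nat.testBit_shiftRight,
    Nat.testBit_two_pow_mul_add _ (num_lt hdig 52), num_testBit hdig, num_testBit hM,
    num_testBit hdig3]
  by_cases hi : i / 96 < 52
  · by_cases hb : i % 96 < 58
    · have h1 : (38 + i) / 96 = i / 96 := by omega
      have h2 : (38 + i) % 96 = 38 + i % 96 := by omega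
      have h3 : 38 + i < 96 * 52 := by omega
      rw [if_pos h3, h1, h2]
      by_cases hm : ∃ m ∈ E, ps m = i / 96
      · obtain ⟨m, hm, hm'⟩ := hm
        rw [← hm', dig_ps D hm, dig_ps _ hm, dig_ps _ hm, Nat.testBit_two_pow_sub_one,
          Nat.testBit_div_two_pow]
        simp [hb, hm', hi, add_comm]
      · rw [dig_of_not _ hm, dig_of_not _ hm, dig_of_not _ hm]
        simp
    · have h4 : (dig (fun m => D m / 2 ^ 38) (i / 96)).testBit (i % 96) = false := by
        apply Nat.testBit_lt_two_pow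
        exact lt_of_lt_of_le (hdig2 _) (Nat.pow_le_pow_right (by norm_num) (by omega))
      have h5 : (dig (fun _ => 2 ^ 58 - 1) (i / 96)).testBit (i % 96) = false := by
        apply Nat.testBit_lt_two_pow
        refine lt_of_lt_of_le (dig_lt (B := 2 ^ 58) (by positivity) ?_ _)
          (Nat.pow_le_pow_right (by norm_num) (by omega))
        intro m _
        norm_num
      rw [h4, h5]
      simp
  · simp [hi]

end DT.TM
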