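import Pool.Agent.Work.MP_74021c_co.TMSpec

/-!
# The table of the sines and cosines of `j / 128 - 2`, `j < 800`

A kernel computation rotates `(1, 0)` by the angle `1 / 128` with numbers of 80 bits and compares every
entry of the table with the result.
-/

open Real

namespace DT.TM

namespace Tab

theorem force_eq (n : ℕ) (f : ℕ → Bool) : force n f = f n := by cases n <;> rfl

theorem nmul (a b : ℕ) : Nat.mul a b = a * b := rfl
theorem nadd (a b : ℕ) : Nat.add a b = a + b := rfl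
theorem nsub (a b : ℕ) : Nat.sub a b = a - b := rfl
theorem ndiv (a b : ℕ) : Nat.div a b = a / b := rfl

/-- `cos (1/128) 2^80` and `sin (1/128) 2^80` -/
def cq : ℕ := 1208888926314131358302260
def sq : ℕ := 9444636889240442531463
/-- `2^81` -/
def P81 : ℕ := 2417851639229258349412352
def P82 : ℕ := 4835703278458516698824704
def P80 : ℕ := 1208925819614629174706176
def P42 : ℕ := 4398046511104
/-- `2^42 - 2^40` -/
def W : ℕ := 3298534883328
/-- `2^81 (sq - cq) + 2^161` -/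
def K1 : ℕ := 22924933311660350309115288158639437777792401408
/-- `2^81 (cq + sq) - 2^161` -/
def K2 : ℕ := 22746528257489904298503508335763888008849260544

noncomputable def stX (X Y : ℕ) : ℕ := Nat.div (Nat.sub (Nat.add (Nat.mul X cq) K1) (Nat.mul Y sq)) P80
noncomputable def stY (X Y : ℕ) : ℕ := Nat.div (Nat.sub (Nat.add (Nat.mul Y cq) (Nat.mul X sq)) K2) P80

noncomputable def near (a b : ℕ) : Bool :=
  bif Nat.ble a (Nat.add b W) then Nat.ble b (Nat.add a W) else false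

noncomputable def get (t j : ℕ) : ℕ := Nat.mod (Nat.shiftRight t (Nat.mul 48 j)) 281474976710656

noncomputable def test (i X Y : ℕ) : Bool :=
  force (Nat.mul (get TS (Nat.add 256 i)) P42) fun s =>
  bif near Y s then
    force (Nat.mul (get TC (Nat.add 256 i)) P42) fun c =>
    bif near X c then
      bif Nat.ble i 256 then
        force (Nat.add Y (Nat.mul (get TS (Nat.sub 256 i)) P42)) fun s' =>
        bif near P82 s' then
          force (Nat.mul (get TC (Nat.sub 256 i)) P42) fun c' => near X c'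
        else false
      else true
    else false
  else false

noncomputable def loop (n : ℕ) : ℕ → ℕ → ℕ → Bool :=
  Nat.rec (fun _ _ _ => true)
    (fun _ ih i X Y => bif test i X Y then
      force (stX X Y) fun X' => force (stY X Y) fun Y' => force (Nat.succ i) fun i' => ih i' X' Y'
    else false) n

theorem loop_ok : loop 544 0 (Nat.add P81 P80) P81 = true := by decide +kernel

/-! ## the accuracy of the rotation -/

theorem exp_near : |cos (1 / 128) * 2 ^ 80 - (cq : ℝ)| ≤ 1 ∧ |sin (1 / 128) * 2 ^ 80 - (sq : ℝ)| ≤ 1 := by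
  have hx : ‖(((1 / 128 : ℝ) : ℂ) * Complex.I)‖ ≤ 1 := by
    rw [norm_mul, Complex.norm_I, mul_one, Complex.norm_real]; norm_num
  have h := Complex.exp_bound hx (n := 12) (by norm_num)
  have hn : ‖(((1 / 128 : ℝ) : ℂ) * Complex.I)‖ = 1 / 128 := by
    rw [norm_mul, Complex.norm_I, mul_one, Complex.norm_real]; norm_num
  rw [hn] at h
  set x : ℝ := 1 / 128 with hxd
  have hI2 : Complex.I ^ 2 = -1 := Complex.I_sq
  have hsum : ∑ m ∈ Finset.range 12, ((x : ℂ) * Complex.I) ^ m / (m.factorial : ℂ) =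
      ((1 - x ^ 2 / 2 + x ^ 4 / 24 - x ^ 6 / 720 + x ^ 8 / 40320 - x ^ 10 / 3628800 : ℝ) : ℂ) +
      ((x - x ^ 3 / 6 + x ^ 5 / 120 - x ^ 7 / 5040 + x ^ 9 / 362880 - x ^ 11 / 39916800 : ℝ) : ℂ) *
        Complex.I := by
    have h3 : Complex.I ^ 3 = -Complex.I := by rw [pow_succ, hI2]; ring
    have h4 : Complex.I ^ 4 = 1 := by rw [pow_succ, h3]; simp
    have h5 : Complex.I ^ 5 = Complex.I := by rw [pow_succ, h4]; ring
    have h6 : Complex.I ^ 6 = -1 := by rw [pow_succ, h5]; simp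
    have h7 : Complex.I ^ 7 = -Complex.I := by rw [pow_succ, h6]; ring
    have h8 : Complex.I ^ 8 = 1 := by rw [pow_succ, h7]; simp
    have h9 : Complex.I ^ 9 = Complex.I := by rw [pow_succ, h8]; ring
    have h10 : Complex.I ^ 10 = -1 := by rw [pow_succ, h9]; simp
    have h11 : Complex.I ^ 11 = -Complex.I := by rw [pow_succ, h10]; ring
    simp only [Finset.sum_range_succ, Finset.sum_range_zero, mul_pow, hI2, h3, h4, h5, h6, h7, h8,
      h9, h10, h11, Nat.factorial, pow_zero, pow_one]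
    push_cast
    ring
  rw [hsum] at h
  have hexp : Complex.exp ((x : ℂ) * Complex.I) = ((cos x : ℝ) : ℂ) + ((sin x : ℝ) : ℂ) * Complex.I := by
    rw [Complex.exp_mul_I]; push_cast; rfl
  rw [hexp] at h
  have hre := (Complex.abs_re_le_norm _).trans h
  have him := (Complex.abs_im_le_norm _).trans h
  simp only [Complex.sub_re, Complex.add_re, Complex.ofReal_re, Complex.mul_re, Complex.I_re,
    mul_zero, Complex.ofReal_im, Complex.I_im, mul_one, sub_zero, add_zero,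
    Complex.sub_im, Complex.add_im, Complex.mul_im, zero_add] at hre him
  rw [hxd] at hre him
  norm_num [Nat.factorial] at hre him
  rw [hxd]
  unfold cq sq
  rw [abs_le] at hre him ⊢
  rw [abs_le]
  norm_num
  refine ⟨⟨?_, ?_⟩, ?_, ?_⟩ <;> linarith [hre.1, hre.2, him.1, him.2]

theorem step_sound {X Y : ℕ} {θ ε : ℝ} (hε0 : 0 ≤ ε) (hε : ε ≤ 2 ^ 40)
    (hX : |((X : ℝ) - 2 ^ 81) - cos θ * 2 ^ 80| ≤ ε) (hY : |((Y : ℝ) - 2 ^ 81) - sin θ * 2 ^ 80| ≤ ε) :
    |((stX X Y : ℝ) - 2 ^ 81) - cos (θ + 1 / 128) * 2 ^ 80| ≤ 65 / 64 * ε + 4 ∧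
    |((stY X Y : ℝ) - 2 ^ 81) - sin (θ + 1 / 128) * 2 ^ 80| ≤ 65 / 64 * ε + 4 := by
  obtain ⟨hc, hs⟩ := exp_near
  have ha := abs_cos_le_one θ
  have hb := abs_sin_le_one θ
  rw [cos_add, sin_add]
  generalize cos (1 / 128 : ℝ) = C at *
  generalize sin (1 / 128 : ℝ) = S' at *
  generalize cos θ = a at *
  generalize sin θ = b at *
  obtain ⟨e1, he1⟩ : ∃ e1, C = (cq + e1) / 2 ^ 80 := ⟨C * 2 ^ 80 - cq, by field_simp; ring⟩
  obtain ⟨e2, he2⟩ : ∃ e2, S' = (sq + e2) / 2 ^ 80 := ⟨S' * 2 ^ 80 - sq, by field_simp; ring⟩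
  have h1 : |e1| ≤ 1 := by
    have : C * 2 ^ 80 - cq = e1 := by rw [he1]; field_simp; ring
    rwa [this] at hc
  have h2 : |e2| ≤ 1 := by
    have : S' * 2 ^ 80 - sq = e2 := by rw [he2]; field_simp; ring
    rwa [this] at hs
  clear hc hs
  have q : ∀ p r : ℝ, |p| ≤ 1 → |r| ≤ 1 → |p * r| ≤ 1 := fun p r hp hr => by
    rw [abs_mul]; exact mul_le_one₀ hp (abs_nonneg _) hr
  have q1 := abs_le.1 (q a e1 ha h1)
  have q2 := abs_le.1 (q b e2 hb h2)
  have q3 := abs_le.1 (q b e1 hb h1)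
  have q4 := abs_le.1 (q a e2 ha h2)
  obtain ⟨x, hx⟩ : ∃ x : ℝ, (X : ℝ) = 2 ^ 81 + x := ⟨X - 2 ^ 81, by ring⟩
  obtain ⟨y, hy⟩ : ∃ y : ℝ, (Y : ℝ) = 2 ^ 81 + y := ⟨Y - 2 ^ 81, by ring⟩
  rw [hx] at hX
  rw [hy] at hY
  have hX1 := abs_le.1 hX
  have hY1 := abs_le.1 hY
  have ha1 := abs_le.1 ha
  have hb1 := abs_le.1 hb
  have b1 : x ≤ 2 ^ 80 + 2 ^ 40 := by linarith [hX1.2, ha1.2]
  have b2 : -(2 ^ 80 + 2 ^ 40) ≤ x := by linarith [hX1.1, ha1.1]
  have b3 : y ≤ 2 ^ 80 + 2 ^ 40 := by linarith [hY1.2, hb1.2]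
  have b4 : -(2 ^ 80 + 2 ^ 40) ≤ y := by linarith [hY1.1, hb1.1]
  have hA : Y * sq ≤ X * cq + K1 := by
    have : ((Y * sq : ℕ) : ℝ) ≤ ((X * cq + K1 : ℕ) : ℝ) := by
      push_cast
      rw [hx, hy]
      unfold sq cq K1
      norm_num at b1 b2 b3 b4 ⊢
      linarith
    exact_mod_cast this
  have hB : K2 ≤ Y * cq + X * sq := by
    have : ((K2 : ℕ) : ℝ) ≤ ((Y * cq + X * sq : ℕ) : ℝ) := by
      push_cast
      rw [hx, hy]
      unfold sq cq K2
      norm_num at b1 b2 b3 b4 ⊢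
      linarith
    exact_mod_cast this
  have eX : stX X Y = (X * cq + K1 - Y * sq) / P80 := by
    simp only [stX, nmul, nadd, nsub, ndiv]
  have eY : stY X Y = (Y * cq + X * sq - K2) / P80 := by
    simp only [stY, nmul, nadd, nsub, ndiv]
  have fX1 : (stX X Y : ℝ) * P80 ≤ x * cq - y * sq + 2 ^ 161 := by
    have := Nat.div_mul_le_self (X * cq + K1 - Y * sq) P80
    rw [← eX] at this
    have h3 : ((stX X Y * P80 : ℕ) : ℝ) ≤ ((X * cq + K1 - Y * sq : ℕ) : ℝ) := by exact_mod_cast this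
    rw [Nat.cast_sub hA] at h3
    push_cast at h3
    rw [hx, hy] at h3
    unfold sq cq K1 at *
    norm_num at h3 ⊢
    linarith
  have fX2 : x * cq - y * sq + 2 ^ 161 ≤ (stX X Y : ℝ) * P80 + P80 := by
    have := (Nat.lt_div_mul_add (b := P80) (by decide) : X * cq + K1 - Y * sq < _)
    rw [← eX] at this
    have h3 : ((X * cq + K1 - Y * sq : ℕ) : ℝ) ≤ ((stX X Y * P80 + P80 : ℕ) : ℝ) := by
      exact_mod_cast this.le
    rw [Nat.cast_sub hA] at h3
    push_cast at h3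
    rw [hx, hy] at h3
    unfold sq cq K1 at *
    norm_num at h3 ⊢
    linarith
  have fY1 : (stY X Y : ℝ) * P80 ≤ y * cq + x * sq + 2 ^ 161 := by
    have := Nat.div_mul_le_self (Y * cq + X * sq - K2) P80
    rw [← eY] at this
    have h3 : ((stY X Y * P80 : ℕ) : ℝ) ≤ ((Y * cq + X * sq - K2 : ℕ) : ℝ) := by exact_mod_cast this
    rw [Nat.cast_sub hB] at h3
    push_cast at h3
    rw [hx, hy] at h3
    unfold sq cq K2 at *
    norm_num at h3 ⊢
    linarith
  have fY2 : y * cq + x * sq + 2 ^ 161 ≤ (stY X Y : ℝ) * P80 + P80 := by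
    have := (Nat.lt_div_mul_add (b := P80) (by decide) : Y * cq + X * sq - K2 < _)
    rw [← eY] at this
    have h3 : ((Y * cq + X * sq - K2 : ℕ) : ℝ) ≤ ((stY X Y * P80 + P80 : ℕ) : ℝ) := by
      exact_mod_cast this.le
    rw [Nat.cast_sub hB] at h3
    push_cast at h3
    rw [hx, hy] at h3
    unfold sq cq K2 at *
    norm_num at h3 ⊢
    linarith
  clear eX eY hA hB
  rw [he1, he2]
  have k1 : (a * ((cq + e1) / 2 ^ 80) - b * ((sq + e2) / 2 ^ 80)) * 2 ^ 80 =
      a * cq - b * sq + a * e1 - b * e2 := by field_simp; ring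
  have k2 : (b * ((cq + e1) / 2 ^ 80) + a * ((sq + e2) / 2 ^ 80)) * 2 ^ 80 =
      b * cq + a * sq + b * e1 + a * e2 := by field_simp; ring
  rw [k1, k2]
  generalize (stX X Y : ℝ) = U at *
  generalize (stY X Y : ℝ) = V at *
  unfold sq cq P80 at *
  norm_num at hX1 hY1 fX1 fX2 fY1 fY2 ⊢
  obtain ⟨q1, q1'⟩ := q1
  obtain ⟨q2, q2'⟩ := q2
  obtain ⟨q3, q3'⟩ := q3
  obtain ⟨q4, q4'⟩ := q4
  constructor
  · rw [abs_le]; constructor <;> linarith
  · rw [abs_le]; constructor <;> linarith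

theorem err_le (i : ℕ) (hi : i ≤ 544) : 256 * ((65 / 64 : ℝ) ^ i - 1) ≤ 2 ^ 24 := by
  have h1 : (65 / 64 : ℝ) ^ i ≤ (65 / 64) ^ 544 := pow_le_pow_right₀ (by norm_num) hi
  have h3 : (65 / 64 : ℝ) ^ 34 ≤ 2 := by norm_num
  have h2 : (65 / 64 : ℝ) ^ 544 ≤ 2 ^ 16 := by
    rw [show 544 = 34 * 16 by norm_num, pow_mul]
    exact pow_le_pow_left₀ (by positivity) h3 16
  linarith

/-- the bounds for the entries `256 + i` and `256 - i` -/
def Good (i : ℕ) : Prop :=
  (|sin ((i : ℝ) / 128) * 2 ^ 38 + 2 ^ 39 - (get TS (256 + i) : ℕ)| ≤ 1 ∧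
   |cos ((i : ℝ) / 128) * 2 ^ 38 + 2 ^ 39 - (get TC (256 + i) : ℕ)| ≤ 1) ∧
  (i ≤ 256 → |-sin ((i : ℝ) / 128) * 2 ^ 38 + 2 ^ 39 - (get TS (256 - i) : ℕ)| ≤ 1 ∧
   |cos ((i : ℝ) / 128) * 2 ^ 38 + 2 ^ 39 - (get TC (256 - i) : ℕ)| ≤ 1)

theorem bif_true {p q : Bool} (h : (bif p then q else false) = true) : p = true ∧ q = true := by
  cases p <;> simp_all

theorem near_iff {a b : ℕ} (h : near a b = true) : |(a : ℝ) - b| ≤ W := by
  simp only [near, nadd] at h
  obtain ⟨h1, h2⟩ := bif_true h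
  have h3 : a ≤ b + W := Nat.le_of_ble_eq_true h1
  have h4 : b ≤ a + W := Nat.le_of_ble_eq_true h2
  have h3' : (a : ℝ) ≤ b + W := by exact_mod_cast h3
  have h4' : (b : ℝ) ≤ a + W := by exact_mod_cast h4
  rw [abs_le]; constructor <;> linarith

theorem bif_elim {b p q : Bool} (hb : b = true) (h : (bif b then p else q) = true) : p = true := by
  subst hb; exact h

theorem test_sound {i X Y : ℕ} (h : test i X Y = true)
    (hX : |((X : ℝ) - 2 ^ 81) - cos ((i : ℝ) / 128) * 2 ^ 80| ≤ 2 ^ 24)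
    (hY : |((Y : ℝ) - 2 ^ 81) - sin ((i : ℝ) / 128) * 2 ^ 80| ≤ 2 ^ 24) : Good i := by
  unfold Good
  simp only [test, force_eq, nmul, nadd, nsub] at h
  obtain ⟨h1, h⟩ := bif_true h
  obtain ⟨h2, h⟩ := bif_true h
  have h1' := near_iff h1
  have h2' := near_iff h2
  rw [Nat.cast_mul] at h1' h2'
  generalize cos ((i : ℝ) / 128) = a at *
  generalize sin ((i : ℝ) / 128) = b at *
  rw [abs_le] at hX hY h1' h2'
  refine ⟨⟨?_, ?_⟩, ?_⟩
  · unfold P42 W at h1'
    norm_num at h1' hY ⊢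
    rw [abs_le]; constructor <;> linarith [h1'.1, h1'.2, hY.1, hY.2]
  · unfold P42 W at h2'
    norm_num at h2' hX ⊢
    rw [abs_le]; constructor <;> linarith [h2'.1, h2'.2, hX.1, hX.2]
  · intro hi
    have hi' : Nat.ble i 256 = true := Nat.ble_eq_true_of_le hi
    obtain ⟨h3, h4⟩ := bif_true (bif_elim hi' h)
    have h3' := near_iff h3
    have h4' := near_iff h4
    rw [Nat.cast_add, Nat.cast_mul] at h3'
    rw [Nat.cast_mul] at h4'
    rw [abs_le] at h3' h4'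
    constructor
    · unfold P42 P82 W at h3'
      norm_num at h3' hY ⊢
      rw [abs_le]; constructor <;> linarith [h3'.1, h3'.2, hY.1, hY.2]
    · unfold P42 W at h4'
      norm_num at h4' hX ⊢
      rw [abs_le]; constructor <;> linarith [h4'.1, h4'.2, hX.1, hX.2]

theorem loop_sound (n : ℕ) : ∀ i X Y : ℕ, i + n ≤ 544 → loop n i X Y = true →
    |((X : ℝ) - 2 ^ 81) - cos ((i : ℝ) / 128) * 2 ^ 80| ≤ 256 * ((65 / 64 : ℝ) ^ i - 1) →
    |((Y : ℝ) - 2 ^ 81) - sin ((i : ℝ) / 128) * 2 ^ 80| ≤ 256 * ((65 / 64 : ℝ) ^ i - 1) →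
    ∀ k, i ≤ k → k < i + n → Good k := by
  induction n with
  | zero => intro i X Y _ _ _ _ k h1 h2; omega
  | succ n ih =>
    intro i X Y hi h hX hY k h1 h2
    have he : loop (n + 1) i X Y = bif test i X Y then
      force (stX X Y) fun X' => force (stY X Y) fun Y' => force (Nat.succ i) fun i' => loop n i' X' Y'
      else false := rfl
    rw [he] at h
    obtain ⟨ht, h⟩ := bif_true h
    simp only [force_eq] at h
    have hb := err_le i (by omega)
    rcases Nat.eq_or_lt_of_le h1 with rfl | h1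
    · exact test_sound ht (hX.trans hb) (hY.trans hb)
    · have h0 : 0 ≤ 256 * ((65 / 64 : ℝ) ^ i - 1) := (abs_nonneg _).trans hX
      obtain ⟨s1, s2⟩ := step_sound h0 (hb.trans (by norm_num)) hX hY
      have hc : ((Nat.succ i : ℕ) : ℝ) / 128 = (i : ℝ) / 128 + 1 / 128 := by push_cast; ring
      have hd : 65 / 64 * (256 * ((65 / 64 : ℝ) ^ i - 1)) + 4 = 256 * ((65 / 64 : ℝ) ^ (Nat.succ i) - 1) := by
        rw [Nat.succ_eq_add_one, pow_succ]; ring
      rw [hd, ← hc] at s1 s2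
      exact ih (Nat.succ i) (stX X Y) (stY X Y) (by omega) h s1 s2 k h1 (by omega)

theorem good (k : ℕ) (hk : k < 544) : Good k := by
  refine loop_sound 544 0 (Nat.add P81 P80) P81 le_rfl loop_ok ?_ ?_ k (Nat.zero_le _) (by omega)
  · have : ((Nat.add P81 P80 : ℕ) : ℝ) = 2 ^ 81 + 2 ^ 80 := by
      have : Nat.add P81 P80 = 2 ^ 81 + 2 ^ 80 := by decide +kernel
      rw [this]; norm_num
    rw [this]; norm_num
  · have : ((P81 : ℕ) : ℝ) = 2 ^ 81 := by
      have : P81 = 2 ^ 81 := by decide +kernel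
      rw [this]; norm_num
    rw [this]; norm_num

end Tab

theorem table (j : ℕ) (hj : j < 800) :
    |sin ((j : ℝ) / 128 - 2) * 2 ^ 38 + 2 ^ 39 - ((TS >>> (48 * j)) % 2 ^ 48 : ℕ)| ≤ 1 ∧
    |cos ((j : ℝ) / 128 - 2) * 2 ^ 38 + 2 ^ 39 - ((TC >>> (48 * j)) % 2 ^ 48 : ℕ)| ≤ 1 := by
  have hg : ∀ t, (t >>> (48 * j)) % 2 ^ 48 = Tab.get t j := fun t => by
    rw [show (2 : ℕ) ^ 48 = 281474976710656 by norm_num]; rfl
  rw [hg, hg]
  rcases le_or_gt 256 j with h | h
  · obtain ⟨i, rfl⟩ := Nat.exists_eq_add_of_le h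
    have := (Tab.good i (by omega)).1
    have e : ((256 + i : ℕ) : ℝ) / 128 - 2 = (i : ℝ) / 128 := by push_cast; ring
    rw [e]; exact this
  · obtain ⟨i, hi⟩ : ∃ i, i = 256 - j := ⟨_, rfl⟩
    have := (Tab.good i (by omega)).2 (by omega)
    have e : (j : ℝ) / 128 - 2 = -((i : ℝ) / 128) := by
      rw [hi, Nat.cast_sub h.le]; push_cast; ring
    have e2 : 256 - i = j := by omega
    rw [e2] at this
    rw [e, sin_neg, cos_neg]; exact this

end DT.TM
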