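import Mathlib

/-!
# Stretch factor of Delaunay triangulations: definitions

The plane is `ℂ`.  In the core argument the line `pq` is the real axis.  A circle meeting the real
axis in two points has centre `cx + i r sin w`, radius `r` with `|w| < π/2`; it meets the axis in
`cx ± r cos w`.  The points of its upper arc are
`(cx + r cos (2p - w), r sin w + r sin (2p - w))`, `0 ≤ p ≤ π/2 + w` (`p = 0` is the right
intersection), the points of its lower arc are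
`(cx + r cos (2q + w), r sin w - r sin (2q + w))`, `0 ≤ q ≤ π/2 - w`.
-/

open Real Set

namespace DT

/-- the parameter `w` of the circle with parameter `ω` of the pencil with parameters `κ`, `k` -/
noncomputable def W (κ k ω : ℝ) : ℝ := arcsin (k * sin ω + sin κ * cos ω)

/-- the (normalised) potential along a pencil of circles -/
noncomputable def Phi (t : ℝ) (lam : ℝ → ℝ) (f : ℝ → ℝ → ℝ → ℝ) (d κ k ω : ℝ) : ℝ :=
  lam (W κ k ω) * d + (t * cos ω * cos κ - t * cos (W κ k ω) +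
    f (W κ k ω) ((ω + W κ k ω - κ) / 2) ((ω - W κ k ω + κ) / 2)) / sin ω

/-- a potential proving the bound `t` -/
structure Pot (t : ℝ) where
  lam : ℝ → ℝ
  f : ℝ → ℝ → ℝ → ℝ
  lam0 : ∀ w, |w| < π / 2 → 0 ≤ lam w
  lam1 : ∀ w, |w| < π / 2 → lam w ≤ 1
  A : ∀ w p p' q, |w| < π / 2 → 0 ≤ p → p ≤ p' → p' ≤ π / 2 + w → 0 ≤ q → q ≤ π / 2 - w →
    2 * lam w * (p' - p) ≤ f w p' q - f w p q
  B : ∀ w p q q', |w| < π / 2 → 0 ≤ p → p ≤ π / 2 + w → 0 ≤ q → q ≤ q' → q' ≤ π / 2 - w →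
    2 * (1 - lam w) * (q' - q) ≤ f w p q' - f w p q
  C : ∀ d κ k, |d| ≤ 2 → |κ| < π / 2 → |k| < cos κ → AntitoneOn (Phi t lam f d κ k) (Ioo 0 π)
  start : ∀ w, |w| < π / 2 → f w (π / 2 + w) (π / 2 - w) ≤ 2 * t * cos w
  fin : ∀ w, |w| < π / 2 → 0 ≤ f w 0 0

/-- the value of the potential in a state -/
noncomputable def Pot.V {t : ℝ} (P : Pot t) (cx r w p q Da Db : ℝ) : ℝ :=
  P.lam w * Da + (1 - P.lam w) * Db - t * (cx + r * cos w) + r * P.f w p q

/-- `a` is a point of the upper arc with parameter `p`, `b` a point of the lower arc with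
parameter `q` of the circle `(cx, r, w)` -/
structure OnC (cx r w p q : ℝ) (a b : ℂ) : Prop where
  hr : 0 < r
  hw : |w| < π / 2
  hp0 : 0 ≤ p
  hp1 : p ≤ π / 2 + w
  hq0 : 0 ≤ q
  hq1 : q ≤ π / 2 - w
  are : a.re = cx + r * cos (2 * p - w)
  aim : a.im = r * sin w + r * sin (2 * p - w)
  bre : b.re = cx + r * cos (2 * q + w)
  bim : b.im = r * sin w - r * sin (2 * q + w)

/-- orientation of the triangle `a b c` -/
def cr (a b c : ℂ) : ℝ := (b - a).re * (c - a).im - (b - a).im * (c - a).re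

/-- `z` is reached from `p` by a path of `Adj` of length `D` -/
inductive Reach (Adj : ℂ → ℂ → Prop) (p : ℂ) : ℂ → ℝ → Prop
  | refl : Reach Adj p p 0
  | step {a b : ℂ} {D : ℝ} : Reach Adj p a D → Adj a b → Reach Adj p b (D + dist a b)

/-- a Delaunay system: triangles of points of `S` with empty circumcircles and enough of them -/
structure DSys (S : Finset ℂ) (Tri : ℂ → ℂ → ℂ → Prop) (Adj : ℂ → ℂ → Prop) : Prop where
  mem : ∀ a b c, Tri a b c → a ∈ S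
  swap : ∀ a b c, Tri a b c → Tri b a c
  rot : ∀ a b c, Tri a b c → Tri b c a
  adj : ∀ a b c, Tri a b c → Adj a b
  nondeg : ∀ a b c, Tri a b c → cr a b c ≠ 0
  empty : ∀ a b c, Tri a b c → ∀ (o : ℂ) (r : ℝ), dist o a = r → dist o b = r → dist o c = r →
    ∀ s ∈ S, r ≤ dist o s
  flip : ∀ a b c, Tri a b c → ∀ s ∈ S, cr a b s * cr a b c < 0 →
    ∃ c', Tri a b c' ∧ cr a b c' * cr a b c < 0
  start : ∀ p ∈ S, ∀ q ∈ S, p ≠ q →
    Adj p q ∨ ∃ a b, Tri p a b ∧ 0 < cr p a b ∧ 0 ≤ cr p a q ∧ 0 ≤ cr p q b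

/-- the expression whose sign is that of minus the derivative of the potential along a pencil -/
noncomputable def GG (t w p q f fw fp fq l : ℝ) : ℝ :=
  t * (cos (p - q) - cos (p + q)) + cos w * (f * cos (p + q) - (fp + fq) / 2 * sin (p + q)) -
    (fw + (fp - fq) / 2 + l * sin (p + q)) * (cos (p + q) * sin w - sin (w - p + q))

/-- a piece of a potential, valid for `lo ≤ w ≤ hi` -/
structure Piece (t lo hi : ℝ) (lam : ℝ → ℝ) (f : ℝ → ℝ → ℝ → ℝ) where
  l : ℝ → ℝ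
  l' : ℝ → ℝ
  g : ℝ → ℝ → ℝ → ℝ
  gw : ℝ → ℝ → ℝ → ℝ
  gp : ℝ → ℝ → ℝ → ℝ
  gq : ℝ → ℝ → ℝ → ℝ
  l_eq : ∀ w, |w| < π / 2 → lo ≤ w → w ≤ hi → lam w = l w
  g_eq : ∀ w p q, |w| < π / 2 → lo ≤ w → w ≤ hi → f w p q = g w p q
  l_der : ∀ w, |w| < π / 2 → HasDerivAt l (l' w) w
  g_der : ∀ (x : ℝ) (w p q : ℝ → ℝ) (w' p' q' : ℝ), |w x| < π / 2 →
    HasDerivAt w w' x → HasDerivAt p p' x → HasDerivAt q q' x →
    HasDerivAt (fun y => g (w y) (p y) (q y))
      (gw (w x) (p x) (q x) * w' + gp (w x) (p x) (q x) * p' + gq (w x) (p x) (q x) * q') x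
  ineq : ∀ d w p q, |d| ≤ 2 → |w| < π / 2 → lo ≤ w → w ≤ hi → 0 ≤ p → p ≤ π / 2 + w → 0 ≤ q →
    q ≤ π / 2 - w → 0 ≤ GG t w p q (g w p q) (gw w p q) (gp w p q) (gq w p q) (d * l' w)

end DT
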