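import Pool.Agent.Work.MP_74021c_co.Defs

/-!
# MP_74021c_co, item G5: the outer piece of the potential
-/

open Real Set

namespace DT

/-- the outer piece of the potential -/
noncomputable def outer (F β w p q : ℝ) : ℝ := cos w * (F + β * q / (π / 2 - w))

/-- concavity of the sine on `[0, π/2]` through the origin -/
theorem outer_sin_concave {θ y : ℝ} (h0 : 0 ≤ θ) (h1 : θ ≤ π / 2) (hy0 : 0 ≤ y) (hy1 : y ≤ 1) :
    y * sin θ ≤ sin (y * θ) := by
  have hc := strictConcaveOn_sin_Icc.concaveOn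
  have m0 : (0 : ℝ) ∈ Icc (0 : ℝ) π := ⟨le_rfl, pi_pos.le⟩
  have m1 : θ ∈ Icc (0 : ℝ) π := ⟨h0, by linarith [pi_pos]⟩
  have h := hc.2 m0 m1 (sub_nonneg.2 hy1) hy0 (sub_add_cancel 1 y)
  simpa using h

/-- the identity for the expression `GG` of the outer piece -/
theorem outer_identity (t F β w p q θ : ℝ) (hθ : θ = π / 2 - w) (l : ℝ) (hl : l = 0) :
    GG t w p q (cos w * (F + β * q / θ))
      (-sin w * (F + β * q / θ) + cos w * (β * q / θ ^ 2)) 0 (cos w * (β / θ)) l =
    (2 * t - (F + β * (q / θ))) * (sin p * sin q) +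
      (F + β * (q / θ)) * (sin (p + θ) * sin (θ - q)) -
      cos w * (β / θ) * ((1 - q / θ) * (sin (p + θ) * sin q) + q / θ * (sin p * sin (θ - q))) := by
  have e1 : sin (p + θ) = sin p * sin w + cos p * cos w := by
    rw [hθ, sin_add, sin_pi_div_two_sub, cos_pi_div_two_sub]
  have e2 : sin (θ - q) = cos w * cos q - sin w * sin q := by
    rw [hθ, sin_sub, sin_pi_div_two_sub, cos_pi_div_two_sub]
  have e3 : sin (w - p + q) = (sin w * cos p - cos w * sin p) * cos q +
      (cos w * cos p + sin w * sin p) * sin q := by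
    rw [sin_add, sin_sub, cos_sub]
  have hw : sin w ^ 2 + cos w ^ 2 = 1 := sin_sq_add_cos_sq w
  have ey : β * q / θ = β * (q / θ) := by ring
  have ey2 : β * q / θ ^ 2 = β / θ * (q / θ) := by rw [div_mul_div_comm, sq]
  unfold GG
  rw [hl, e1, e2, e3, cos_add, cos_sub, sin_add, ey, ey2]
  generalize q / θ = y
  generalize β / θ = b
  linear_combination (-(F + β * y) * (sin p * sin q)) * hw

/-- the inequality of the outer piece -/
theorem outer_ineq {t F β w p q : ℝ} (hF : 0 ≤ F) (hβ : 0 ≤ β) (ht : F + β ≤ 2 * t)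
    (hw0 : 0 ≤ w) (hw : w < π / 2) (hp0 : 0 ≤ p) (hp1 : p ≤ π / 2 + w) (hq0 : 0 ≤ q)
    (hq1 : q ≤ π / 2 - w) (l : ℝ) (hl : l = 0) :
    0 ≤ GG t w p q (cos w * (F + β * q / (π / 2 - w)))
      (-sin w * (F + β * q / (π / 2 - w)) + cos w * (β * q / (π / 2 - w) ^ 2)) 0
      (cos w * (β / (π / 2 - w))) l := by
  rw [outer_identity t F β w p q (π / 2 - w) rfl l hl]
  set θ := π / 2 - w with hθ
  have hθ0 : 0 < θ := by rw [hθ]; linarith
  have hθ1 : θ ≤ π / 2 := by rw [hθ]; linarith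
  have hcw : cos w = sin θ := by rw [hθ, sin_pi_div_two_sub]
  rw [hcw]
  obtain ⟨y, hy⟩ : ∃ y, y = q / θ := ⟨_, rfl⟩
  have hqy : q = y * θ := by rw [hy]; field_simp
  rw [← hy]
  have hy0 : 0 ≤ y := by rw [hy]; positivity
  have hy1 : y ≤ 1 := by rw [hy, div_le_one hθ0]; exact hq1
  have hc : 0 ≤ sin θ := sin_nonneg_of_nonneg_of_le_pi hθ0.le (by linarith [pi_pos])
  have hA1 : 0 ≤ sin p := sin_nonneg_of_nonneg_of_le_pi hp0 (by linarith [pi_pos])
  have hA2 : 0 ≤ sin (p + θ) := sin_nonneg_of_nonneg_of_le_pi (by linarith)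
    (by rw [hθ]; linarith [pi_pos])
  have hB1 : y * sin θ ≤ sin q := by
    rw [hqy]; exact outer_sin_concave hθ0.le hθ1 hy0 hy1
  have hB2 : (1 - y) * sin θ ≤ sin (θ - q) := by
    have h := outer_sin_concave hθ0.le hθ1 (sub_nonneg.2 hy1) (by linarith : 1 - y ≤ 1)
    have e : (1 - y) * θ = θ - q := by rw [hqy]; ring
    rwa [e] at h
  have hB1' : sin q ≤ y * θ := by rw [← hqy]; exact sin_le hq0
  have hB2' : sin (θ - q) ≤ (1 - y) * θ := by
    have e : (1 - y) * θ = θ - q := by rw [hqy]; ring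
    rw [e]; exact sin_le (by linarith)
  have hS : 0 ≤ F + β * y := by positivity
  have hS' : 0 ≤ 2 * t - (F + β * y) := by
    have : β * y ≤ β * 1 := mul_le_mul_of_nonneg_left hy1 hβ
    linarith
  have k1 : (2 * t - (F + β * y)) * (sin p * (y * sin θ)) ≤
      (2 * t - (F + β * y)) * (sin p * sin q) :=
    mul_le_mul_of_nonneg_left (mul_le_mul_of_nonneg_left hB1 hA1) hS'
  have k2 : (F + β * y) * (sin (p + θ) * ((1 - y) * sin θ)) ≤
      (F + β * y) * (sin (p + θ) * sin (θ - q)) :=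
    mul_le_mul_of_nonneg_left (mul_le_mul_of_nonneg_left hB2 hA2) hS
  have k3 : sin θ * (β / θ) * ((1 - y) * (sin (p + θ) * sin q) + y * (sin p * sin (θ - q))) ≤
      sin θ * (β / θ) * ((1 - y) * (sin (p + θ) * (y * θ)) + y * (sin p * ((1 - y) * θ))) := by
    refine mul_le_mul_of_nonneg_left ?_ (mul_nonneg hc (div_nonneg hβ hθ0.le))
    exact add_le_add
      (mul_le_mul_of_nonneg_left (mul_le_mul_of_nonneg_left hB1' hA2) (sub_nonneg.2 hy1))
      (mul_le_mul_of_nonneg_left (mul_le_mul_of_nonneg_left hB2' hA1) hy0)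
  have k4 : sin θ * (β / θ) * ((1 - y) * (sin (p + θ) * (y * θ)) + y * (sin p * ((1 - y) * θ))) =
      sin θ * β * ((1 - y) * y * (sin (p + θ) + sin p)) := by
    field_simp
  have k5 : 0 ≤ sin θ * (sin p * y * (2 * t - F - β) + sin (p + θ) * (1 - y) * F) := by
    refine mul_nonneg hc (add_nonneg (mul_nonneg (mul_nonneg hA1 hy0) (by linarith))
      (mul_nonneg (mul_nonneg hA2 (sub_nonneg.2 hy1)) hF))
  have k6 : sin θ * (sin p * y * (2 * t - F - β) + sin (p + θ) * (1 - y) * F) =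
      (2 * t - (F + β * y)) * (sin p * (y * sin θ)) +
      (F + β * y) * (sin (p + θ) * ((1 - y) * sin θ)) -
      sin θ * β * ((1 - y) * y * (sin (p + θ) + sin p)) := by
    ring
  linarith

/-- the outer piece of the potential: `lam = 0`, `f w p q = cos w (F + β q / (π/2 - w))` -/
noncomputable def outerPiece (t F β lo : ℝ) (hF : 0 ≤ F) (hβ : 0 ≤ β) (ht : F + β ≤ 2 * t)
    (lam : ℝ → ℝ) (f : ℝ → ℝ → ℝ → ℝ) (hlo : 0 ≤ lo)
    (hl : ∀ w, |w| < π / 2 → lo ≤ w → lam w = 0)
    (hf : ∀ w p q, |w| < π / 2 → lo ≤ w → f w p q = outer F β w p q) :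
    Piece t lo (π / 2) lam f where
  l := fun _ => 0
  l' := fun _ => 0
  g := outer F β
  gw := fun w _ q => -sin w * (F + β * q / (π / 2 - w)) + cos w * (β * q / (π / 2 - w) ^ 2)
  gp := fun _ _ _ => 0
  gq := fun w _ _ => cos w * (β / (π / 2 - w))
  l_eq := fun w hw h _ => hl w hw h
  g_eq := fun w p q hw h _ => hf w p q hw h
  l_der := fun w _ => hasDerivAt_const w 0
  g_der := by
    intro x w p q w' p' q' hw h1 _ h3
    have hθ : π / 2 - w x ≠ 0 := by
      have := (abs_lt.1 hw).2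
      linarith
    have hd : HasDerivAt (fun y => β * q y / (π / 2 - w y))
        ((β * q' * (π / 2 - w x) - β * q x * (-w')) / (π / 2 - w x) ^ 2) x := by
      have ha : HasDerivAt (fun y => β * q y) (β * q') x := h3.const_mul β
      have hb : HasDerivAt (fun y => π / 2 - w y) (-w') x := by
        simpa using h1.const_sub (π / 2)
      exact ha.div hb hθ
    have hm : HasDerivAt (fun y => cos (w y) * (F + β * q y / (π / 2 - w y)))
        (-sin (w x) * w' * (F + β * q x / (π / 2 - w x)) + cos (w x) *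
          ((β * q' * (π / 2 - w x) - β * q x * (-w')) / (π / 2 - w x) ^ 2)) x :=
      (h1.cos).mul (hd.const_add F)
    refine hm.congr_deriv ?_
    have e1 : (β * q' * (π / 2 - w x) - β * q x * (-w')) / (π / 2 - w x) ^ 2 =
        β / (π / 2 - w x) * q' + β * q x / (π / 2 - w x) ^ 2 * w' := by
      generalize π / 2 - w x = θ at *
      field_simp
      ring
    rw [e1]
    ring
  ineq := by
    intro d w p q _ hw hlow _ hp0 hp1 hq0 hq1
    exact outer_ineq hF hβ ht (hlo.trans hlow) (abs_lt.1 hw).2 hp0 hp1 hq0 hq1 (d * 0)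
      (mul_zero d)

end DT
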