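import Pool.Agent.Work.MP_74021c_co.Defs

/-!
# G6: the mirror image of a piece of a potential
-/

open Real Set

namespace DT

theorem GG_mirror (t w p q f fw fp fq l : ℝ) :
    GG t w p q f (-fw) fq fp l = GG t (-w) q p f fw fp fq (-l) := by
  unfold GG
  have h1 : cos (q - p) = cos (p - q) := by rw [← cos_neg, neg_sub]
  have h2 : sin (-w - q + p) = - sin (w - p + q) := by
    rw [← sin_neg]; congr 1; ring
  rw [h1, h2, sin_neg, cos_neg, add_comm q p]
  ring

noncomputable def Piece.mirror {t lo hi : ℝ} {lam : ℝ → ℝ} {f : ℝ → ℝ → ℝ → ℝ}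
    (P : Piece t lo hi lam f) :
    Piece t (-hi) (-lo) (fun w => 1 - lam (-w)) (fun w p q => f (-w) q p) where
  l := fun w => 1 - P.l (-w)
  l' := fun w => P.l' (-w)
  g := fun w p q => P.g (-w) q p
  gw := fun w p q => -P.gw (-w) q p
  gp := fun w p q => P.gq (-w) q p
  gq := fun w p q => P.gp (-w) q p
  l_eq := by
    intro w hw h1 h2
    show 1 - lam (-w) = 1 - P.l (-w)
    rw [P.l_eq (-w) (by rwa [abs_neg]) (by linarith) (by linarith)]
  g_eq := by
    intro w p q hw h1 h2
    exact P.g_eq (-w) q p (by rwa [abs_neg]) (by linarith) (by linarith)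
  l_der := by
    intro w hw
    have h := P.l_der (-w) (by rwa [abs_neg])
    have h2 := (h.comp w (hasDerivAt_neg w)).const_sub 1
    rw [mul_neg_one, neg_neg] at h2
    exact h2
  g_der := by
    intro x w p q w' p' q' hx hw hp hq
    have h := P.g_der x (fun y => -w y) q p (-w') q' p' (by simpa using hx) hw.neg hq hp
    convert h using 1
    ring
  ineq := by
    intro d w p q hd hw h1 h2 hp0 hp1 hq0 hq1
    have h := P.ineq (-d) (-w) q p (by rwa [abs_neg]) (by rwa [abs_neg]) (by linarith)
      (by linarith) hq0 (by linarith) hp0 (by linarith)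
    show 0 ≤ GG t w p q (P.g (-w) q p) (-P.gw (-w) q p) (P.gq (-w) q p) (P.gp (-w) q p)
      (d * P.l' (-w))
    rw [GG_mirror]
    rwa [neg_mul] at h

end DT
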