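import Pool.Agent.Work.MP_74021c_co.Cand
import Pool.Agent.Work.MP_74021c_co.Bd.B01
import Pool.Agent.Work.MP_74021c_co.G5
import Pool.Agent.Work.MP_74021c_co.G6

/-!
# G12: the potential for `t = 8/5` from the certified inequalities
-/

open Real Set

namespace DT.Cand

theorem Hc_der (c : Fin 10 → ℤ) {ω κ : ℝ → ℝ} {ω' κ' x : ℝ} (h1 : HasDerivAt ω ω' x)
    (h2 : HasDerivAt κ κ' x) :
    HasDerivAt (fun y => Hc c (ω y) (κ y))
      (Hco c (ω x) (κ x) * ω' + Hck c (ω x) (κ x) * κ') x := by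
  have a1 := h2.const_mul (c 1 : ℝ)
  have a2 := (h2.pow 2).const_mul (c 2 : ℝ)
  have a3 := (h2.pow 3).const_mul (c 3 : ℝ)
  have a4 := h1.const_mul (c 4 : ℝ)
  have a5 := (h1.mul h2).const_mul (c 5 : ℝ)
  have a6 := (h1.mul (h2.pow 2)).const_mul (c 6 : ℝ)
  have a7 := (h1.pow 2).const_mul (c 7 : ℝ)
  have a8 := ((h1.pow 2).mul h2).const_mul (c 8 : ℝ)
  have a9 := (h1.pow 3).const_mul (c 9 : ℝ)
  have a := ((((((((a1.const_add (c 0 : ℝ)).add a2).add a3).add a4).add a5).add a6).add a7).add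
    a8).add a9
  refine ((a.div_const 67108864).congr_deriv ?_)
  unfold Hco Hck
  simp only [Pi.pow_apply]
  push_cast
  ring

theorem H_der {s ω κ : ℝ → ℝ} {s' ω' κ' x : ℝ} (h0 : HasDerivAt s s' x) (h1 : HasDerivAt ω ω' x)
    (h2 : HasDerivAt κ κ' x) :
    HasDerivAt (fun y => H (s y) (ω y) (κ y))
      (Hs (s x) (ω x) (κ x) * s' + Ho (s x) (ω x) (κ x) * ω' + Hk (s x) (ω x) (κ x) * κ') x := by
  have a0 := Hc_der (C 0) h1 h2
  have a1 := Hc_der (C 1) h1 h2
  have a2 := Hc_der (C 2) h1 h2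
  have a3 := Hc_der (C 3) h1 h2
  have a4 := Hc_der (C 4) h1 h2
  have a := a0.add (h0.mul (a1.add (h0.mul (a2.add (h0.mul (a3.add (h0.mul a4)))))))
  refine a.congr_deriv ?_
  unfold Ho Hk Hs
  simp only [Pi.add_apply, Pi.mul_apply]
  ring

theorem g_der {s ω κ : ℝ → ℝ} {s' ω' κ' x : ℝ} (h0 : HasDerivAt s s' x) (h1 : HasDerivAt ω ω' x)
    (h2 : HasDerivAt κ κ' x) :
    HasDerivAt (fun y => g (s y) (ω y) (κ y))
      ((-H (s x) (ω x) (κ x) + (1 - s x) * Hs (s x) (ω x) (κ x)) * s' +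
        go (s x) (ω x) (κ x) * ω' + gk (s x) (ω x) (κ x) * κ') x := by
  have a := ((((h1.sub_const (5 / 4)).add h2).const_mul Bh).const_add A0).add
    ((h0.const_sub 1).mul (H_der h0 h1 h2))
  refine a.congr_deriv ?_
  unfold go gk
  ring

theorem l_der {s : ℝ → ℝ} {s' x : ℝ} (h0 : HasDerivAt s s' x) :
    HasDerivAt (fun y => l (s y)) (l' (s x) * s') x := by
  have a := ((h0.mul ((h0.mul ((h0.mul_const (L 3 : ℝ)).const_add (L 2 : ℝ))).const_add
    (L 1 : ℝ))).const_add (L 0 : ℝ)).div_const 67108864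
  refine a.congr_deriv ?_
  unfold l'
  simp only [Pi.mul_apply]
  ring

theorem lamS_der {s : ℝ → ℝ} {s' x : ℝ} (h0 : HasDerivAt s s' x) :
    HasDerivAt (fun y => lamS (s y)) (lamS' (s x) * s') x := by
  have a := (h0.const_sub 1).mul ((h0.mul (l_der h0)).const_add (1 / 2))
  refine a.congr_deriv ?_
  unfold lamS'
  simp only [Pi.mul_apply]
  ring

/-- the weight and the function in the inner region -/
noncomputable def lamIn (w : ℝ) : ℝ := lamS (4 * w / 5)
noncomputable def fIn (w p q : ℝ) : ℝ := g (4 * w / 5) (p + q) (w - p + q)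

theorem fIn_der {w p q : ℝ → ℝ} {w' p' q' x : ℝ} (hw : HasDerivAt w w' x)
    (hp : HasDerivAt p p' x) (hq : HasDerivAt q q' x) :
    HasDerivAt (fun y => fIn (w y) (p y) (q y))
      ((gw (4 * w x / 5) (p x + q x) (w x - p x + q x) +
          gk (4 * w x / 5) (p x + q x) (w x - p x + q x)) * w' +
        (go (4 * w x / 5) (p x + q x) (w x - p x + q x) -
          gk (4 * w x / 5) (p x + q x) (w x - p x + q x)) * p' +
        (go (4 * w x / 5) (p x + q x) (w x - p x + q x) +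
          gk (4 * w x / 5) (p x + q x) (w x - p x + q x)) * q') x := by
  have a := g_der ((hw.const_mul 4).div_const 5) (hp.add hq) ((hw.sub hp).add hq)
  refine a.congr_deriv ?_
  unfold gw
  simp only [Pi.add_apply, Pi.sub_apply]
  ring

theorem lamIn_der (w : ℝ) : HasDerivAt lamIn (4 / 5 * lamS' (4 * w / 5)) w := by
  have a := lamS_der (((hasDerivAt_id w).const_mul 4).div_const 5)
  refine a.congr_deriv ?_
  simp only [id]
  ring

theorem inner_par {w p q : ℝ} (h0 : 0 ≤ w) (h1 : w ≤ 5 / 4) (hp0 : 0 ≤ p) (hp1 : p ≤ π / 2 + w)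
    (hq0 : 0 ≤ q) (hq1 : q ≤ π / 2 - w) :
    ∃ x y : ℝ, 4 * w / 5 ∈ Icc (0 : ℝ) 1 ∧ x ∈ Icc (0 : ℝ) 1 ∧ y ∈ Icc (0 : ℝ) 1 ∧
      w = 5 / 4 * (4 * w / 5) ∧ p + q = π / 2 * (x + y) + w * (x - y) ∧
      w - p + q = w * (1 - (x + y)) - π / 2 * (x - y) := by
  have hπ := pi_gt_three
  have a1 : 0 < π / 2 + w := by linarith
  have a2 : 0 < π / 2 - w := by linarith
  refine ⟨p / (π / 2 + w), q / (π / 2 - w), ⟨by linarith, by linarith⟩,
    ⟨by positivity, (div_le_one a1).2 hp1⟩, ⟨by positivity, (div_le_one a2).2 hq1⟩, by ring, ?_, ?_⟩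
  · have e1 : p / (π / 2 + w) * (π / 2 + w) = p := div_mul_cancel₀ _ a1.ne'
    have e2 : q / (π / 2 - w) * (π / 2 - w) = q := div_mul_cancel₀ _ a2.ne'
    linear_combination -e1 - e2
  · have e1 : p / (π / 2 + w) * (π / 2 + w) = p := div_mul_cancel₀ _ a1.ne'
    have e2 : q / (π / 2 - w) * (π / 2 - w) = q := div_mul_cancel₀ _ a2.ne'
    linear_combination e1 - e2

/-- the inner piece -/
noncomputable def innerPiece (hC : CertC) (lam : ℝ → ℝ) (f : ℝ → ℝ → ℝ → ℝ)
    (hl : ∀ w, 0 ≤ w → w ≤ 5 / 4 → lam w = lamIn w)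
    (hf : ∀ w p q, 0 ≤ w → w ≤ 5 / 4 → f w p q = fIn w p q) : Piece (8 / 5) 0 (5 / 4) lam f where
  l := lamIn
  l' := fun w => 4 / 5 * lamS' (4 * w / 5)
  g := fIn
  gw := fun w p q => gw (4 * w / 5) (p + q) (w - p + q) + gk (4 * w / 5) (p + q) (w - p + q)
  gp := fun w p q => go (4 * w / 5) (p + q) (w - p + q) - gk (4 * w / 5) (p + q) (w - p + q)
  gq := fun w p q => go (4 * w / 5) (p + q) (w - p + q) + gk (4 * w / 5) (p + q) (w - p + q)
  l_eq := fun w _ h0 h1 => hl w h0 h1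
  g_eq := fun w p q _ h0 h1 => hf w p q h0 h1
  l_der := fun w _ => lamIn_der w
  g_der := fun x w p q w' p' q' _ hw hp hq => fIn_der hw hp hq
  ineq := by
    intro d w p q hd hw h0 h1 hp0 hp1 hq0 hq1
    obtain ⟨x, y, hs, hx, hy, e1, e2, e3⟩ := inner_par h0 h1 hp0 hp1 hq0 hq1
    have k1 := hC (4 * w / 5) x y 2 hs hx hy (Or.inl rfl) w (p + q) (w - p + q) e1 e2 e3
    have k2 := hC (4 * w / 5) x y (-2) hs hx hy (Or.inr rfl) w (p + q) (w - p + q) e1 e2 e3
    have e4 : w - (w - p + q) = p - q := by ring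
    rw [e4] at k1 k2
    unfold GG fIn
    generalize g (4 * w / 5) (p + q) (w - p + q) = G at k1 k2 ⊢
    generalize gw (4 * w / 5) (p + q) (w - p + q) = Gw at k1 k2 ⊢
    generalize go (4 * w / 5) (p + q) (w - p + q) = Go at k1 k2 ⊢
    generalize gk (4 * w / 5) (p + q) (w - p + q) = Gk at k1 k2 ⊢
    generalize lamS' (4 * w / 5) = Λ at k1 k2 ⊢
    obtain ⟨d1, d2⟩ := abs_le.1 hd
    have m1 := mul_nonneg (by linarith : (0 : ℝ) ≤ (2 + d) / 4) k1
    have m2 := mul_nonneg (by linarith : (0 : ℝ) ≤ (2 - d) / 4) k2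
    have m3 := add_nonneg m1 m2
    refine m3.trans (le_of_eq ?_)
    ring

theorem cos_lower : A0 + 2 * Bh * (π / 2 - 5 / 4) ≤ 16 / 5 * cos (5 / 4) := by
  have p1 := pi_gt_d6
  have p2 := pi_lt_d6
  have hu1 : (0.160398 : ℝ) ≤ π / 4 - 5 / 8 := by linarith
  have hu2 : π / 4 - 5 / 8 ≤ (0.16039825 : ℝ) := by linarith
  have e : cos (5 / 4) = 2 * sin (π / 4 - 5 / 8) * cos (π / 4 - 5 / 8) := by
    rw [← sin_two_mul, ← sin_pi_div_two_sub]
    congr 1
    ring
  have s0 : (0.159675 : ℝ) ≤ sin 0.160398 := by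
    have h := (abs_le.1 (sin_bound (x := 0.160398) (by rw [abs_of_pos] <;> norm_num))).1
    rw [abs_of_pos (by norm_num : (0 : ℝ) < 0.160398)] at h
    norm_num at h ⊢
    linarith
  have s1 : (0.159675 : ℝ) ≤ sin (π / 4 - 5 / 8) :=
    s0.trans (sin_le_sin_of_le_of_le_pi_div_two (by linarith) (by linarith) hu1)
  have c0 : (0.9871 : ℝ) ≤ cos 0.16039825 := by
    have h := (abs_le.1 (cos_bound (x := 0.16039825) (by rw [abs_of_pos] <;> norm_num))).1
    rw [abs_of_pos (by norm_num : (0 : ℝ) < 0.16039825)] at h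
    norm_num at h ⊢
    linarith
  have c1 : (0.9871 : ℝ) ≤ cos (π / 4 - 5 / 8) :=
    c0.trans (cos_le_cos_of_nonneg_of_le_pi (by linarith) (by linarith) hu2)
  have m : (0.159675 : ℝ) * 0.9871 ≤ sin (π / 4 - 5 / 8) * cos (π / 4 - 5 / 8) :=
    mul_le_mul s1 c1 (by norm_num) (by linarith)
  rw [e]
  unfold A0 Bh
  linarith

theorem cos_pos' : 0 < cos (5 / 4) :=
  cos_pos_of_mem_Ioo ⟨by linarith [pi_gt_d2], by linarith [pi_gt_d2]⟩

noncomputable def th0 : ℝ := π / 2 - 5 / 4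

theorem th0_pos : 0 < th0 := by unfold th0; linarith [pi_gt_d2]

noncomputable def FF : ℝ := A0 / cos (5 / 4)
noncomputable def BB : ℝ := 2 * Bh * th0 / cos (5 / 4)

theorem A0_pos : 0 < A0 := by unfold A0; norm_num
theorem Bh_pos : 1 < Bh := by unfold Bh; norm_num

theorem FF_nonneg : 0 ≤ FF := (div_pos A0_pos cos_pos').le

theorem BB_nonneg : 0 ≤ BB :=
  div_nonneg (mul_nonneg (by linarith [Bh_pos]) th0_pos.le) cos_pos'.le

theorem FF_BB : FF + BB ≤ 2 * (8 / 5) := by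
  have h := cos_lower
  unfold FF BB th0
  rw [← add_div, div_le_iff₀ cos_pos']
  linarith

/-- the weight and the function for `w ≥ 0` -/
noncomputable def lamR (w : ℝ) : ℝ := if 5 / 4 ≤ w then 0 else lamIn w
noncomputable def fR (w p q : ℝ) : ℝ := if 5 / 4 ≤ w then outer FF BB w p q else fIn w p q

theorem lamR_in {w : ℝ} (h : w ≤ 5 / 4) : lamR w = lamIn w := by
  unfold lamR
  split_ifs with h1
  · have : w = 5 / 4 := le_antisymm h h1
    subst this
    unfold lamIn lamS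
    norm_num
  · rfl

theorem fR_in {w : ℝ} (p q : ℝ) (h : w ≤ 5 / 4) : fR w p q = fIn w p q := by
  unfold fR
  split_ifs with h1
  · have : w = 5 / 4 := le_antisymm h h1
    subst this
    have hc := cos_pos'.ne'
    have ht := th0_pos.ne'
    unfold fIn outer g FF BB
    have e : π / 2 - 5 / 4 = th0 := rfl
    rw [e]
    have e1 : (4 : ℝ) * (5 / 4) / 5 = 1 := by norm_num
    rw [e1]
    field_simp
    ring
  · rfl

theorem lamR_out {w : ℝ} (h : 5 / 4 ≤ w) : lamR w = 0 := if_pos h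

theorem fR_out {w : ℝ} (p q : ℝ) (h : 5 / 4 ≤ w) : fR w p q = outer FF BB w p q := if_pos h

theorem lamR_zero : lamR 0 = 1 / 2 := by
  rw [lamR_in (by norm_num)]
  unfold lamIn lamS
  norm_num

theorem fR_zero (p q : ℝ) : fR 0 p q = fR 0 q p := by
  rw [fR_in p q (by norm_num), fR_in q p (by norm_num)]
  unfold fIn g H Hc C Bh
  simp
  ring

/-- the weight -/
noncomputable def lam (w : ℝ) : ℝ := if 0 ≤ w then lamR w else 1 - lamR (-w)
/-- the function -/
noncomputable def f (w p q : ℝ) : ℝ := if 0 ≤ w then fR w p q else fR (-w) q p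

theorem lam_pos {w : ℝ} (h : 0 ≤ w) : lam w = lamR w := if_pos h
theorem f_pos {w : ℝ} (p q : ℝ) (h : 0 ≤ w) : f w p q = fR w p q := if_pos h

theorem lam_symm (w : ℝ) : 1 - lam (-w) = lam w := by
  unfold lam
  rcases lt_trichotomy w 0 with h | h | h
  · rw [if_pos (by linarith), if_neg (by linarith)]
  · subst h
    rw [neg_zero, if_pos le_rfl, lamR_zero]
    norm_num
  · rw [if_neg (by linarith), if_pos h.le, neg_neg]
    ring

theorem f_symm (w p q : ℝ) : f (-w) q p = f w p q := by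
  unfold f
  rcases lt_trichotomy w 0 with h | h | h
  · rw [if_pos (by linarith), if_neg (by linarith)]
  · subst h
    rw [neg_zero, if_pos le_rfl, if_pos le_rfl, fR_zero]
  · rw [if_neg (by linarith), if_pos h.le, neg_neg]

theorem pi_half : (5 / 4 : ℝ) < π / 2 := by linarith [pi_gt_d2]

/-- monotonicity from a derivative bound on an interval -/
theorem mono_of_der {F F' : ℝ → ℝ} {b c : ℝ} (hF : ∀ x, HasDerivAt F (F' x) x)
    (h : ∀ x, 0 ≤ x → x ≤ b → c ≤ F' x) {x y : ℝ} (hx : 0 ≤ x) (hxy : x ≤ y) (hy : y ≤ b) :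
    c * (y - x) ≤ F y - F x := by
  have hm : MonotoneOn (fun z => F z - c * z) (Icc 0 b) := by
    refine monotoneOn_of_deriv_nonneg (convex_Icc 0 b) ?_ ?_ ?_
    · exact fun z _ => (((hF z).sub ((hasDerivAt_id z).const_mul c)).continuousAt).continuousWithinAt
    · exact fun z _ =>
        (((hF z).sub ((hasDerivAt_id z).const_mul c)).differentiableAt).differentiableWithinAt
    · intro z hz
      rw [interior_Icc] at hz
      have e : HasDerivAt (fun z => F z - c * z) (F' z - c * 1) z :=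
        (hF z).sub ((hasDerivAt_id z).const_mul c)
      rw [e.deriv]
      linarith [h z hz.1.le hz.2.le]
  have := hm ⟨hx, hxy.trans hy⟩ ⟨hx.trans hxy, hy⟩ hxy
  simp only at this
  linarith

theorem A_in (hA : CertA) {w p p' q : ℝ} (h0 : 0 ≤ w) (h1 : w ≤ 5 / 4) (hp0 : 0 ≤ p)
    (hpp : p ≤ p') (hp1 : p' ≤ π / 2 + w) (hq0 : 0 ≤ q) (hq1 : q ≤ π / 2 - w) :
    2 * lamIn w * (p' - p) ≤ fIn w p' q - fIn w p q := by
  refine mono_of_der (F := fun x => fIn w x q)
    (F' := fun x => go (4 * w / 5) (x + q) (w - x + q) - gk (4 * w / 5) (x + q) (w - x + q))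
    (b := π / 2 + w) ?_ ?_ hp0 hpp hp1
  · intro x
    have h := fIn_der (hasDerivAt_const x w) (hasDerivAt_id x) (hasDerivAt_const x q)
    refine h.congr_deriv ?_
    simp only [id]
    ring
  · intro x hx0 hx1
    obtain ⟨X, Y, hs, hX, hY, e1, e2, e3⟩ := inner_par h0 h1 hx0 hx1 hq0 hq1
    have k := hA (4 * w / 5) X Y hs hX hY w (x + q) (w - x + q) e1 e2 e3
    have k2 := mul_nonneg (sub_nonneg.2 hs.2) k
    unfold lamIn lamS go gk
    linarith

theorem B_in (hB : CertB) {w p q q' : ℝ} (h0 : 0 ≤ w) (h1 : w ≤ 5 / 4) (hp0 : 0 ≤ p)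
    (hp1 : p ≤ π / 2 + w) (hq0 : 0 ≤ q) (hqq : q ≤ q') (hq1 : q' ≤ π / 2 - w) :
    2 * (1 - lamIn w) * (q' - q) ≤ fIn w p q' - fIn w p q := by
  refine mono_of_der (F := fun x => fIn w p x)
    (F' := fun x => go (4 * w / 5) (p + x) (w - p + x) + gk (4 * w / 5) (p + x) (w - p + x))
    (b := π / 2 - w) ?_ ?_ hq0 hqq hq1
  · intro x
    have h := fIn_der (hasDerivAt_const x w) (hasDerivAt_const x p) (hasDerivAt_id x)
    refine h.congr_deriv ?_
    simp only [id]
    ring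
  · intro x hx0 hx1
    obtain ⟨X, Y, hs, hX, hY, e1, e2, e3⟩ := inner_par h0 h1 hp0 hp1 hx0 hx1
    have k := hB (4 * w / 5) X Y hs hX hY w (p + x) (w - p + x) e1 e2 e3
    unfold lamIn lamS go gk
    linarith

theorem B_out {w p q q' : ℝ} (h0 : 5 / 4 ≤ w) (h1 : w < π / 2) (hqq : q ≤ q') :
    2 * (q' - q) ≤ outer FF BB w p q' - outer FF BB w p q := by
  have hθ : 0 < π / 2 - w := by linarith
  have hle : π / 2 - w ≤ th0 := by unfold th0; linarith
  have h2 := outer_sin_concave (θ := th0) (y := (π / 2 - w) / th0) th0_pos.le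
    (by unfold th0; linarith) (div_nonneg hθ.le th0_pos.le) ((div_le_one th0_pos).2 hle)
  rw [div_mul_cancel₀ _ th0_pos.ne', sin_pi_div_two_sub] at h2
  have hs : sin th0 = cos (5 / 4) := by unfold th0; rw [sin_pi_div_two_sub]
  rw [hs] at h2
  have hc := cos_pos'
  have key : 2 ≤ cos w * BB / (π / 2 - w) := by
    rw [le_div_iff₀ hθ]
    have h3 : (π / 2 - w) / th0 * cos (5 / 4) * BB ≤ cos w * BB :=
      mul_le_mul_of_nonneg_right h2 BB_nonneg
    have h4 : (π / 2 - w) / th0 * cos (5 / 4) * BB = 2 * Bh * (π / 2 - w) := by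
      have ht := th0_pos.ne'
      unfold BB
      field_simp
    rw [h4] at h3
    have h5 : 2 * 1 * (π / 2 - w) ≤ 2 * Bh * (π / 2 - w) :=
      mul_le_mul_of_nonneg_right (by linarith [Bh_pos]) hθ.le
    linarith
  have e : outer FF BB w p q' - outer FF BB w p q = cos w * BB / (π / 2 - w) * (q' - q) := by
    unfold outer
    ring
  rw [e]
  exact mul_le_mul_of_nonneg_right key (by linarith)

theorem A_R (hA : CertA) {w p p' q : ℝ} (h0 : 0 ≤ w) (h1 : w < π / 2) (hp0 : 0 ≤ p)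
    (hpp : p ≤ p') (hp1 : p' ≤ π / 2 + w) (hq0 : 0 ≤ q) (hq1 : q ≤ π / 2 - w) :
    2 * lamR w * (p' - p) ≤ fR w p' q - fR w p q := by
  rcases le_total w (5 / 4) with h | h
  · rw [lamR_in h, fR_in _ _ h, fR_in _ _ h]
    exact A_in hA h0 h hp0 hpp hp1 hq0 hq1
  · rw [lamR_out h, fR_out _ _ h, fR_out _ _ h]
    unfold outer
    simp

theorem B_R (hB : CertB) {w p q q' : ℝ} (h0 : 0 ≤ w) (h1 : w < π / 2) (hp0 : 0 ≤ p)
    (hp1 : p ≤ π / 2 + w) (hq0 : 0 ≤ q) (hqq : q ≤ q') (hq1 : q' ≤ π / 2 - w) :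
    2 * (1 - lamR w) * (q' - q) ≤ fR w p q' - fR w p q := by
  rcases le_total w (5 / 4) with h | h
  · rw [lamR_in h, fR_in _ _ h, fR_in _ _ h]
    exact B_in hB h0 h hp0 hp1 hq0 hqq hq1
  · rw [lamR_out h, fR_out _ _ h, fR_out _ _ h]
    have := B_out (p := p) h h1 hqq
    linarith

theorem L_R (hL : CertL) {w : ℝ} (h0 : 0 ≤ w) : 0 ≤ lamR w ∧ lamR w ≤ 1 := by
  rcases le_total w (5 / 4) with h | h
  · rw [lamR_in h]
    exact hL _ ⟨by linarith, by linarith⟩
  · rw [lamR_out h]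
    norm_num

theorem start_R (hC : CertC) {w : ℝ} (h0 : 0 ≤ w) (h1 : w < π / 2) :
    fR w (π / 2 + w) (π / 2 - w) ≤ 2 * (8 / 5) * cos w := by
  have hcw : 0 < cos w := cos_pos_of_mem_Ioo ⟨by linarith, h1⟩
  rcases le_total w (5 / 4) with h | h
  · rw [fR_in _ _ h]
    unfold fIn
    have e1 : π / 2 + w + (π / 2 - w) = π := by ring
    have e2 : w - (π / 2 + w) + (π / 2 - w) = -w := by ring
    rw [e1, e2]
    have k := hC (4 * w / 5) 1 1 2 ⟨by linarith, by linarith⟩ ⟨by norm_num, by norm_num⟩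
      ⟨by norm_num, by norm_num⟩ (Or.inl rfl) w π (-w) (by ring) (by ring) (by ring)
    rw [cos_pi, sin_pi, sin_neg, sub_neg_eq_add w w, ← two_mul w, cos_two_mul] at k
    have k2 : 0 ≤ cos w * (2 * (8 / 5) * cos w - g (4 * w / 5) π (-w)) := by
      refine k.trans (le_of_eq ?_)
      ring
    have := nonneg_of_mul_nonneg_right k2 hcw
    linarith
  · rw [fR_out _ _ h]
    unfold outer
    have hθ : 0 < π / 2 - w := by linarith
    rw [mul_div_assoc, div_self hθ.ne', mul_one]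
    have := mul_le_mul_of_nonneg_left FF_BB hcw.le
    linarith

theorem fin_R (hC : CertC) {w : ℝ} (h0 : 0 ≤ w) (h1 : w < π / 2) : 0 ≤ fR w 0 0 := by
  have hcw : 0 < cos w := cos_pos_of_mem_Ioo ⟨by linarith, h1⟩
  rcases le_total w (5 / 4) with h | h
  · rw [fR_in _ _ h]
    unfold fIn
    have e1 : (0 : ℝ) + 0 = 0 := by ring
    have e2 : w - 0 + 0 = w := by ring
    rw [e1, e2]
    have k := hC (4 * w / 5) 0 0 2 ⟨by linarith, by linarith⟩ ⟨by norm_num, by norm_num⟩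
      ⟨by norm_num, by norm_num⟩ (Or.inl rfl) w 0 w (by ring) (by ring) (by ring)
    rw [cos_zero, sin_zero, sub_self, cos_zero] at k
    have k2 : 0 ≤ cos w * g (4 * w / 5) 0 w := by
      refine k.trans (le_of_eq ?_)
      ring
    exact nonneg_of_mul_nonneg_right k2 hcw
  · rw [fR_out _ _ h]
    unfold outer
    rw [mul_zero, zero_div, add_zero]
    exact mul_nonneg hcw.le FF_nonneg

theorem pot_of_cert (hC : Cand.CertC) (hA : Cand.CertA) (hB : Cand.CertB) (hL : Cand.CertL) :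
    Nonempty (Pot (8 / 5)) := by
  have hls : (fun w => 1 - lam (-w)) = lam := funext lam_symm
  have hfs : (fun w p q => f (-w) q p) = f := by
    funext w p q
    exact f_symm w p q
  have P3 : Piece (8 / 5) 0 (5 / 4) lam f := innerPiece hC lam f
    (fun w h0 h1 => by rw [lam_pos h0, lamR_in h1])
    (fun w p q h0 h1 => by rw [f_pos _ _ h0, fR_in _ _ h1])
  have P4 : Piece (8 / 5) (5 / 4) (π / 2) lam f := outerPiece (8 / 5) FF BB (5 / 4) FF_nonneg
    BB_nonneg FF_BB lam f (by norm_num)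
    (fun w _ h => by rw [lam_pos (by linarith), lamR_out h])
    (fun w p q _ h => by rw [f_pos _ _ (by linarith), fR_out _ _ h])
  have P2 : Piece (8 / 5) (-(5 / 4)) 0 lam f := by
    have h := P3.mirror
    rw [neg_zero, hls, hfs] at h
    exact h
  have P1 : Piece (8 / 5) (-(π / 2)) (-(5 / 4)) lam f := by
    have h := P4.mirror
    rw [hls, hfs] at h
    exact h
  refine ⟨⟨lam, f, ?_, ?_, ?_, ?_, ?_, ?_, ?_⟩⟩
  · intro w hw
    rcases le_total 0 w with h | h
    · rw [lam_pos h]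
      exact (L_R hL h).1
    · rw [← lam_symm, lam_pos (by linarith : 0 ≤ -w)]
      linarith [(L_R hL (by linarith : 0 ≤ -w)).2]
  · intro w hw
    rcases le_total 0 w with h | h
    · rw [lam_pos h]
      exact (L_R hL h).2
    · rw [← lam_symm, lam_pos (by linarith : 0 ≤ -w)]
      linarith [(L_R hL (by linarith : 0 ≤ -w)).1]
  · intro w p p' q hw hp0 hpp hp1 hq0 hq1
    obtain ⟨hw1, hw2⟩ := abs_lt.1 hw
    rcases le_total 0 w with h | h
    · rw [lam_pos h, f_pos _ _ h, f_pos _ _ h]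
      exact A_R hA h hw2 hp0 hpp hp1 hq0 hq1
    · have h' : 0 ≤ -w := by linarith
      rw [← lam_symm, ← f_symm w p' q, ← f_symm w p q, lam_pos h', f_pos _ _ h', f_pos _ _ h']
      have := B_R hB (p := q) (q := p) (q' := p') h' (by linarith) hq0 (by linarith) hp0 hpp
        (by linarith)
      linarith
  · intro w p q q' hw hp0 hp1 hq0 hqq hq1
    obtain ⟨hw1, hw2⟩ := abs_lt.1 hw
    rcases le_total 0 w with h | h
    · rw [lam_pos h, f_pos _ _ h, f_pos _ _ h]
      exact B_R hB h hw2 hp0 hp1 hq0 hqq hq1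
    · have h' : 0 ≤ -w := by linarith
      rw [← lam_symm, ← f_symm w p q', ← f_symm w p q, lam_pos h', f_pos _ _ h', f_pos _ _ h']
      have := A_R hA (q := p) (p := q) (p' := q') h' (by linarith) hq0 hqq (by linarith) hp0
        (by linarith)
      linarith
  · intro d κ k hd hκ hk
    exact Phi_antitone (by norm_num) pi_half P1 P2 P3 P4 hd hκ hk
  · intro w hw
    obtain ⟨hw1, hw2⟩ := abs_lt.1 hw
    rcases le_total 0 w with h | h
    · rw [f_pos _ _ h]
      exact start_R hC h hw2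
    · have h' : 0 ≤ -w := by linarith
      rw [← f_symm, f_pos _ _ h']
      have := start_R hC h' (by linarith)
      rw [cos_neg, sub_neg_eq_add, ← sub_eq_add_neg] at this
      exact this
  · intro w hw
    obtain ⟨hw1, hw2⟩ := abs_lt.1 hw
    rcases le_total 0 w with h | h
    · rw [f_pos _ _ h]
      exact fin_R hC h hw2
    · have h' : 0 ≤ -w := by linarith
      rw [← f_symm, f_pos _ _ h']
      exact fin_R hC h' (by linarith)

end DT.Cand
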