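import Pool.Agent.Work.MP_74021c_co.Bd.B07
import Pool.Agent.Work.MP_74021c_co.Bd.B01
import Pool.Agent.Work.MP_74021c_co.G12
import Pool.Agent.Work.MP_74021c_co.Bd.B09

/-!
# The stretch factor of Delaunay triangulations is at most `8/5`
-/

namespace DT

theorem TM.sound : TM.Sound where
  C _ _ _ _ _ _ hc h := TM.evalC_sound hc h
  A _ _ _ _ _ _ hc h := TM.evalA_sound hc h
  B _ _ _ _ _ _ hc h := TM.evalB_sound hc h

theorem pot : Nonempty (Pot (8 / 5)) :=
  Cand.pot_of_cert (TM.certC_of TM.sound) (TM.certA_of TM.sound) (TM.certB_of TM.sound) Cand.certL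

theorem stretch (S : Finset Plane) (G : SimpleGraph Plane) (hG : IsDelaunay S G) :
    ∀ p ∈ S, ∀ q ∈ S, ∃ W : G.Walk p q, walkLength W ≤ 8 / 5 * dist p q := by
  obtain ⟨P⟩ := pot
  cases hG with
  | general h => exact spanner_general P S h
  | triangulation T h => exact spanner_triangulation P S T h
  | collinear h => exact spanner_collinear (by norm_num) S h

end DT
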